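import Pool.Agent.Lib.MP_00289a_lc_h67.Defs

/-!
# Chow rank, border Chow rank and the classes VChow
-/

open MvPolynomial Filter Topology

namespace Pool.Agent.Lib.MP_00289a_lc_h78

open Pool.Agent.Lib.MP_00289a_lc_h67

/-- `f` is a sum of `r` products `ℓ₁ ⋯ ℓ_d` of linear forms. -/
def IsSumOfProducts {σ : Type} [Fintype σ] (d r : ℕ) (f : MvPolynomial σ ℂ) : Prop :=
  ∃ a : Fin r → Fin d → σ → ℂ, f = ∑ i, ∏ j, linForm (a i j)

/-- The Chow rank of `f`, as a form of degree `d`: the least `r` such that `f` is a sum of `r`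
products of `d` linear forms (`⊤` if there is none). -/
noncomputable def chowRank {σ : Type} [Fintype σ] (d : ℕ) (f : MvPolynomial σ ℂ) : ℕ∞ :=
  ⨅ (r : ℕ) (_ : IsSumOfProducts d r f), (r : ℕ∞)

/-- The border Chow rank of `f`, as a form of degree `d`: the least `r` such that `f` is the
limit (coefficient by coefficient) of a sequence of forms `g k` of degree `d` with
`chowRank d (g k) ≤ r`. -/
noncomputable def borderChowRank {σ : Type} [Fintype σ] (d : ℕ) (f : MvPolynomial σ ℂ) : ℕ∞ :=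
  ⨅ (r : ℕ) (_ : ∃ g : ℕ → MvPolynomial σ ℂ,
    (∀ k, (g k).IsHomogeneous d ∧ chowRank d (g k) ≤ r) ∧
      ∀ α, Tendsto (fun k => coeff α (g k)) atTop (𝓝 (coeff α f))), (r : ℕ∞)

/-- `F` is in VChow: its Chow ranks are `O(n ^ s)` for some `s`. -/
def VChow (F : PFamily) : Prop :=
  ∃ s C : ℕ, ∀ᶠ n : ℕ in atTop, chowRank (F.deg n) (F.form n) ≤ ((C * n ^ s : ℕ) : ℕ∞)

/-- `F` is in the border class of VChow: its border Chow ranks are `O(n ^ s)` for some `s`. -/
def BorderVChow (F : PFamily) : Prop :=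
  ∃ s C : ℕ, ∀ᶠ n : ℕ in atTop, borderChowRank (F.deg n) (F.form n) ≤ ((C * n ^ s : ℕ) : ℕ∞)

end Pool.Agent.Lib.MP_00289a_lc_h78
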