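import Pool.Agent.Lib.MP_00289a_lc_h78.ChowKill
import Pool.Agent.Lib.MP_00289a_lc_h67.Symmetric

/-!
The reduction of `Pool.Agent.Lib.MP_00289a_lc_h67` (helper67) with the border Chow rank in place of
the border Waring rank.
-/

open MvPolynomial Filter Topology

namespace Pool.Agent.Lib.MP_00289a_lc_h78

open Pool.Agent.Lib.MP_00289a_lc_h67

variable {σ : Type} [Fintype σ]

/-- The `m`-fold merging differences vanish. -/
theorem diff_eq_zero_chow {N q : ℕ} {ι : Fin N × Fin q → σ} {f : MvPolynomial σ ℂ} {d r : ℕ}
    (hb : borderChowRank d f ≤ r) (hsym : Invariant ι f) (z : σ → ℂ)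
    (D : List ((Fin q → ℂ) × (Fin q → ℂ))) (μ : Multiset (Fin q → ℂ))
    (hm : r * d.choose D.length < (N / 2).choose D.length) (hN : 2 * D.length + Multiset.card μ ≤ N) :
    diff (Fhat ι f z) D μ = 0 := by
  classical
  set m := D.length with hmdef
  have hcard : Fintype.card ((Fin m × Bool) ⊕ Fin (N - 2 * m)) = Fintype.card (Fin N) := by
    simp
    omega
  let e : (Fin m × Bool) ⊕ Fin (N - 2 * m) ≃ Fin N := Fintype.equivOfCardEq hcard
  have hk := kill_chow ι hb hsym hm (fun j => (D.get j).1) (fun j => (D.get j).2)
    (fun k => μ.toList.getD k 0) z e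
  rw [diff_expand, ← hk]
  refine Finset.sum_congr rfl fun g _ => ?_
  congr 1
  have hsum : ∑ i, ({(merged (fun j => (D.get j).1) (fun j => (D.get j).2)
      (fun k : Fin (N - 2 * m) => μ.toList.getD k 0) g ∘ e.symm) i} : Multiset (Fin q → ℂ)) =
      ((∑ j, piece (D.get j) (g j)) + μ) +
        ((∑ j, if g j then 1 else 0) + (N - 2 * m - Multiset.card μ)) • {0} := by
    simp only [Function.comp_apply]
    rw [e.symm.sum_comp (fun w => ({merged (fun j => (D.get j).1) (fun j => (D.get j).2)
      (fun k : Fin (N - 2 * m) => μ.toList.getD k 0) g w} : Multiset (Fin q → ℂ)))]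
    rw [Fintype.sum_sum_type, Fintype.sum_prod_type]
    simp only [Fintype.sum_bool, merged]
    have h1 := sum_getD μ.toList (N - 2 * m) (by rw [Multiset.length_toList]; omega)
    rw [Multiset.coe_toList, Multiset.length_toList] at h1
    rw [h1, add_smul, Finset.sum_smul]
    have h2 : ∀ j : Fin m, ({if g j = true then 0 else (D.get j).2} +
        {if g j = true then (D.get j).1 + (D.get j).2 else (D.get j).1} : Multiset (Fin q → ℂ)) =
        piece (D.get j) (g j) + (if g j = true then 1 else 0) • {0} := by
      intro j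
      cases g j
      · simp only [piece, Bool.false_eq_true, if_false, zero_smul, add_zero]
        rw [add_comm]
        rfl
      · simp only [piece, if_true, one_smul]
        rw [add_comm]
    rw [Finset.sum_congr rfl fun j _ => h2 j, Finset.sum_add_distrib]
    abel
  exact Fhat_eq hsym z hsum

theorem Psi_rec_chow {N q : ℕ} {ι : Fin N × Fin q → σ} {f : MvPolynomial σ ℂ} {d m r C : ℕ}
    (hd : d ≠ 0) (hb : borderChowRank d f ≤ r) (hsym : Invariant ι f)
    (hm : r * d.choose m < (N / 2).choose m)
    (hleaf : ∀ l : List ((σ → ℂ) →ₗ[ℂ] (Fin q → ℂ)), l.length < 2 * m →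
      HasW d C (Psi ι f [] l)) (n : ℕ) :
    ∀ (k : ℕ) (D : List (((σ → ℂ) →ₗ[ℂ] (Fin q → ℂ)) × ((σ → ℂ) →ₗ[ℂ] (Fin q → ℂ))))
      (l : List ((σ → ℂ) →ₗ[ℂ] (Fin q → ℂ))), l.length = n → D.length + k = m →
      2 * D.length + l.length ≤ N →
      HasW d (if k = 0 then 0 else 2 ^ (m - 1) * C * (n + 1) ^ (k - 1)) (Psi ι f D l) := by
  induction n using Nat.strong_induction_on with
  | _ n ih =>
    intro k D l hn hk hN
    rcases Nat.eq_zero_or_pos k with hk0 | hk0
    · subst hk0
      rw [if_pos rfl]
      have h0 : Psi ι f D l = fun _ => 0 := by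
        funext x
        apply diff_eq_zero_chow hb hsym
        · have : (D.map fun p => (p.1 x, p.2 x)).length = m := by rw [List.length_map]; omega
          rw [this]; exact hm
        · simpa using hN
      rw [h0]
      exact hasW_zero
    · rw [if_neg (by omega)]
      have hD : D.length ≤ m - 1 := by omega
      match l, hn, hN with
      | [], hn, hN =>
        refine (Psi_leaf hd hleaf D [] (by simp; omega)).mono hd ?_
        have h1 : 2 ^ D.length ≤ 2 ^ (m - 1) := Nat.pow_le_pow_right (by norm_num) hD
        calc 2 ^ D.length * C ≤ 2 ^ (m - 1) * C := Nat.mul_le_mul_right _ h1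
          _ ≤ 2 ^ (m - 1) * C * (n + 1) ^ (k - 1) := Nat.le_mul_of_pos_right _ (by positivity)
      | [s], hn, hN =>
        refine (Psi_leaf hd hleaf D [s] (by simp; omega)).mono hd ?_
        have h1 : 2 ^ D.length ≤ 2 ^ (m - 1) := Nat.pow_le_pow_right (by norm_num) hD
        calc 2 ^ D.length * C ≤ 2 ^ (m - 1) * C := Nat.mul_le_mul_right _ h1
          _ ≤ 2 ^ (m - 1) * C * (n + 1) ^ (k - 1) := Nat.le_mul_of_pos_right _ (by positivity)
      | s :: t :: l, hn, hN =>
        simp only [List.length_cons] at hn hN
        have h1 := ih (n - 1) (by omega) k D ((s + t) :: l) (by simp only [List.length_cons]; omega)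
          hk (by simp only [List.length_cons]; omega)
        have h2 := ih (n - 2) (by omega) (k - 1) ((s, t) :: D) l (by omega)
          (by simp only [List.length_cons]; omega) (by simp only [List.length_cons]; omega)
        rw [if_neg (by omega : ¬ k = 0)] at h1
        have h3 := h1.add h2
        have h4 : (fun x => Psi ι f D ((s + t) :: l) x + Psi ι f ((s, t) :: D) l x) =
            Psi ι f D (s :: t :: l) := by
          funext x
          rw [Psi_cons]; ring
        rw [h4] at h3
        refine h3.mono hd ?_
        obtain ⟨n', rfl⟩ : ∃ n', n = n' + 2 := ⟨l.length, by omega⟩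
        rcases Nat.eq_or_lt_of_le (Nat.succ_le_of_lt hk0) with hk1 | hk1
        · have : k = 1 := by omega
          subst this
          simp
        · rw [if_neg (by omega)]
          obtain ⟨k', rfl⟩ : ∃ k', k = k' + 2 := ⟨k - 2, by omega⟩
          have h5 : (n' + 2 - 1 + 1) = n' + 2 := by omega
          have h6 : (n' + 2 - 2 + 1) = n' + 1 := by omega
          rw [h5, h6]
          have h7 : k' + 2 - 1 = k' + 1 := by omega
          have h8 : k' + 1 - 1 = k' := by omega
          rw [h7, h8, ← Nat.mul_add]
          apply Nat.mul_le_mul_left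
          have h9 : (n' + 2) ^ k' ≤ (n' + 2 + 1) ^ k' := Nat.pow_le_pow_left (by omega) _
          have h10 : (n' + 1) ^ k' ≤ (n' + 2 + 1) ^ k' := Nat.pow_le_pow_left (by omega) _
          calc (n' + 2) ^ (k' + 1) + (n' + 1) ^ k' = (n' + 2) * (n' + 2) ^ k' + (n' + 1) ^ k' := by
                ring
            _ ≤ (n' + 2) * (n' + 2 + 1) ^ k' + (n' + 2 + 1) ^ k' :=
                Nat.add_le_add (Nat.mul_le_mul_left _ h9) h10
            _ = (n' + 2 + 1) ^ (k' + 1) := by ring

/-- **Reduction of one group of blocks.** -/
theorem one_group_chow {N q : ℕ} {ι : Fin N × Fin q → σ} (hι : Function.Injective ι)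
    {f : MvPolynomial σ ℂ} {d m r C : ℕ} (hd : d ≠ 0) (hb : borderChowRank d f ≤ r)
    (hsym : Invariant ι f) (hm : r * d.choose m < (N / 2).choose m) (hm1 : 1 ≤ m)
    (hC : IsSumOfPowers d C (restrict (highBlocks ι (2 * m - 1)) f)) :
    IsSumOfPowers d (2 ^ (m - 1) * C * (N + 1) ^ (m - 1)) f := by
  classical
  have hmN : m ≤ N / 2 := by
    by_contra hcon
    rw [Nat.choose_eq_zero_of_lt (show N / 2 < m by omega)] at hm
    exact absurd hm (Nat.not_lt_zero _)
  -- the value of `Psi` at the empty list of differences
  have hPsi : ∀ (l : List ((σ → ℂ) →ₗ[ℂ] (Fin q → ℂ))), l.length ≤ N → ∀ x,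
      Psi ι f [] l x = eval (put ι (fun i => (l.getD i 0) x) x) f := by
    intro l hl x
    have h1 := sum_getD (l.map fun L => L x) N (by simpa using hl)
    have h2 : ∀ i : Fin N, (l.map fun L => L x).getD i 0 = (l.getD i 0) x := by
      intro i
      rw [List.getD_eq_getElem?_getD, List.getD_eq_getElem?_getD, List.getElem?_map]
      cases l[(i : ℕ)]? <;> simp
    simp only [h2] at h1
    exact Fhat_eq hsym x h1
  have hleaf : ∀ l : List ((σ → ℂ) →ₗ[ℂ] (Fin q → ℂ)), l.length < 2 * m →
      HasW d C (Psi ι f [] l) := by
    intro l hl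
    let T : (σ → ℂ) →ₗ[ℂ] (σ → ℂ) :=
      { toFun := fun x => put ι (fun i => (l.getD i 0) x) x
        map_add' := fun x y => by
          have : (fun i : Fin N => (l.getD i 0) (x + y)) =
              (fun i : Fin N => (l.getD i 0) x) + (fun i : Fin N => (l.getD i 0) y) := by
            funext i; simp
          rw [this, put_add]
        map_smul' := fun c x => by
          have : (fun i : Fin N => (l.getD i 0) (c • x)) =
              c • (fun i : Fin N => (l.getD i 0) x) := by
            funext i; simp
          rw [this, put_smul]; rfl }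
    obtain ⟨φ, hφ⟩ := hasW_iff.1 hC
    refine ⟨fun i => φ i ∘ₗ T, fun x => ?_⟩
    rw [hPsi l (by omega) x]
    have h3 : eval (T x) (restrict (highBlocks ι (2 * m - 1)) f) = eval (T x) f := by
      apply eval_restrict
      · rintro s ⟨i, hi, κ, rfl⟩
        have : l.getD (i : ℕ) 0 = 0 := List.getD_eq_default _ _ (by omega)
        change put ι (fun i => (l.getD i 0) x) x (ι (i, κ)) = 0
        rw [put_apply hι, this]
        rfl
      · intro s _
        rfl
    have h4 := hφ (T x)
    simp only [h3] at h4
    exact h4
  -- the starting list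
  let L : Fin N → ((σ → ℂ) →ₗ[ℂ] (Fin q → ℂ)) := fun i =>
    LinearMap.pi fun κ => LinearMap.proj (ι (i, κ))
  have hrec := Psi_rec_chow hd hb hsym hm hleaf N m [] (List.ofFn L) (by simp) (by simp) (by simp)
  rw [if_neg (by omega)] at hrec
  rw [hasW_iff]
  convert hrec using 2 with x
  rw [hPsi _ (by simp)]
  congr 2
  have h5 : (fun i : Fin N => ((List.ofFn L).getD i 0) x) = fun i κ => x (ι (i, κ)) := by
    funext i κ
    have : (List.ofFn L).getD (i : ℕ) 0 = L i := by
      rw [List.getD_eq_getElem _ _ (by simp)]
      simp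
    rw [this]
    rfl
  rw [h5, put_self]

/-- **Explicit bound.** -/
theorem isSumOfPowers_of_blockSymmetric_chow {G q : ℕ} {N : Fin G → ℕ}
    {e : σ ≃ Σ g : Fin G, Fin (N g) × Fin q} {f : MvPolynomial σ ℂ} (hf : BlockSymmetric e f)
    {d m r M : ℕ} (hd : d ≠ 0) (hb : borderChowRank d f ≤ r) (hm1 : 1 ≤ m)
    (hm : ∀ g, N g < 2 * m ∨ r * d.choose m < (N g / 2).choose m) (hM : ∀ g, N g ≤ M) :
    IsSumOfPowers d (((2 * (M + 1)) ^ (m - 1)) ^ G * (d + 1) ^ (q * G * (2 * m - 1))) f := by
  classical
  set c := (d + 1) ^ (q * G * (2 * m - 1)) with hc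
  set K := 2 * m - 1 with hK
  have hrest := fun Z : Set σ => borderChow_restrict Z hb
  -- the fully restricted form
  have hbase : IsSumOfPowers d c (restrict (highOf e K Finset.univ) f) := by
    have h1 := isSumOfPowers_box hd
      (fun s => if s ∈ highOf e K Finset.univ then 1 else d + 1)
      (restrict (highOf e K Finset.univ) f) (isHomogeneous_of_borderChow (hrest _)) (by
        intro α hα s
        have h2 := mem_support_iff.1 hα
        rw [coeff_restrict] at h2
        have h3 : ∀ s ∈ highOf e K Finset.univ, α s = 0 := by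
          by_contra hcon
          rw [if_neg hcon] at h2
          exact h2 rfl
        split_ifs with hs
        · rw [h3 s hs]; norm_num
        · have h4 := degree_of_coeff_ne (isHomogeneous_of_borderChow (hrest _)) (mem_support_iff.1 hα)
          have h5 := Finsupp.le_degree s α
          omega)
    refine h1.mono hd ?_
    rw [Finset.prod_ite, Finset.prod_const_one, one_mul, Finset.prod_const, hc]
    apply Nat.pow_le_pow_right (by omega)
    -- count the low variables
    have hK0 : 0 < K := by omega
    let Θ : σ → Fin G × Fin K × Fin q := fun s =>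
      ((e s).1, ((⟨((e s).2.1 : ℕ) % K, Nat.mod_lt _ hK0⟩ : Fin K), (e s).2.2))
    have hinj : (Finset.univ.filter fun s => s ∉ highOf e K Finset.univ).card ≤
        Fintype.card (Fin G × Fin K × Fin q) := by
      refine (Finset.card_le_card_of_injOn (t := Finset.univ) Θ
        (fun _ _ => Finset.mem_univ _) ?_).trans (by rw [Finset.card_univ])
      intro s hs s' hs' heq
      have hlow : ∀ s, s ∉ highOf e K Finset.univ → ((e s).2.1 : ℕ) < K := by
        intro s hs
        by_contra hcon
        apply hs
        refine ⟨(e s).1, Finset.mem_univ _, (e s).2.1, by omega, (e s).2.2, ?_⟩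
        simp [grp]
      have h1 := hlow s (by simpa using hs)
      have h2 := hlow s' (by simpa using hs')
      apply e.injective
      simp only [Θ, Prod.mk.injEq, Fin.mk.injEq, Nat.mod_eq_of_lt h1, Nat.mod_eq_of_lt h2] at heq
      obtain ⟨ha, hb', hc'⟩ := heq
      rcases hes : e s with ⟨g, i, κ⟩
      rcases hes' : e s' with ⟨g', i', κ'⟩
      rw [hes, hes'] at ha hb' hc'
      simp only at ha hb' hc'
      subst ha
      subst hc'
      have : i = i' := Fin.ext hb'
      rw [this]
    refine hinj.trans ?_
    simp only [Fintype.card_prod, Fintype.card_fin]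
    apply le_of_eq; ring
  -- add the groups one after the other
  have hstep : ∀ T : Finset (Fin G), IsSumOfPowers d (((2 * (M + 1)) ^ (m - 1)) ^ T.card * c)
      (restrict (highOf e K (Finset.univ \ T)) f) := by
    intro T
    induction T using Finset.induction_on with
    | empty => simpa using hbase
    | insert g T hg ih =>
      have hset : Finset.univ \ T = insert g (Finset.univ \ insert g T) := by
        ext g'
        simp only [Finset.mem_sdiff, Finset.mem_univ, true_and, Finset.mem_insert]
        by_cases h : g' = g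
        · subst h; simp [hg]
        · simp [h]
      rw [hset, highOf_insert, ← restrict_restrict] at ih
      have hnot : ∀ p, grp e g p ∉ highOf e K (Finset.univ \ insert g T) := by
        rintro p ⟨g', hg', i, -, κ, h⟩
        have := e.symm.injective h
        simp only [Sigma.mk.injEq] at this
        have hgg : g = g' := this.1
        subst hgg
        simp at hg'
      have hinv := invariant_restrict (invariant_of_blockSymmetric hf g) _ hnot
      rw [Finset.card_insert_of_notMem hg]
      rcases hm g with hlt | hlt
      · have hempty : highBlocks (grp e g) K = ∅ := by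
          ext s
          simp only [highBlocks, Set.mem_ofPred_eq, Set.mem_empty_iff_false, iff_false]
          rintro ⟨i, hi, -⟩
          have := i.2
          omega
        rw [restrict_empty _ _ hempty] at ih
        refine ih.mono hd ?_
        apply Nat.mul_le_mul_right
        apply Nat.pow_le_pow_right (by positivity) (by omega)
      · have h1 := one_group_chow (grp_injective e g) hd (hrest _) hinv hlt hm1 ih
        refine h1.mono hd ?_
        have h2 : (N g + 1) ^ (m - 1) ≤ (M + 1) ^ (m - 1) :=
          Nat.pow_le_pow_left (by have := hM g; omega) _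
        calc 2 ^ (m - 1) * (((2 * (M + 1)) ^ (m - 1)) ^ T.card * c) * (N g + 1) ^ (m - 1)
            ≤ 2 ^ (m - 1) * (((2 * (M + 1)) ^ (m - 1)) ^ T.card * c) * (M + 1) ^ (m - 1) :=
              Nat.mul_le_mul_left _ h2
          _ = ((2 * (M + 1)) ^ (m - 1)) ^ (T.card + 1) * c := by
              rw [pow_succ ((2 * (M + 1)) ^ (m - 1)), mul_pow 2 (M + 1)]; ring
  have hfin := hstep Finset.univ
  rw [Finset.sdiff_self] at hfin
  have hempty : highOf e K (∅ : Finset (Fin G)) = ∅ := by
    ext s; simp [highOf]
  rw [restrict_empty _ _ hempty] at hfin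
  simpa using hfin

end Pool.Agent.Lib.MP_00289a_lc_h78
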