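import Pool.Agent.Lib.MP_00289a_lc_h78.ChowRank

open MvPolynomial Filter Topology

namespace Pool.Agent.Lib.MP_00289a_lc_h78

open Pool.Agent.Lib.MP_00289a_lc_h67

variable {σ : Type} [Fintype σ]

/-- The singular matrix of derivatives of forms of small border Chow rank. -/
theorem dirs_matrix_det {U J : Type} [Fintype U] [DecidableEq U] [Fintype J] {d m r : ℕ}
    {f : MvPolynomial σ ℂ} (hb : borderChowRank d f ≤ r)
    (hcard : r * d.choose m < Fintype.card U) (w : U → Fin m → σ → ℂ) (B : U → J → σ → ℂ)
    (c : J → ℂ) :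
    (Matrix.of fun u v => ∑ j, c j * eval (B v j) (dirs (List.ofFn (w u)) f)).det = 0 := by
  let M : MvPolynomial σ ℂ →ₗ[ℂ] Matrix U U ℂ :=
    { toFun := fun p => Matrix.of fun u v => ∑ j, c j * eval (B v j) (dirs (List.ofFn (w u)) p)
      map_add' := fun p p' => by
        ext u v
        simp [mul_add, Finset.sum_add_distrib]
      map_smul' := fun a p => by
        ext u v
        simp only [map_smul, smul_eval, Matrix.of_apply, RingHom.id_apply, Matrix.smul_apply,
          smul_eq_mul, Finset.mul_sum]
        refine Finset.sum_congr rfl fun j _ => ?_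
        ring }
  have hM : ∀ a : Fin d → σ → ℂ, ∃ (P : Matrix U (Fac d m) ℂ) (Q : Matrix (Fac d m) U ℂ),
      M (∏ j, linForm (a j)) = P * Q := by
    intro a
    choose P hP using fun u => dirs_prod_eq a (w u)
    refine ⟨Matrix.of P, Matrix.of fun T v => ∑ j, c j * eval (B v j) (∏ i ∈ T.1, linForm (a i)), ?_⟩
    ext u v
    simp only [M, LinearMap.coe_mk, AddHom.coe_mk, Matrix.of_apply, Matrix.mul_apply]
    rw [hP u]
    simp only [map_sum, smul_eval, Finset.mul_sum]
    rw [Finset.sum_comm]
    refine Finset.sum_congr rfl fun T _ => Finset.sum_congr rfl fun j _ => ?_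
    ring
  exact det_eq_zero_of_borderChow (K := Fac d m) hb M hM (by rw [card_fac]; exact hcard)

/-- The point with the blocks `β` at the positions given by `E`. -/
noncomputable def pt {N q : ℕ} {W : Type} (ι : Fin N × Fin q → σ) (E : W ≃ Fin N)
    (β : W → Fin q → ℂ) (z : σ → ℂ) : σ → ℂ := put ι (β ∘ E.symm) z

omit [Fintype σ] in
theorem pt_add {N q : ℕ} {W : Type} (ι : Fin N × Fin q → σ) (E : W ≃ Fin N)
    (β β' : W → Fin q → ℂ) (z z' : σ → ℂ) :
    pt ι E (β + β') (z + z') = pt ι E β z + pt ι E β' z' :=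
  put_add ι (β ∘ E.symm) (β' ∘ E.symm) z z'

omit [Fintype σ] in
theorem pt_smul {N q : ℕ} {W : Type} (ι : Fin N × Fin q → σ) (E : W ≃ Fin N) (c : ℂ)
    (β : W → Fin q → ℂ) : pt ι E (c • β) 0 = c • pt ι E β 0 := by
  have := put_smul ι c (β ∘ E.symm) 0
  rw [smul_zero] at this
  exact this

omit [Fintype σ] in
theorem pt_zero {N q : ℕ} {W : Type} (ι : Fin N × Fin q → σ) (E : W ≃ Fin N) :
    pt ι E 0 0 = 0 := by
  have := pt_smul ι E (0 : ℂ) (0 : W → Fin q → ℂ)
  rw [zero_smul, zero_smul] at this
  exact this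

omit [Fintype σ] in
theorem pt_add_sum {N q m : ℕ} {W : Type} (ι : Fin N × Fin q → σ) (E : W ≃ Fin N)
    (β : W → Fin q → ℂ) (z : σ → ℂ) (η : Fin m → W → Fin q → ℂ) (t : Fin m → ℂ) :
    pt ι E β z + ∑ j, t j • pt ι E (η j) 0 = pt ι E (β + ∑ j, t j • η j) z := by
  have h1 : ∀ S : Finset (Fin m), ∑ j ∈ S, t j • pt ι E (η j) 0 =
      pt ι E (∑ j ∈ S, t j • η j) 0 := by
    classical
    intro S
    induction S using Finset.induction_on with
    | empty => simp [pt_zero]
    | insert j S hj ih =>
      rw [Finset.sum_insert hj, Finset.sum_insert hj, ih, ← pt_smul, ← pt_add, add_zero]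
  rw [h1, ← pt_add, add_zero]

/-- The block vector with `v` and `-v` at the two places of the pair `j`. -/
def eta {m : ℕ} {R : Type} {q : ℕ} (j : Fin m) (v : Fin q → ℂ) : (Fin m × Bool) ⊕ R → Fin q → ℂ
  | Sum.inl (j', false) => if j' = j then v else 0
  | Sum.inl (j', true) => if j' = j then -v else 0
  | Sum.inr _ => 0

theorem eta_flip {m : ℕ} {R : Type} {q : ℕ} (j : Fin m) (v : Fin q → ℂ) (g : Fin m → Bool) :
    (eta j v ∘ flip g : (Fin m × Bool) ⊕ R → Fin q → ℂ) =
      (if g j then (-1 : ℂ) else 1) • eta j v := by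
  funext w
  rcases w with ⟨j', b⟩ | k
  · by_cases hj : j' = j
    · subst hj
      cases b <;> cases hg : g j' <;> simp [eta, MP_00289a_lc_h67.flip, hg]
    · cases b <;> cases hg : g j' <;> simp [eta, MP_00289a_lc_h67.flip, hg, hj]
  · simp [eta, MP_00289a_lc_h67.flip]

theorem sgn_mul_self {m : ℕ} (g : Fin m → Bool) : sgn g * sgn g = 1 := by
  unfold sgn
  rw [← Finset.prod_mul_distrib]
  apply Finset.prod_eq_one
  intro j _
  cases g j <;> simp

/-- **Derivatives along `m` disjoint pairs of blocks vanish.** -/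
theorem dirs_eq_zero {N m q : ℕ} (ι : Fin N × Fin q → σ) {f : MvPolynomial σ ℂ} {d r : ℕ}
    (hb : borderChowRank d f ≤ r) (hsym : Invariant ι f)
    (hm : r * d.choose m < (N / 2).choose m) (y : Fin m → Fin q → ℂ)
    (e : (Fin m × Bool) ⊕ Fin (N - 2 * m) ≃ Fin N) :
    dirs (List.ofFn fun j => pt ι e (eta j (y j)) 0) f = 0 := by
  classical
  apply MvPolynomial.funext
  intro x
  rw [map_zero]
  -- the point in the form `pt`
  let β : (Fin m × Bool) ⊕ Fin (N - 2 * m) → Fin q → ℂ := fun w κ => x (ι (e w, κ))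
  have hx : pt ι e β x = x := by
    unfold pt
    have : β ∘ e.symm = fun i κ => x (ι (i, κ)) := by
      funext i κ
      simp [β]
    rw [this]
    exact put_self x
  set z := x with hz
  rw [← hx]
  set δ := eval (pt ι e β z) (dirs (List.ofFn fun j => pt ι e (eta j (y j)) 0) f) with hδ
  let U := {S : Finset (Fin (N / 2)) // S.card = m}
  have hcardU : Fintype.card U = (N / 2).choose m := by
    rw [Fintype.card_finset_len, Fintype.card_fin]
  have hmN : m ≤ N / 2 := by
    by_contra hcon
    rw [Nat.choose_eq_zero_of_lt (show N / 2 < m by omega)] at hm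
    exact absurd hm (Nat.not_lt_zero _)
  -- symmetry in terms of equivalences
  have hequiv : ∀ (e₁ e₂ : (Fin m × Bool) ⊕ Fin (N - 2 * m) ≃ Fin N)
      (w : (Fin m × Bool) ⊕ Fin (N - 2 * m) → Fin q → ℂ) (z : σ → ℂ),
      eval (pt ι e₁ w z) f = eval (pt ι e₂ w z) f := by
    intro e₁ e₂ w z
    have := hsym (e₂.symm.trans e₁) (w ∘ e₁.symm) z
    unfold pt
    rw [← this]
    congr 2
    congr 1
    funext i
    simp
  -- the positions of the pairs
  let P : Fin (N / 2) × Bool → Fin N := fun p =>
    ⟨2 * p.1 + (if p.2 then 1 else 0), by have := p.1.2; split_ifs <;> omega⟩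
  have hP : Function.Injective P := by
    rintro ⟨j, b⟩ ⟨j', b'⟩ h
    have h' : 2 * (j : ℕ) + (if b then 1 else 0) = 2 * (j' : ℕ) + (if b' then 1 else 0) :=
      congrArg Fin.val h
    have hb' : b = b' := by
      cases b <;> cases b' <;> simp_all <;> omega
    subst hb'
    have : j = j' := Fin.ext (by split_ifs at h' <;> omega)
    rw [this]
  have hE : ∀ S : U, ∃ E : (Fin m × Bool) ⊕ Fin (N - 2 * m) ≃ Fin N,
      (∀ j b, ∃ i ∈ S.1, E (Sum.inl (j, b)) = P (i, b)) ∧
      (∀ i ∈ S.1, ∃ j, ∀ b, E (Sum.inl (j, b)) = P (i, b)) := by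
    rintro ⟨S, hS⟩
    let en : Fin m ≃ S := (S.orderIsoOfFin hS).toEquiv
    obtain ⟨π, hπ⟩ := Equiv.Perm.exists_extending_pair (fun p : Fin m × Bool => e (Sum.inl p))
      (fun p : Fin m × Bool => P ((en p.1 : Fin (N / 2)), p.2))
      (fun a a' h => Sum.inl_injective (e.injective h))
      (by
        rintro ⟨j, b⟩ ⟨j', b'⟩ h
        have := hP h
        simp only [Prod.mk.injEq] at this
        obtain ⟨h1, h2⟩ := this
        have := en.injective (Subtype.ext h1)
        simp_all)
    refine ⟨e.trans π, ?_, ?_⟩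
    · intro j b
      exact ⟨en j, (en j).2, by simpa using hπ (j, b)⟩
    · intro i hi
      refine ⟨en.symm ⟨i, hi⟩, fun b => ?_⟩
      have := hπ (en.symm ⟨i, hi⟩, b)
      simpa using this
  choose E hE1 hE2 using hE
  have hff : ∀ g : Fin m → Bool, (flip g).symm =
      (flip g : Equiv.Perm ((Fin m × Bool) ⊕ Fin (N - 2 * m))) := by
    intro g
    ext w
    rfl
  have hff2 : ∀ (g : Fin m → Bool) (w : (Fin m × Bool) ⊕ Fin (N - 2 * m)),
      flip g (flip g w) = w := fun g w => by
    nth_rewrite 1 [← hff g]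
    exact Equiv.symm_apply_apply _ _
  -- flipping the blocks of a point does not change the value
  have hflip : ∀ (e₁ : (Fin m × Bool) ⊕ Fin (N - 2 * m) ≃ Fin N) (g : Fin m → Bool)
      (w : (Fin m × Bool) ⊕ Fin (N - 2 * m) → Fin q → ℂ) (z : σ → ℂ),
      eval (pt ι e₁ (w ∘ flip g) z) f = eval (pt ι e₁ w z) f := by
    intro e₁ g w z
    rw [hequiv e₁ ((flip g).trans e₁) w z]
    unfold pt
    congr 3
  let w : U → Fin m → σ → ℂ := fun S j => pt ι (E S) (eta j (y j)) 0
  let B : U → (Fin m → Bool) → σ → ℂ := fun S g => pt ι (E S) (β ∘ flip g) z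
  have hdet := dirs_matrix_det (U := U) hb (by rw [hcardU]; exact hm) w B sgn
  have hM : (Matrix.of fun S S' => ∑ g, sgn g * eval (B S' g) (dirs (List.ofFn (w S)) f)) =
      (2 ^ m * δ) • (1 : Matrix U U ℂ) := by
    ext S S'
    simp only [Matrix.of_apply, Matrix.smul_apply, Matrix.one_apply, smul_eq_mul, mul_ite, mul_one,
      mul_zero]
    split_ifs with hSS
    · subst hSS
      have h1 : ∀ g, eval (B S g) (dirs (List.ofFn (w S)) f) = sgn g * δ := by
        intro g
        have h2 : eval (B S g) (dirs (List.ofFn (w S)) f) =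
            eval (pt ι e β z) (dirs (List.ofFn fun j => (if g j then (-1 : ℂ) else 1) •
              pt ι e (eta j (y j)) 0) f) := by
          apply eval_dirs_congr
          intro t
          have h3 : (∑ j, t j • (if g j then (-1 : ℂ) else 1) • pt ι e (eta j (y j)) 0) =
              ∑ j, (t j * (if g j then (-1 : ℂ) else 1)) • pt ι e (eta j (y j)) 0 := by
            refine Finset.sum_congr rfl fun j _ => ?_
            rw [smul_smul]
          rw [h3, pt_add_sum, pt_add_sum]
          have h4 : (β ∘ flip g + ∑ j, t j • eta j (y j)) =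
              (β + ∑ j, (t j * (if g j then (-1 : ℂ) else 1)) • eta j (y j)) ∘ flip g := by
            have h5 : ∀ j, (eta j (y j) : (Fin m × Bool) ⊕ Fin (N - 2 * m) → Fin q → ℂ) =
                (if g j then (-1 : ℂ) else 1) • (eta j (y j) ∘ flip g) := by
              intro j
              rw [eta_flip, smul_smul]
              split_ifs <;> simp
            funext u
            simp only [Pi.add_apply, Function.comp_apply, Finset.sum_apply, Pi.smul_apply]
            congr 1
            refine Finset.sum_congr rfl fun j _ => ?_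
            rw [mul_smul]
            congr 1
            have h6 := congrFun (h5 j) u
            rw [h6]
            rfl
          rw [h4, hflip]
          exact hequiv _ _ _ _
        rw [h2, dirs_smul, smul_eval]
        rfl
      rw [Finset.sum_congr rfl fun g _ => by rw [h1 g, ← mul_assoc, sgn_mul_self, one_mul]]
      rw [Finset.sum_const, Finset.card_univ, Fintype.card_fun, Fintype.card_bool, Fintype.card_fin,
        nsmul_eq_mul]
      push_cast
      rfl
    · -- the off-diagonal entries vanish
      have hex : ∃ i ∈ S'.1, i ∉ S.1 := by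
        by_contra hcon
        push Not at hcon
        apply hSS
        exact (Subtype.ext (Finset.eq_of_subset_of_card_le hcon (by rw [S.2, S'.2]))).symm
      obtain ⟨i, hi, hiS⟩ := hex
      obtain ⟨j₀, hj₀⟩ := hE2 S' i hi
      have hzero : ∀ (j : Fin m) (v : Fin q → ℂ) b,
          (eta j v : (Fin m × Bool) ⊕ Fin (N - 2 * m) → Fin q → ℂ)
            ((E S).symm (E S' (Sum.inl (j₀, b)))) = 0 := by
        intro j v b
        rw [hj₀ b]
        rcases hw : (E S).symm (P (i, b)) with ⟨j, b'⟩ | k
        · exfalso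
          obtain ⟨i', hi', h5⟩ := hE1 S j b'
          rw [← hw, Equiv.apply_symm_apply] at h5
          have := hP h5
          simp only [Prod.mk.injEq] at this
          exact hiS (this.1 ▸ hi')
        · rfl
      apply sum_sgn_eq_zero j₀
      intro g
      apply eval_dirs_congr
      intro t
      have h1 : ∀ j, w S j = pt ι (E S') (eta j (y j) ∘ (E S).symm ∘ E S') 0 := by
        intro j
        simp only [w, pt]
        congr 1
        funext i
        simp
      simp only [h1]
      change eval (pt ι (E S') (β ∘ flip (Function.update g j₀ (!(g j₀)))) z + _) f =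
        eval (pt ι (E S') (β ∘ flip g) z + _) f
      rw [pt_add_sum, pt_add_sum]
      set γ : (Fin m × Bool) ⊕ Fin (N - 2 * m) → Fin q → ℂ :=
        ∑ j, t j • (eta j (y j) ∘ (E S).symm ∘ E S') with hγ
      have hγ0 : ∀ b, γ (Sum.inl (j₀, b)) = 0 := by
        intro b
        rw [hγ, Finset.sum_apply]
        apply Finset.sum_eq_zero
        intro j _
        rw [Pi.smul_apply, Function.comp_apply, Function.comp_apply, hzero, smul_zero]
      set g₀ : Fin m → Bool := fun j => if j = j₀ then true else false with hg₀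
      have h2 : β ∘ flip (Function.update g j₀ (!(g j₀))) + γ = (β ∘ flip g + γ) ∘ flip g₀ := by
        funext u
        rcases u with ⟨j, b⟩ | k
        · by_cases hj : j = j₀
          · subst hj
            simp only [Pi.add_apply, Function.comp_apply]
            have h3 : (flip g₀ (Sum.inl (j, b)) : (Fin m × Bool) ⊕ Fin (N - 2 * m)) =
                Sum.inl (j, !b) := by
              simp [MP_00289a_lc_h67.flip, hg₀]
            rw [h3, hγ0, hγ0, add_zero, add_zero]
            congr 1
            simp only [MP_00289a_lc_h67.flip, Equiv.coe_fn_mk, Function.update_self]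
            congr 2
            cases b <;> cases g j <;> rfl
          · simp only [Pi.add_apply, Function.comp_apply]
            have h3 : (flip g₀ (Sum.inl (j, b)) : (Fin m × Bool) ⊕ Fin (N - 2 * m)) =
                Sum.inl (j, b) := by
              simp [MP_00289a_lc_h67.flip, hg₀, hj]
            rw [h3]
            congr 2
            simp only [MP_00289a_lc_h67.flip, Equiv.coe_fn_mk, Function.update_of_ne hj]
        · rfl
      rw [h2, hflip]
  rw [hM, Matrix.det_smul, Matrix.det_one, mul_one] at hdet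
  have h0 := (pow_eq_zero_iff (by rw [hcardU]; omega)).1 hdet
  have h2 : (2 : ℂ) ^ m ≠ 0 := pow_ne_zero _ two_ne_zero
  exact (mul_eq_zero.1 h0).resolve_left h2

/-- The `m`-fold merging differences of a form invariant under permutations of its blocks vanish if
its border Chow rank is small. -/
theorem kill_chow {N m q : ℕ} (ι : Fin N × Fin q → σ) {f : MvPolynomial σ ℂ} {d r : ℕ}
    (hb : borderChowRank d f ≤ r) (hsym : Invariant ι f)
    (hm : r * d.choose m < (N / 2).choose m) (x y : Fin m → Fin q → ℂ)
    (l : Fin (N - 2 * m) → Fin q → ℂ) (z : σ → ℂ)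
    (e : (Fin m × Bool) ⊕ Fin (N - 2 * m) ≃ Fin N) :
    ∑ g : Fin m → Bool, sgn g * eval (put ι (merged x y l g ∘ e.symm) z) f = 0 := by
  classical
  have h1 := diffs_eq_zero _ f (dirs_eq_zero ι hb hsym hm y e)
  have h2 := eval_diffs (fun j => pt ι e (eta j (y j)) 0) f
    (pt ι e (merged x y l fun _ => false) z)
  rw [h1, map_zero] at h2
  rw [h2]
  refine Finset.sum_congr rfl fun g _ => ?_
  congr 2
  have h3 : (∑ j, if g j then pt ι e (eta j (y j)) 0 else 0) =
      ∑ j, (if g j then (1 : ℂ) else 0) • pt ι e (eta j (y j)) 0 := by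
    refine Finset.sum_congr rfl fun j _ => ?_
    split_ifs <;> simp
  rw [h3, pt_add_sum]
  unfold pt
  congr 1
  have h4 : (merged x y l g : (Fin m × Bool) ⊕ Fin (N - 2 * m) → Fin q → ℂ) =
      (merged x y l fun _ => false) + ∑ j, (if g j then (1 : ℂ) else 0) • eta j (y j) := by
    funext u
    rcases u with ⟨j, b⟩ | k
    · rw [Pi.add_apply, Finset.sum_apply, Finset.sum_eq_single j]
      · cases b <;> cases hg : g j <;> simp [merged, eta, hg]
      · intro j' _ hj'
        cases b <;> simp [eta, Ne.symm hj']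
      · intro h; exact absurd (Finset.mem_univ j) h
    · rw [Pi.add_apply, Finset.sum_apply, Finset.sum_eq_zero, add_zero]
      · rfl
      · intro j _
        simp [eta]
  rw [h4]

end Pool.Agent.Lib.MP_00289a_lc_h78
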