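import Pool.Agent.Lib.MP_00289a_lc_h67.OneGroup

open MvPolynomial Filter Topology

namespace Pool.Agent.Lib.MP_00289a_lc_h78

open Pool.Agent.Lib.MP_00289a_lc_h67

variable {σ : Type}

/-- The derivative in the direction `w`. -/
noncomputable def dir (w : σ → ℂ) : Derivation ℂ (MvPolynomial σ ℂ) (MvPolynomial σ ℂ) :=
  MvPolynomial.mkDerivation ℂ fun s => C (w s)

/-- The translation by `w`. -/
noncomputable def tra (w : σ → ℂ) : MvPolynomial σ ℂ →ₐ[ℂ] MvPolynomial σ ℂ :=
  MvPolynomial.aeval fun s => X s + C (w s)

theorem dir_X (w : σ → ℂ) (s : σ) : dir w (X s) = C (w s) :=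
  MvPolynomial.mkDerivation_X _ _ _

theorem dir_C (w : σ → ℂ) (c : ℂ) : dir w (C c) = 0 :=
  MvPolynomial.derivation_C _ _

theorem eval_tra (w x : σ → ℂ) (p : MvPolynomial σ ℂ) : eval x (tra w p) = eval (x + w) p := by
  unfold tra
  induction p using MvPolynomial.induction_on with
  | C a => simp
  | add p q hp hq => rw [map_add, map_add, map_add, hp, hq]
  | mul_X p s hp => rw [map_mul, map_mul, map_mul, hp]; simp

/-- The restriction to the line through `x` in the direction `w`. -/
noncomputable def line (x w : σ → ℂ) : MvPolynomial σ ℂ →ₐ[ℂ] Polynomial ℂ :=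
  MvPolynomial.aeval fun s => Polynomial.C (x s) + Polynomial.C (w s) * Polynomial.X

theorem eval_line (x w : σ → ℂ) (t : ℂ) (p : MvPolynomial σ ℂ) :
    (line x w p).eval t = eval (x + t • w) p := by
  unfold line
  induction p using MvPolynomial.induction_on with
  | C a => simp
  | add p q hp hq => rw [map_add, Polynomial.eval_add, map_add, hp, hq]
  | mul_X p s hp =>
    rw [map_mul, Polynomial.eval_mul, map_mul, hp, aeval_X, eval_X]
    congr 1
    rw [Polynomial.eval_add, Polynomial.eval_mul, Polynomial.eval_C, Polynomial.eval_C,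
      Polynomial.eval_X, Pi.add_apply, Pi.smul_apply, smul_eq_mul, mul_comm]

theorem derivative_line (x w : σ → ℂ) (p : MvPolynomial σ ℂ) :
    Polynomial.derivative (line x w p) = line x w (dir w p) := by
  induction p using MvPolynomial.induction_on with
  | C a =>
    rw [dir_C, map_zero]
    have : line x w (C a) = Polynomial.C a := by
      unfold line
      rw [aeval_C]
      rfl
    rw [this, Polynomial.derivative_C]
  | add p q hp hq => simp only [map_add, hp, hq]
  | mul_X p s hp =>
    have h1 : line x w (X s) = Polynomial.C (x s) + Polynomial.C (w s) * Polynomial.X := by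
      unfold line
      rw [aeval_X]
    have h2 : line x w (C (w s)) = Polynomial.C (w s) := by
      unfold line
      rw [aeval_C]
      rfl
    rw [map_mul, Polynomial.derivative_mul, hp, Derivation.leibniz, dir_X, smul_eq_mul, smul_eq_mul,
      map_add, map_mul, map_mul, h1, h2]
    simp
    ring

theorem eval_add_of_dir_eq_zero {w : σ → ℂ} {p : MvPolynomial σ ℂ} (h : dir w p = 0) (x : σ → ℂ) :
    eval (x + w) p = eval x p := by
  have h1 := derivative_line x w p
  rw [h, map_zero] at h1
  have h2 := Polynomial.eq_C_of_derivative_eq_zero h1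
  have h3 := eval_line x w 1 p
  have h4 := eval_line x w 0 p
  rw [h2, Polynomial.eval_C] at h3 h4
  rw [one_smul] at h3
  rw [zero_smul, add_zero] at h4
  rw [← h3, h4]

theorem tra_eq_of_dir_eq_zero {w : σ → ℂ} {p : MvPolynomial σ ℂ} (h : dir w p = 0) :
    tra w p = p := by
  apply MvPolynomial.funext
  intro x
  rw [eval_tra]
  exact eval_add_of_dir_eq_zero h x

theorem dir_tra (v w : σ → ℂ) (p : MvPolynomial σ ℂ) : dir v (tra w p) = tra w (dir v p) := by
  induction p using MvPolynomial.induction_on with
  | C a =>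
    have : tra w (C a) = C a := by
      unfold tra
      rw [aeval_C]
      rfl
    rw [this, dir_C, map_zero]
  | add p q hp hq => simp only [map_add, hp, hq]
  | mul_X p s hp =>
    have h1 : tra w (X s) = X s + C (w s) := by
      unfold tra
      rw [aeval_X]
    have h2 : tra w (C (v s)) = C (v s) := by
      unfold tra
      rw [aeval_C]
      rfl
    rw [map_mul, Derivation.leibniz, Derivation.leibniz, hp, h1, dir_X, map_add, dir_X, dir_C,
      smul_eq_mul, smul_eq_mul, smul_eq_mul, smul_eq_mul, map_add, map_mul, map_mul, h1, h2]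
    ring

/-- Iterated directional derivatives. -/
noncomputable def dirs : List (σ → ℂ) → (MvPolynomial σ ℂ →ₗ[ℂ] MvPolynomial σ ℂ)
  | [] => LinearMap.id
  | w :: ws => dirs ws ∘ₗ (dir w : MvPolynomial σ ℂ →ₗ[ℂ] MvPolynomial σ ℂ)

theorem dirs_nil (p : MvPolynomial σ ℂ) : dirs [] p = p := rfl

theorem dirs_cons (w : σ → ℂ) (ws : List (σ → ℂ)) (p : MvPolynomial σ ℂ) :
    dirs (w :: ws) p = dirs ws (dir w p) := rfl

/-- Iterated differences. -/
noncomputable def diffs : List (σ → ℂ) → MvPolynomial σ ℂ → MvPolynomial σ ℂ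
  | [], p => p
  | w :: ws, p => diffs ws p - tra w (diffs ws p)

theorem dir_diffs (v : σ → ℂ) (ws : List (σ → ℂ)) (p : MvPolynomial σ ℂ) :
    dir v (diffs ws p) = diffs ws (dir v p) := by
  induction ws with
  | nil => rfl
  | cons w ws ih =>
    simp only [diffs, map_sub, dir_tra, ih]

theorem diffs_eq_zero (ws : List (σ → ℂ)) : ∀ p : MvPolynomial σ ℂ, dirs ws p = 0 →
    diffs ws p = 0 := by
  induction ws with
  | nil => intro p h; exact h
  | cons w ws ih =>
    intro p h
    rw [dirs_cons] at h
    have h1 := ih _ h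
    rw [← dir_diffs] at h1
    simp only [diffs]
    rw [tra_eq_of_dir_eq_zero h1, sub_self]

theorem eval_diffs {m : ℕ} (w : Fin m → σ → ℂ) (p : MvPolynomial σ ℂ) :
    ∀ x : σ → ℂ, eval x (diffs (List.ofFn w) p) =
      ∑ g : Fin m → Bool, sgn g * eval (x + ∑ j, if g j then w j else 0) p := by
  induction m with
  | zero =>
    intro x
    simp [diffs, sgn]
  | succ m ih =>
    intro x
    rw [List.ofFn_succ]
    simp only [diffs, map_sub, eval_tra, ih]
    rw [← (Fin.consEquiv fun _ : Fin (m + 1) => Bool).sum_comp, Fintype.sum_prod_type]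
    simp only [Fintype.sum_bool, Fin.consEquiv_apply]
    have hs : ∀ (b : Bool) (g : Fin m → Bool),
        sgn (Fin.cons b g : Fin (m + 1) → Bool) = (if b then -1 else 1) * sgn g := by
      intro b g
      simp only [sgn, Fin.prod_univ_succ, Fin.cons_zero, Fin.cons_succ]
    have hp : ∀ (b : Bool) (g : Fin m → Bool),
        (x + ∑ j : Fin (m + 1), if (Fin.cons b g : Fin (m + 1) → Bool) j then w j else 0) =
          (x + if b then w 0 else 0) + ∑ j : Fin m, if g j then w j.succ else 0 := by
      intro b g
      rw [Fin.sum_univ_succ]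
      simp only [Fin.cons_zero, Fin.cons_succ]
      rw [← add_assoc]
    rw [sub_eq_add_neg, add_comm, ← Finset.sum_neg_distrib]
    congr 1
    · refine Finset.sum_congr rfl fun g _ => ?_
      refine Eq.trans ?_ (congrArg₂ (fun a b => a * eval b p) (hs true g) (hp true g)).symm
      simp
    · refine Finset.sum_congr rfl fun g _ => ?_
      refine Eq.trans ?_ (congrArg₂ (fun a b => a * eval b p) (hs false g) (hp false g)).symm
      simp

/-- Iterated derivatives are determined by the values in the plane through the point. -/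
theorem eval_dirs_congr {m : ℕ} (w w' : Fin m → σ → ℂ) :
    ∀ (p p' : MvPolynomial σ ℂ) (x x' : σ → ℂ),
      (∀ t : Fin m → ℂ, eval (x + ∑ j, t j • w j) p = eval (x' + ∑ j, t j • w' j) p') →
      eval x (dirs (List.ofFn w) p) = eval x' (dirs (List.ofFn w') p') := by
  induction m with
  | zero =>
    intro p p' x x' h
    have := h (fun _ => 0)
    simpa [dirs_nil] using this
  | succ m ih =>
    intro p p' x x' h
    rw [List.ofFn_succ, List.ofFn_succ, dirs_cons, dirs_cons]
    apply ih
    intro t
    have hl : line (x + ∑ j : Fin m, t j • w j.succ) (w 0) p =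
        line (x' + ∑ j : Fin m, t j • w' j.succ) (w' 0) p' := by
      apply Polynomial.funext
      intro s
      rw [eval_line, eval_line]
      have h1 := h (Fin.cons s t)
      simp only [Fin.sum_univ_succ, Fin.cons_zero, Fin.cons_succ] at h1
      have h2 : ∀ (a b c : σ → ℂ), a + c + b = a + (b + c) := fun a b c => by abel
      rw [h2, h2]
      exact h1
    have h3 := congrArg Polynomial.derivative hl
    rw [derivative_line, derivative_line] at h3
    have h4 := congrArg (Polynomial.eval 0) h3
    rw [eval_line, eval_line, zero_smul, zero_smul, add_zero, add_zero] at h4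
    exact h4

theorem dir_smul (c : ℂ) (w : σ → ℂ) (p : MvPolynomial σ ℂ) : dir (c • w) p = c • dir w p := by
  induction p using MvPolynomial.induction_on with
  | C a => rw [dir_C, dir_C, smul_zero]
  | add p q hp hq => rw [map_add, map_add, hp, hq, smul_add]
  | mul_X p s hp =>
    rw [Derivation.leibniz, Derivation.leibniz, hp, dir_X, dir_X]
    simp only [smul_eq_mul, Pi.smul_apply, smul_add, map_mul, mul_smul_comm, ← smul_eq_C_mul]

theorem dirs_smul {m : ℕ} (c : Fin m → ℂ) (w : Fin m → σ → ℂ) : ∀ (p : MvPolynomial σ ℂ),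
    dirs (List.ofFn fun j => c j • w j) p = (∏ j, c j) • dirs (List.ofFn w) p := by
  induction m with
  | zero => intro p; simp [dirs_nil]
  | succ m ih =>
    intro p
    rw [List.ofFn_succ, List.ofFn_succ, dirs_cons, dirs_cons, dir_smul, map_smul, ih,
      Fin.prod_univ_succ, mul_smul]

end Pool.Agent.Lib.MP_00289a_lc_h78
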