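import Pool.Agent.Lib.MP_00289a_lc_h78.ChowDefs
import Pool.Agent.Lib.MP_00289a_lc_h78.Deriv
import Pool.Agent.Lib.MP_00289a_lc_h67.Restrict

open MvPolynomial Filter Topology

namespace Pool.Agent.Lib.MP_00289a_lc_h78

open Pool.Agent.Lib.MP_00289a_lc_h67

variable {σ : Type} [Fintype σ]

theorem IsSumOfProducts.isHomogeneous {d r : ℕ} {f : MvPolynomial σ ℂ}
    (h : IsSumOfProducts d r f) : f.IsHomogeneous d := by
  obtain ⟨a, rfl⟩ := h
  refine IsHomogeneous.sum _ _ _ fun i _ => ?_
  have := IsHomogeneous.prod (Finset.univ : Finset (Fin d)) (fun j => linForm (a i j))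
    (fun _ => 1) (fun j _ => isHomogeneous_linForm (a i j))
  simpa using this

theorem chowRank_le {d r : ℕ} {f : MvPolynomial σ ℂ} (h : IsSumOfProducts d r f) :
    chowRank d f ≤ r := iInf₂_le r h

theorem exists_of_chowRank_le {d r : ℕ} {f : MvPolynomial σ ℂ} (h : chowRank d f ≤ r) :
    ∃ r' ≤ r, IsSumOfProducts d r' f := by
  by_contra hcon
  push Not at hcon
  have h1 : ((r + 1 : ℕ) : ℕ∞) ≤ chowRank d f := by
    refine le_iInf₂ fun r' hr' => ?_
    have : ¬ r' ≤ r := fun h' => hcon r' h' hr'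
    exact_mod_cast (by omega : r + 1 ≤ r')
  have h2 := h1.trans h
  have h3 : r + 1 ≤ r := by exact_mod_cast h2
  omega

theorem isSumOfProducts_of_powers {d r : ℕ} {f : MvPolynomial σ ℂ} (h : IsSumOfPowers d r f) :
    IsSumOfProducts d r f := by
  obtain ⟨a, rfl⟩ := h
  exact ⟨fun i _ => a i, by simp⟩

theorem chowRank_le_waringRank (d : ℕ) (f : MvPolynomial σ ℂ) : chowRank d f ≤ waringRank d f :=
  le_iInf₂ fun _ h => chowRank_le (isSumOfProducts_of_powers h)

/-- The data given by a bound on the border Chow rank. -/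
theorem exists_of_borderChowRank_le {d r : ℕ} {f : MvPolynomial σ ℂ}
    (h : borderChowRank d f ≤ r) :
    ∃ g : ℕ → MvPolynomial σ ℂ, (∀ k, ∃ r' ≤ r, IsSumOfProducts d r' (g k)) ∧
      ∀ α, Tendsto (fun k => coeff α (g k)) atTop (𝓝 (coeff α f)) := by
  by_contra hcon
  have h1 : ((r + 1 : ℕ) : ℕ∞) ≤ borderChowRank d f := by
    refine le_iInf₂ fun r' hr' => ?_
    have : ¬ r' ≤ r := by
      intro h'
      apply hcon
      obtain ⟨g, hg, hlim⟩ := hr'
      refine ⟨g, fun k => ?_, hlim⟩
      obtain ⟨r'', hr'', h3⟩ := exists_of_chowRank_le (hg k).2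
      exact ⟨r'', hr''.trans h', h3⟩
    exact_mod_cast (by omega : r + 1 ≤ r')
  have h2 := h1.trans h
  have h3 : r + 1 ≤ r := by exact_mod_cast h2
  omega

theorem isHomogeneous_of_borderChow {d r : ℕ} {f : MvPolynomial σ ℂ}
    (h : borderChowRank d f ≤ r) : f.IsHomogeneous d := by
  obtain ⟨g, hg, hlim⟩ := exists_of_borderChowRank_le h
  refine isHomogeneous_of_tendsto (fun k => ?_) hlim
  obtain ⟨r', -, h⟩ := hg k
  exact h.isHomogeneous

/-- The rank argument for products of linear forms. -/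
theorem det_eq_zero_of_borderChow {U K : Type} [Fintype U] [DecidableEq U] [Fintype K] {d r : ℕ}
    {f : MvPolynomial σ ℂ} (hb : borderChowRank d f ≤ r)
    (M : MvPolynomial σ ℂ →ₗ[ℂ] Matrix U U ℂ)
    (hM : ∀ a : Fin d → σ → ℂ, ∃ (P : Matrix U K ℂ) (Q : Matrix K U ℂ),
      M (∏ j, linForm (a j)) = P * Q)
    (hcard : r * Fintype.card K < Fintype.card U) : (M f).det = 0 := by
  obtain ⟨g, hg, hlim⟩ := exists_of_borderChowRank_le hb
  have hhom : ∀ k, (g k).IsHomogeneous d := fun k => by
    obtain ⟨r', -, h⟩ := hg k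
    exact h.isHomogeneous
  have hfhom := isHomogeneous_of_tendsto hhom hlim
  have hdet : ∀ k, (M (g k)).det = 0 := by
    intro k
    obtain ⟨r', hr', a, ha⟩ := hg k
    choose P Q hPQ using hM
    have h1 : M (g k) = (Matrix.of fun u (j : Fin r' × K) => P (a j.1) u j.2) *
        (Matrix.of fun (j : Fin r' × K) u => Q (a j.1) j.2 u) := by
      rw [ha, map_sum]
      ext u v
      simp only [Matrix.mul_apply, Matrix.of_apply, Matrix.sum_apply, hPQ, Fintype.sum_prod_type]
    rw [h1]
    apply det_mul_eq_zero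
    rw [Fintype.card_prod, Fintype.card_fin]
    exact (Nat.mul_le_mul_right _ hr').trans_lt hcard
  have hentry : ∀ u v, Tendsto (fun k => M (g k) u v) atTop (𝓝 (M f u v)) := by
    intro u v
    exact tendsto_linear M (LinearMap.proj v ∘ₗ LinearMap.proj u : Matrix U U ℂ →ₗ[ℂ] ℂ) hhom
      hfhom hlim
  have hmat : Tendsto (fun k => M (g k)) atTop (𝓝 (M f)) := by
    refine tendsto_pi_nhds.2 fun u => tendsto_pi_nhds.2 fun v => hentry u v
  have hd : Tendsto (fun k => (M (g k)).det) atTop (𝓝 (M f).det) :=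
    ((Continuous.matrix_det continuous_id).tendsto (M f)).comp hmat
  simp only [hdet] at hd
  exact (tendsto_nhds_unique hd tendsto_const_nhds)

theorem isSumOfProducts_restrict (Z : Set σ) {d r : ℕ} {f : MvPolynomial σ ℂ}
    (h : IsSumOfProducts d r f) : IsSumOfProducts d r (restrict Z f) := by
  classical
  obtain ⟨a, rfl⟩ := h
  refine ⟨fun i j s => if s ∈ Z then 0 else a i j s, ?_⟩
  unfold restrict
  rw [map_sum]
  refine Finset.sum_congr rfl fun i _ => ?_
  rw [map_prod]
  refine Finset.prod_congr rfl fun j _ => ?_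
  unfold linForm
  rw [map_sum]
  refine Finset.sum_congr rfl fun s _ => ?_
  rw [map_smul, bind₁_X_right]
  by_cases hs : s ∈ Z
  · simp [hs]
  · simp [hs]

theorem borderChow_restrict (Z : Set σ) {d r : ℕ} {f : MvPolynomial σ ℂ}
    (h : borderChowRank d f ≤ r) : borderChowRank d (restrict Z f) ≤ r := by
  classical
  obtain ⟨g, hg, hlim⟩ := exists_of_borderChowRank_le h
  refine iInf₂_le r ⟨fun k => restrict Z (g k), fun k => ?_, fun α => ?_⟩
  · obtain ⟨r', hr', h1⟩ := hg k
    have h2 := isSumOfProducts_restrict Z h1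
    exact ⟨h2.isHomogeneous, (chowRank_le h2).trans (by exact_mod_cast hr')⟩
  · simp only [coeff_restrict]
    split_ifs
    · exact hlim α
    · exact tendsto_const_nhds

/-- In degree zero the border Chow rank bounds the border Waring rank. -/
theorem borderWaringRank_zero_le {r : ℕ} {f : MvPolynomial σ ℂ} (h : borderChowRank 0 f ≤ r) :
    borderWaringRank 0 f ≤ r := by
  obtain ⟨g, hg, hlim⟩ := exists_of_borderChowRank_le h
  refine iInf₂_le r ⟨g, fun k => ?_, hlim⟩
  obtain ⟨r', hr', a, ha⟩ := hg k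
  have h1 : IsSumOfPowers 0 r' (g k) := ⟨fun _ _ => 0, by rw [ha]; simp⟩
  exact ⟨h1.isHomogeneous, (waringRank_le h1).trans (by exact_mod_cast hr')⟩

theorem dir_linForm (w a : σ → ℂ) : dir w (linForm a) = C (∑ s, a s * w s) := by
  unfold linForm
  rw [map_sum, map_sum]
  refine Finset.sum_congr rfl fun s _ => ?_
  rw [Derivation.map_smul, dir_X, smul_eq_C_mul, ← map_mul]

/-- Derivatives of products of linear forms. -/
theorem dir_prod_mem {d : ℕ} (a : Fin d → σ → ℂ) (w : σ → ℂ) (T : Finset (Fin d)) :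
    dir w (∏ i ∈ T, linForm (a i)) ∈ Submodule.span ℂ
      {p | ∃ J : Finset (Fin d), J ⊆ T ∧ J.card + 1 = T.card ∧ p = ∏ i ∈ J, linForm (a i)} := by
  classical
  induction T using Finset.induction_on with
  | empty =>
    rw [Finset.prod_empty, Derivation.map_one_eq_zero]
    exact Submodule.zero_mem _
  | insert i T hi ih =>
    rw [Finset.prod_insert hi, Derivation.leibniz, dir_linForm]
    refine Submodule.add_mem _ ?_ ?_
    · rw [smul_eq_mul]
      have h1 : ∀ q ∈ Submodule.span ℂ {p | ∃ J : Finset (Fin d), J ⊆ T ∧ J.card + 1 = T.card ∧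
          p = ∏ i ∈ J, linForm (a i)}, linForm (a i) * q ∈ Submodule.span ℂ
          {p | ∃ J : Finset (Fin d), J ⊆ insert i T ∧ J.card + 1 = (insert i T).card ∧
            p = ∏ i ∈ J, linForm (a i)} := by
        intro q hq
        induction hq using Submodule.span_induction with
        | mem q hq =>
          obtain ⟨J, hJ, hc, rfl⟩ := hq
          have hiJ : i ∉ J := fun h => hi (hJ h)
          refine Submodule.subset_span ⟨insert i J, Finset.insert_subset_insert _ hJ, ?_, ?_⟩
          · rw [Finset.card_insert_of_notMem hiJ, Finset.card_insert_of_notMem hi, hc]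
          · rw [Finset.prod_insert hiJ]
        | zero => rw [mul_zero]; exact Submodule.zero_mem _
        | add x y _ _ hx hy => rw [mul_add]; exact Submodule.add_mem _ hx hy
        | smul c x _ hx => rw [mul_smul_comm]; exact Submodule.smul_mem _ _ hx
      exact h1 _ ih
    · rw [smul_eq_mul, mul_comm, ← smul_eq_C_mul]
      refine Submodule.smul_mem _ _ (Submodule.subset_span ⟨T, Finset.subset_insert _ _, ?_, rfl⟩)
      rw [Finset.card_insert_of_notMem hi]

theorem dirs_prod_mem {d : ℕ} (a : Fin d → σ → ℂ) (ws : List (σ → ℂ)) : ∀ T : Finset (Fin d),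
    dirs ws (∏ i ∈ T, linForm (a i)) ∈ Submodule.span ℂ
      {p | ∃ J : Finset (Fin d), J.card + ws.length = T.card ∧ p = ∏ i ∈ J, linForm (a i)} := by
  induction ws with
  | nil =>
    intro T
    exact Submodule.subset_span ⟨T, rfl, rfl⟩
  | cons w ws ih =>
    intro T
    rw [dirs_cons]
    have h1 := dir_prod_mem a w T
    generalize dir w (∏ i ∈ T, linForm (a i)) = q at h1
    induction h1 using Submodule.span_induction with
    | mem q hq =>
      obtain ⟨J, -, hc, rfl⟩ := hq
      refine Submodule.span_mono ?_ (ih J)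
      rintro p ⟨J', hJ', rfl⟩
      exact ⟨J', by rw [List.length_cons]; omega, rfl⟩
    | zero => rw [map_zero]; exact Submodule.zero_mem _
    | add x y _ _ hx hy => rw [map_add]; exact Submodule.add_mem _ hx hy
    | smul c x _ hx => rw [map_smul]; exact Submodule.smul_mem _ _ hx

/-- The sets of `d - m` factors. -/
abbrev Fac (d m : ℕ) : Type := {J : Finset (Fin d) // J.card + m = d}

theorem card_fac (d m : ℕ) : Fintype.card (Fac d m) = d.choose m := by
  classical
  by_cases h : m ≤ d
  · have h1 : Fintype.card (Fac d m) = Fintype.card {J : Finset (Fin d) // J.card = d - m} := by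
      apply Fintype.card_congr
      exact Equiv.subtypeEquivRight fun J => by omega
    rw [h1, Fintype.card_finset_len, Fintype.card_fin, Nat.choose_symm h]
  · rw [Nat.choose_eq_zero_of_lt (by omega), Fintype.card_eq_zero_iff]
    exact ⟨fun J => by have := J.2; omega⟩

theorem dirs_prod_eq {d m : ℕ} (a : Fin d → σ → ℂ) (w : Fin m → σ → ℂ) :
    ∃ c : Fac d m → ℂ, dirs (List.ofFn w) (∏ i, linForm (a i)) =
      ∑ J : Fac d m, c J • ∏ i ∈ J.1, linForm (a i) := by
  have h1 := dirs_prod_mem a (List.ofFn w) Finset.univ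
  have h2 : {p | ∃ J : Finset (Fin d), J.card + (List.ofFn w).length = (Finset.univ : Finset (Fin d)).card ∧
      p = ∏ i ∈ J, linForm (a i)} = Set.range fun J : Fac d m => ∏ i ∈ J.1, linForm (a i) := by
    ext p
    simp only [List.length_ofFn, Finset.card_univ, Fintype.card_fin, Set.mem_ofPred_eq, Set.mem_range]
    constructor
    · rintro ⟨J, hJ, rfl⟩
      exact ⟨⟨J, hJ⟩, rfl⟩
    · rintro ⟨J, rfl⟩
      exact ⟨J.1, J.2, rfl⟩
  rw [h2] at h1
  obtain ⟨c, hc⟩ := (Submodule.mem_span_range_iff_exists_fun ℂ).1 h1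
  exact ⟨c, hc.symm⟩

end Pool.Agent.Lib.MP_00289a_lc_h78
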