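import Pool.Agent.Lib.MP_00289a_lc_h78.SuppDefs
import Pool.Agent.Lib.MP_00289a_lc_h67.BlockDefs

/-!
# Examples of actions with small supports

Block permutations (the case of `Pool.Agent.Lib.MP_00289a_lc_h67.BlockDefs`), tuples and subsets.
-/

open MvPolynomial

namespace Pool.Agent.Lib.MP_00289a_lc_h78

open Pool.Agent.Lib.MP_00289a_lc_h67

/-- The action by permutations of blocks. -/
def blockAct {σ : Type} {G q : ℕ} {N : Fin G → ℕ} (e : σ ≃ Σ g : Fin G, Fin (N g) × Fin q) :
    (∀ g, Equiv.Perm (Fin (N g))) →* Equiv.Perm σ where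
  toFun π := permBlocks e π
  map_one' := by
    ext s
    simp [permBlocks]
  map_mul' π π' := by
    ext s
    simp [permBlocks]
    rfl

theorem blockAct_small {σ : Type} [Fintype σ] {G q : ℕ} {N : Fin G → ℕ}
    (e : σ ≃ Σ g : Fin G, Fin (N g) × Fin q) : SmallSupports (blockAct e) 1 (G * q) where
  supports s := by
    classical
    refine ⟨fun g => if h : g = (e s).1 then {h ▸ (e s).2.1} else ∅, fun g => ?_, fun π hπ => ?_⟩
    · dsimp only
      split_ifs <;> simp
    · have h1 := hπ (e s).1 (e s).2.1 (by simp)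
      change permBlocks e π s = s
      unfold permBlocks
      simp only [Equiv.trans_apply]
      rw [Equiv.symm_apply_eq]
      rcases hes : e s with ⟨g, i, κ⟩
      rw [hes] at h1
      simp only [Equiv.sigmaCongrRight_apply]
      change (⟨g, (π g i, κ)⟩ : Σ g : Fin G, Fin (N g) × Fin q) = ⟨g, (i, κ)⟩
      rw [h1]
  orbits := by
    classical
    let T : Finset σ := Finset.univ.filter fun s => ((e s).2.1 : ℕ) = 0
    refine ⟨T, ?_, ?_⟩
    · have h1 : T.card ≤ Fintype.card (Fin G × Fin q) := by
        refine (Finset.card_le_card_of_injOn (t := Finset.univ)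
          (fun s => ((e s).1, (e s).2.2)) (fun _ _ => Finset.mem_univ _) ?_).trans
          (by rw [Finset.card_univ])
        intro s hs s' hs' h
        have hs0 : ((e s).2.1 : ℕ) = 0 := (Finset.mem_filter.1 hs).2
        have hs0' : ((e s').2.1 : ℕ) = 0 := (Finset.mem_filter.1 hs').2
        apply e.injective
        rcases hes : e s with ⟨g, i, κ⟩
        rcases hes' : e s' with ⟨g', i', κ'⟩
        have h' : ((e s).1, (e s).2.2) = ((e s').1, (e s').2.2) := h
        rw [hes, hes', Prod.mk.injEq] at h'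
        obtain ⟨h1, h2⟩ := h'
        change g = g' at h1
        change κ = κ' at h2
        subst h1
        subst h2
        rw [hes] at hs0
        rw [hes'] at hs0'
        change (i : ℕ) = 0 at hs0
        change (i' : ℕ) = 0 at hs0'
        have : i = i' := Fin.ext (by omega)
        rw [this]
      simpa using h1
    · intro s
      rcases hes : e s with ⟨g, i, κ⟩
      have hN : 0 < N g := lt_of_le_of_lt (Nat.zero_le _) i.2
      let i₀ : Fin (N g) := ⟨0, hN⟩
      refine ⟨e.symm ⟨g, (i₀, κ)⟩, Finset.mem_filter.2 ⟨Finset.mem_univ _, by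
        rw [Equiv.apply_symm_apply]⟩, Pi.mulSingle g (Equiv.swap i₀ i), ?_⟩
      change permBlocks e _ _ = s
      unfold permBlocks
      simp only [Equiv.trans_apply, Equiv.apply_symm_apply]
      rw [Equiv.symm_apply_eq, hes]
      change (⟨g, ((Pi.mulSingle g (Equiv.swap i₀ i) : ∀ g, Equiv.Perm (Fin (N g))) g i₀, κ)⟩ :
        Σ g : Fin G, Fin (N g) × Fin q) = ⟨g, (i, κ)⟩
      rw [Pi.mulSingle_eq_same, Equiv.swap_apply_left]

theorem blockAct_invariant {σ : Type} {G q : ℕ} {N : Fin G → ℕ}
    (e : σ ≃ Σ g : Fin G, Fin (N g) × Fin q) (f : MvPolynomial σ ℂ) :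
    IsInvariant (blockAct e) f ↔ BlockSymmetric e f := Iff.rfl

end Pool.Agent.Lib.MP_00289a_lc_h78
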