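import Pool.Agent.Lib.MP_00289a_lc_h78.Supp8
import Pool.Agent.Lib.MP_00289a_lc_h78.ChowMain

open MvPolynomial Filter Topology

namespace Pool.Agent.Lib.MP_00289a_lc_h78

open Pool.Agent.Lib.MP_00289a_lc_h67

theorem chow_mono {M d r s s' : ℕ} (h : r * d.choose s < M.choose s) (hs : s ≤ s') (hM : s' ≤ M) :
    r * d.choose s' < M.choose s' := by
  induction s', hs using Nat.le_induction with
  | base => exact h
  | succ a ha ih =>
    have h1 := ih (by omega)
    have e1 := Nat.choose_succ_right_eq M a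
    have e2 := Nat.choose_succ_right_eq d a
    rcases Nat.lt_or_ge M d with hd | hd
    · have h2 : M.choose a ≤ d.choose a := Nat.choose_le_choose a hd.le
      have h3 : r = 0 := by
        by_contra hr
        have : 1 * d.choose a ≤ r * d.choose a := Nat.mul_le_mul_right _ (by omega)
        omega
      rw [h3, zero_mul]
      exact Nat.choose_pos hM
    · have h2 : r * d.choose (a + 1) * (a + 1) < M.choose (a + 1) * (a + 1) := by
        calc r * d.choose (a + 1) * (a + 1) = r * (d.choose (a + 1) * (a + 1)) := by ring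
          _ = r * d.choose a * (d - a) := by rw [e2]; ring
          _ ≤ r * d.choose a * (M - a) := Nat.mul_le_mul_left _ (by omega)
          _ < M.choose a * (M - a) := Nat.mul_lt_mul_of_pos_right h1 (by omega)
          _ = M.choose (a + 1) * (a + 1) := e1.symm
      exact Nat.lt_of_mul_lt_mul_right h2

variable {σ : Type} [Fintype σ] {G : ℕ} {N : Fin G → ℕ}

/-- The common part of the explicit bounds. -/
theorem isSumOfPowers_small {ρ : (∀ g, Equiv.Perm (Fin (N g))) →* Equiv.Perm σ} {k t : ℕ}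
    (h : SmallSupports ρ k t) {f : MvPolynomial σ ℂ} (hf : IsInvariant ρ f) {d s : ℕ} (hd : d ≠ 0)
    (hhom : f.IsHomogeneous d) {R : ℕ → ℕ} (hR : ∀ Z, DerivBound (restrict Z f) R)
    (hk : 1 ≤ k) (hs : 1 ≤ s)
    (hN : ∀ g, N g < 4 * k * (2 * k + 1) * s ∨
      ∀ s', s ≤ s' → s' + s ≤ N g / 2 → R s' < (N g / 2).choose s') :
    IsSumOfPowers d ((8 * k ^ 2 * Fintype.card σ + 2) ^ ((2 * k * s - 1) * G) *
      (d + 1) ^ (t * (4 * k * (2 * k + 1) * s) ^ (2 * k * G))) f := by
  obtain ⟨t', ht', A, hA⟩ := h.exists_suppAction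
  have hks : 1 ≤ k * s := Nat.mul_pos hk hs
  have hkk : 1 * (k * s) ≤ k * (k * s) := Nat.mul_le_mul_right _ hk
  have e1 : 4 * k * (2 * k + 1) * s = 8 * (k * (k * s)) + 4 * (k * s) := by ring
  have hsk : 1 * s ≤ k * s := Nat.mul_le_mul_right _ hk
  have hkks : k * 1 ≤ k * s := Nat.mul_le_mul_left _ hs
  have key := A.isSumOfPowers_supp (f := f) (by rw [hA]; exact hf) (d := d) (m := 2 * k * s)
    (L := 4 * k * (2 * k + 1) * s) hd hhom hR (by rw [mul_assoc]; omega) (by omega)
    (by rw [mul_assoc 2 k s]; omega)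
    (by
      intro g
      rcases hN g with h1 | h1
      · left; omega
      · by_cases hlt : N g < 4 * k * (2 * k + 1) * s
        · left; omega
        · right
          have e2 : (2 * k + 1) * (2 * k * s) = 4 * (k * (k * s)) + 2 * (k * s) := by ring
          refine ⟨by omega, fun s' hs' hs'' => h1 s' ?_ ?_⟩
          · rw [mul_assoc, mul_assoc] at hs'
            have := Nat.le_of_mul_le_mul_left hs' (by norm_num)
            exact Nat.le_of_mul_le_mul_left this hk
          · rw [mul_assoc] at hs''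
            omega)
  have e3 : (2 * (2 * k * (2 * k * Fintype.card σ) + 1)) = 8 * k ^ 2 * Fintype.card σ + 2 := by ring
  rw [e3, ← pow_mul, ← pow_mul] at key
  refine key.mono hd ?_
  apply Nat.mul_le_mul_left
  exact Nat.pow_le_pow_right (by omega) (Nat.mul_le_mul_right _ ht')

/-- **Explicit bound for the border Chow rank.** -/
theorem isSumOfPowers_small_chow {ρ : (∀ g, Equiv.Perm (Fin (N g))) →* Equiv.Perm σ} {k t : ℕ}
    (h : SmallSupports ρ k t) {f : MvPolynomial σ ℂ} (hf : IsInvariant ρ f) {d r s : ℕ}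
    (hd : d ≠ 0) (hb : borderChowRank d f ≤ r) (hk : 1 ≤ k) (hs : 1 ≤ s)
    (hN : ∀ g, N g < 4 * k * (2 * k + 1) * s ∨ r * d.choose s < (N g / 2).choose s) :
    IsSumOfPowers d ((8 * k ^ 2 * Fintype.card σ + 2) ^ ((2 * k * s - 1) * G) *
      (d + 1) ^ (t * (4 * k * (2 * k + 1) * s) ^ (2 * k * G))) f := by
  refine isSumOfPowers_small h hf hd (isHomogeneous_of_borderChow hb)
    (fun Z => derivBound_chow (borderChow_restrict Z hb)) hk hs (fun g => ?_)
  rcases hN g with h1 | h1
  · exact Or.inl h1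
  · exact Or.inr fun s' hs' hs'' => chow_mono h1 hs' (by omega)

/-- **Explicit bound for the border Waring rank.** -/
theorem isSumOfPowers_small_waring {ρ : (∀ g, Equiv.Perm (Fin (N g))) →* Equiv.Perm σ} {k t : ℕ}
    (h : SmallSupports ρ k t) {f : MvPolynomial σ ℂ} (hf : IsInvariant ρ f) {d r s : ℕ}
    (hd : d ≠ 0) (hb : borderWaringRank d f ≤ r) (hk : 1 ≤ k) (hs : 1 ≤ s)
    (hN : ∀ g, N g < 4 * k * (2 * k + 1) * s ∨ r < (N g / 2).choose s) :
    IsSumOfPowers d ((8 * k ^ 2 * Fintype.card σ + 2) ^ ((2 * k * s - 1) * G) *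
      (d + 1) ^ (t * (4 * k * (2 * k + 1) * s) ^ (2 * k * G))) f := by
  refine isSumOfPowers_small h hf hd (isHomogeneous_of_border hb)
    (fun Z => derivBound_waring (border_restrict Z hb)) hk hs (fun g => ?_)
  rcases hN g with h1 | h1
  · exact Or.inl h1
  · exact Or.inr fun s' hs' hs'' => h1.trans_le (choose_mono_range hs' hs'')

theorem vwaring_of_bound (F : PFamily) (a b c s0 C0 : ℕ)
    (h : ∀ᶠ n in atTop, F.deg n ≠ 0 → IsSumOfPowers (F.deg n)
      ((c * Fintype.card (F.Var n) + 2) ^ a * (F.deg n + 1) ^ b) (F.form n))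
    (h0 : ∀ᶠ n in atTop, F.deg n = 0 →
      waringRank (F.deg n) (F.form n) ≤ ((C0 * n ^ s0 : ℕ) : ℕ∞)) : VWaring F := by
  obtain ⟨s1, h1⟩ := F.bounded
  refine ⟨s0 + s1 * (a + b), C0 + (c * (s1 + 1) + 2) ^ a * (s1 + 2) ^ b, ?_⟩
  filter_upwards [h, h0, eventually_ge_atTop 1] with n hn hn0 hn1
  obtain ⟨hcard, hdeg⟩ := h1 n
  have hpow : ∀ a b : ℕ, a ≤ b → n ^ a ≤ n ^ b := fun a b hab => Nat.pow_le_pow_right hn1 hab
  by_cases hd : F.deg n = 0
  · refine (hn0 hd).trans ?_
    have : C0 * n ^ s0 ≤ (C0 + (c * (s1 + 1) + 2) ^ a * (s1 + 2) ^ b) * n ^ (s0 + s1 * (a + b)) :=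
      Nat.mul_le_mul (Nat.le_add_right _ _) (hpow _ _ (Nat.le_add_right _ _))
    exact_mod_cast this
  · refine (waringRank_le (hn hd)).trans ?_
    have hp : 1 ≤ n ^ s1 := Nat.one_le_pow _ _ hn1
    have h2 : c * Fintype.card (F.Var n) + 2 ≤ (c * (s1 + 1) + 2) * n ^ s1 := by
      have h3 : Fintype.card (F.Var n) ≤ (s1 + 1) * n ^ s1 := by nlinarith
      calc c * Fintype.card (F.Var n) + 2 ≤ c * ((s1 + 1) * n ^ s1) + 2 * n ^ s1 := by
            have := Nat.mul_le_mul_left c h3
            omega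
        _ = _ := by ring
    have h3 : F.deg n + 1 ≤ (s1 + 2) * n ^ s1 := by nlinarith
    have hfin : (c * Fintype.card (F.Var n) + 2) ^ a * (F.deg n + 1) ^ b ≤
        (C0 + (c * (s1 + 1) + 2) ^ a * (s1 + 2) ^ b) * n ^ (s0 + s1 * (a + b)) := by
      calc (c * Fintype.card (F.Var n) + 2) ^ a * (F.deg n + 1) ^ b
          ≤ ((c * (s1 + 1) + 2) * n ^ s1) ^ a * ((s1 + 2) * n ^ s1) ^ b :=
            Nat.mul_le_mul (Nat.pow_le_pow_left h2 _) (Nat.pow_le_pow_left h3 _)
        _ = ((c * (s1 + 1) + 2) ^ a * (s1 + 2) ^ b) * n ^ (s1 * (a + b)) := by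
            have e : n ^ (s1 * (a + b)) = n ^ (s1 * a) * n ^ (s1 * b) := by
              rw [← pow_add, ← mul_add]
            rw [mul_pow, mul_pow, ← pow_mul, ← pow_mul, e]; ring
        _ ≤ _ := Nat.mul_le_mul (Nat.le_add_left _ _) (hpow _ _ (Nat.le_add_left _ _))
    exact_mod_cast hfin

/-- The numerical part for the Waring rank. -/
theorem choose_large_waring {K s0 C0 m N n r : ℕ} (hm : m = K * s0 + 1)
    (hn : n ≤ N ^ K) (hr : r ≤ C0 * n ^ s0)
    (hN : C0 * 4 ^ m * m.factorial + 4 * m + 1 < N) : r < (N / 2).choose m := by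
  have h1 : (N / 2 + 1 - m) ^ m ≤ (N / 2).descFactorial m := Nat.pow_sub_le_descFactorial _ _
  rw [Nat.descFactorial_eq_factorial_mul_choose] at h1
  have h2 : N ≤ 4 * (N / 2 + 1 - m) := by omega
  have h3 : N ^ m ≤ 4 ^ m * (m.factorial * (N / 2).choose m) := by
    calc N ^ m ≤ (4 * (N / 2 + 1 - m)) ^ m := Nat.pow_le_pow_left h2 m
      _ = 4 ^ m * (N / 2 + 1 - m) ^ m := by rw [mul_pow]
      _ ≤ _ := Nat.mul_le_mul_left _ h1
  have h5 : r ≤ C0 * N ^ (K * s0) := by
    calc r ≤ C0 * n ^ s0 := hr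
      _ ≤ C0 * (N ^ K) ^ s0 := Nat.mul_le_mul_left _ (Nat.pow_le_pow_left hn _)
      _ = _ := by rw [pow_mul]
  have hNpos : 0 < N := by omega
  have h6 : r * (4 ^ m * m.factorial) < N ^ m := by
    calc r * (4 ^ m * m.factorial)
        ≤ (C0 * N ^ (K * s0)) * (4 ^ m * m.factorial) := Nat.mul_le_mul_right _ h5
      _ = N ^ (K * s0) * (C0 * 4 ^ m * m.factorial) := by ring
      _ < N ^ (K * s0) * N := by
          apply Nat.mul_lt_mul_of_pos_left _ (by positivity)
          omega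
      _ = N ^ m := by rw [← pow_succ, hm]
  have h7 : r * (4 ^ m * m.factorial) < (N / 2).choose m * (4 ^ m * m.factorial) := by
    calc r * (4 ^ m * m.factorial) < N ^ m := h6
      _ ≤ 4 ^ m * (m.factorial * (N / 2).choose m) := h3
      _ = _ := by ring
  exact Nat.lt_of_mul_lt_mul_right h7

theorem vwaring_of_small_chow (F : PFamily) {G k t : ℕ} (hk : 1 ≤ k) (N : ℕ → Fin G → ℕ)
    (ρ : ∀ n, (∀ g, Equiv.Perm (Fin (N n g))) →* Equiv.Perm (F.Var n))
    (hρ : ∀ n, SmallSupports (ρ n) k t) (hf : ∀ n, IsInvariant (ρ n) (F.form n)) (K : ℕ)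
    (hN : ∀ᶠ n in atTop, ∀ g, N n g ≤ K ∨ (n ≤ N n g ^ K ∧ F.deg n ^ (K + 1) ≤ N n g ^ K))
    (hb : BorderVChow F) : VWaring F := by
  obtain ⟨s0, C0, h0⟩ := hb
  set s := (K + 1) * (K * s0 + 1) with hs
  have hsK : K + 1 ≤ s := Nat.le_mul_of_pos_right _ (by omega)
  refine vwaring_of_bound F ((2 * k * s - 1) * G) (t * (4 * k * (2 * k + 1) * s) ^ (2 * k * G))
    (8 * k ^ 2) s0 C0 ?_ ?_
  · filter_upwards [h0, hN, eventually_gt_atTop ((C0 * 4 ^ s * s.factorial + 4 * s + 1) ^ K)]
      with n hn0 hnN hnB hd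
    refine isSumOfPowers_small_chow (hρ n) (hf n) hd hn0 hk (by omega) (fun g => ?_)
    rcases hnN g with h | ⟨h, h'⟩
    · left
      calc N n g ≤ K := h
        _ < 1 * s := by omega
        _ ≤ 4 * k * (2 * k + 1) * s := by
            apply Nat.mul_le_mul_right
            exact Nat.mul_pos (by omega) (by omega)
    · right
      refine choose_large_chow hs h h' le_rfl ?_
      by_contra hcon
      push Not at hcon
      have := Nat.pow_le_pow_left hcon K
      omega
  · filter_upwards [h0] with n hn0 hd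
    rw [hd] at hn0 ⊢
    exact waringRank_zero_le (borderWaringRank_zero_le hn0)

theorem vwaring_of_small_waring (F : PFamily) {G k t : ℕ} (hk : 1 ≤ k) (N : ℕ → Fin G → ℕ)
    (ρ : ∀ n, (∀ g, Equiv.Perm (Fin (N n g))) →* Equiv.Perm (F.Var n))
    (hρ : ∀ n, SmallSupports (ρ n) k t) (hf : ∀ n, IsInvariant (ρ n) (F.form n)) (K : ℕ)
    (hN : ∀ᶠ n in atTop, ∀ g, N n g ≤ K ∨ n ≤ N n g ^ K)
    (hb : BorderVWaring F) : VWaring F := by
  obtain ⟨s0, C0, h0⟩ := hb
  set s := K * s0 + 1 with hs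
  set S := s + K + 1 with hS
  -- the order of the derivatives is `S`, and the rank condition at `s` gives the one at `S`
  refine vwaring_of_bound F ((2 * k * S - 1) * G) (t * (4 * k * (2 * k + 1) * S) ^ (2 * k * G))
    (8 * k ^ 2) s0 C0 ?_ ?_
  · filter_upwards [h0, hN, eventually_gt_atTop ((C0 * 4 ^ s * s.factorial + 4 * S + 1) ^ K)]
      with n hn0 hnN hnB hd
    refine isSumOfPowers_small_waring (hρ n) (hf n) hd hn0 hk (by omega) (fun g => ?_)
    rcases hnN g with h | h
    · left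
      calc N n g ≤ K := h
        _ < 1 * S := by omega
        _ ≤ 4 * k * (2 * k + 1) * S := by
            apply Nat.mul_le_mul_right
            exact Nat.mul_pos (by omega) (by omega)
    · right
      have hbig : C0 * 4 ^ s * s.factorial + 4 * S + 1 < N n g := by
        by_contra hcon
        push Not at hcon
        have := Nat.pow_le_pow_left hcon K
        omega
      refine (choose_large_waring hs h le_rfl (by omega)).trans_le ?_
      exact choose_mono_range (by omega) (by omega)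
  · filter_upwards [h0] with n hn0 hd
    rw [hd] at hn0 ⊢
    exact waringRank_zero_le hn0

end Pool.Agent.Lib.MP_00289a_lc_h78
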