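import Pool.Agent.Lib.MP_00289a_lc_h78.SparseDefs
import Pool.Agent.Lib.MP_00289a_lc_h78.Supp9

open MvPolynomial Filter Topology

namespace Pool.Agent.Lib.MP_00289a_lc_h78

open Pool.Agent.Lib.MP_00289a_lc_h67

variable {σ : Type}

/-- The coefficient of `y ^ β`, as a polynomial in the variables outside `Y`. -/
noncomputable def lam (Y : Set σ) (β : σ →₀ ℕ) :
    MvPolynomial σ ℂ →ₗ[ℂ] MvPolynomial {s // s ∉ Y} ℂ := by
  classical
  exact (basisMonomials σ ℂ).constr ℂ fun α =>
    if expIn Y α = β then monomial (α.subtypeDomain (· ∉ Y)) 1 else 0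

open Classical in
theorem lam_monomial (Y : Set σ) (β α : σ →₀ ℕ) (c : ℂ) :
    lam Y β (monomial α c) =
      if expIn Y α = β then monomial (α.subtypeDomain (· ∉ Y)) c else 0 := by
  have h1 : (monomial α c : MvPolynomial σ ℂ) = c • (basisMonomials σ ℂ α) := by
    rw [coe_basisMonomials, smul_monomial, smul_eq_mul, mul_one]
  rw [h1, map_smul]
  unfold lam
  rw [Module.Basis.constr_basis]
  split_ifs
  · rw [smul_monomial, smul_eq_mul, mul_one]
  · rw [smul_zero]

open Classical in
theorem expIn_apply (Y : Set σ) (α : σ →₀ ℕ) (s : σ) :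
    expIn Y α s = if s ∈ Y then α s else 0 := by
  unfold expIn
  rw [Finsupp.filter_apply]

open Classical in
theorem expOff_apply (Y : Set σ) (α : σ →₀ ℕ) (s : σ) :
    expOff Y α s = if s ∉ Y then α s else 0 := by
  unfold expOff
  rw [Finsupp.filter_apply]

theorem expIn_add_expOff (Y : Set σ) (α : σ →₀ ℕ) : expIn Y α + expOff Y α = α := by
  classical
  ext s
  rw [Finsupp.add_apply, expIn_apply, expOff_apply]
  split_ifs <;> simp_all

theorem lam_mul_X_off (Y : Set σ) {s : σ} (hs : s ∉ Y) (β : σ →₀ ℕ) (p : MvPolynomial σ ℂ) :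
    lam Y β (p * X s) = lam Y β p * X ⟨s, hs⟩ := by
  classical
  induction p using MvPolynomial.induction_on' with
  | monomial α c =>
    have h0 : (monomial α c : MvPolynomial σ ℂ) * X s = monomial (α + Finsupp.single s 1) c := by
      rw [X, monomial_mul, mul_one]
    rw [h0, lam_monomial, lam_monomial]
    have h1 : expIn Y (α + Finsupp.single s 1) = expIn Y α := by
      ext i
      rw [expIn_apply, expIn_apply]
      by_cases hi : i ∈ Y
      · have : s ≠ i := by rintro rfl; exact hs hi
        rw [if_pos hi, if_pos hi, Finsupp.add_apply, Finsupp.single_eq_of_ne' this, add_zero]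
      · rw [if_neg hi, if_neg hi]
    rw [h1]
    have h3 : (α + Finsupp.single s 1).subtypeDomain (· ∉ Y) =
        α.subtypeDomain (· ∉ Y) + Finsupp.single ⟨s, hs⟩ 1 := by
      ext i
      rw [Finsupp.add_apply, Finsupp.subtypeDomain_apply, Finsupp.subtypeDomain_apply,
        Finsupp.add_apply, Finsupp.single_apply, Finsupp.single_apply]
      congr 1
      by_cases hi : s = i
      · rw [if_pos hi, if_pos (Subtype.ext hi)]
      · rw [if_neg hi, if_neg (fun h => hi (congrArg Subtype.val h))]
    by_cases h2 : expIn Y α = β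
    · rw [if_pos h2, if_pos h2, X, monomial_mul, mul_one, h3]
    · rw [if_neg h2, if_neg h2, zero_mul]
  | add p q hp hq => rw [add_mul, map_add, map_add, add_mul, hp, hq]

open Classical in
theorem lam_mul_X_in (Y : Set σ) {s : σ} (hs : s ∈ Y) (β : σ →₀ ℕ) (p : MvPolynomial σ ℂ) :
    lam Y β (p * X s) = if β s = 0 then 0 else lam Y (β - Finsupp.single s 1) p := by
  induction p using MvPolynomial.induction_on' with
  | monomial α c =>
    have h0 : (monomial α c : MvPolynomial σ ℂ) * X s = monomial (α + Finsupp.single s 1) c := by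
      rw [X, monomial_mul, mul_one]
    rw [h0, lam_monomial, lam_monomial]
    have h1 : expIn Y (α + Finsupp.single s 1) = expIn Y α + Finsupp.single s 1 := by
      ext i
      rw [Finsupp.add_apply, expIn_apply, expIn_apply, Finsupp.add_apply]
      by_cases hi : i ∈ Y
      · rw [if_pos hi, if_pos hi]
      · have : s ≠ i := by rintro rfl; exact hi hs
        rw [if_neg hi, if_neg hi, Finsupp.single_eq_of_ne' this, add_zero]
    have h3 : (α + Finsupp.single s 1).subtypeDomain (· ∉ Y) = α.subtypeDomain (· ∉ Y) := by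
      ext i
      rw [Finsupp.subtypeDomain_apply, Finsupp.subtypeDomain_apply, Finsupp.add_apply]
      have : s ≠ i := by
        intro h
        exact i.2 (h ▸ hs)
      rw [Finsupp.single_eq_of_ne' this, add_zero]
    rw [h1, h3]
    by_cases hβ : β s = 0
    · rw [if_pos hβ, if_neg]
      intro h
      have := DFunLike.congr_fun h s
      rw [Finsupp.add_apply, Finsupp.single_eq_same, hβ] at this
      omega
    · rw [if_neg hβ]
      congr 1
      rw [eq_iff_iff]
      constructor
      · intro h
        rw [← h, add_tsub_cancel_right]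
      · intro h
        rw [h, tsub_add_cancel_of_le]
        rw [Finsupp.single_le_iff]
        omega
  | add p q hp hq =>
    rw [add_mul, map_add, hp, hq]
    split_ifs
    · rw [add_zero]
    · rw [map_add]

open Classical in
theorem lam_C (Y : Set σ) (β : σ →₀ ℕ) (a : ℂ) :
    lam Y β (C a) = if β = 0 then C a else 0 := by
  have h0 : (C a : MvPolynomial σ ℂ) = monomial 0 a := rfl
  rw [h0, lam_monomial]
  have h1 : expIn Y (0 : σ →₀ ℕ) = 0 := by
    ext i
    rw [expIn_apply]
    simp
  rw [h1]
  by_cases h : β = 0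
  · subst h
    rw [if_pos rfl, if_pos rfl]
    rfl
  · rw [if_neg h, if_neg (fun h' => h h'.symm)]

/-- extension by zero of a vector -/
noncomputable def ext0 (Y : Set σ) (w : {s // s ∉ Y} → ℂ) : σ → ℂ := by
  classical
  exact fun s => if h : s ∉ Y then w ⟨s, h⟩ else 0

theorem ext0_off (Y : Set σ) (w : {s // s ∉ Y} → ℂ) {s : σ} (hs : s ∉ Y) :
    ext0 Y w s = w ⟨s, hs⟩ := by
  unfold ext0
  rw [dif_pos hs]

theorem ext0_mem (Y : Set σ) (w : {s // s ∉ Y} → ℂ) {s : σ} (h : s ∈ Y) : ext0 Y w s = 0 := by
  unfold ext0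
  rw [dif_neg (not_not.2 h)]

theorem lam_C_mul (Y : Set σ) (β : σ →₀ ℕ) (a : ℂ) (p : MvPolynomial σ ℂ) :
    lam Y β (C a * p) = C a * lam Y β p := by
  rw [← smul_eq_C_mul, map_smul, smul_eq_C_mul]

theorem lam_dir (Y : Set σ) (w : {s // s ∉ Y} → ℂ) (p : MvPolynomial σ ℂ) : ∀ β : σ →₀ ℕ,
    lam Y β (dir (ext0 Y w) p) = dir w (lam Y β p) := by
  classical
  induction p using MvPolynomial.induction_on with
  | C a =>
    intro β
    rw [dir_C, map_zero, lam_C]
    split_ifs
    · rw [dir_C]
    · rw [map_zero]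
  | add p q hp hq => intro β; simp only [map_add, hp, hq]
  | mul_X p s hp =>
    intro β
    rw [Derivation.leibniz, dir_X, smul_eq_mul, smul_eq_mul, map_add]
    by_cases hs : s ∈ Y
    · rw [ext0_mem Y w hs, map_zero, mul_zero, map_zero, zero_add, mul_comm (X s),
        lam_mul_X_in Y hs, lam_mul_X_in Y hs]
      split_ifs
      · rw [map_zero]
      · exact hp _
    · rw [ext0_off Y w hs, mul_comm p, lam_C_mul, mul_comm (X s), lam_mul_X_off Y hs,
        lam_mul_X_off Y hs, hp, Derivation.leibniz, dir_X, smul_eq_mul, smul_eq_mul]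
      ring

theorem lam_dirs (Y : Set σ) (ws : List ({s // s ∉ Y} → ℂ)) (β : σ →₀ ℕ) :
    ∀ p : MvPolynomial σ ℂ, lam Y β (dirs (ws.map (ext0 Y)) p) = dirs ws (lam Y β p) := by
  induction ws with
  | nil => intro p; rfl
  | cons w ws ih =>
    intro p
    rw [List.map_cons, dirs_cons, dirs_cons, ih, lam_dir]

theorem derivBound_lam {f : MvPolynomial σ ℂ} {R : ℕ → ℕ} (h : DerivBound f R) (Y : Set σ)
    (β : σ →₀ ℕ) : DerivBound (lam Y β f) R := by
  intro U _ s w hw hR hli
  refine h U s (fun u => (w u).map (ext0 Y)) (fun u => by rw [List.length_map, hw]) hR ?_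
  apply LinearIndependent.of_comp (lam Y β)
  convert hli using 2 with u
  exact lam_dirs Y (w u) β f

theorem restrict_mul (Z : Set σ) (p q : MvPolynomial σ ℂ) :
    restrict Z (p * q) = restrict Z p * restrict Z q := by
  unfold restrict
  rw [map_mul]

open Classical in
theorem restrict_X (Z : Set σ) (s : σ) :
    restrict Z (X s) = if s ∈ Z then 0 else X s := by
  unfold restrict
  rw [bind₁_X_right]

theorem restrict_C (Z : Set σ) (a : ℂ) : restrict Z (C a) = C a := by
  unfold restrict
  rw [bind₁_C_right]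

theorem restrict_zero (Z : Set σ) : restrict Z (0 : MvPolynomial σ ℂ) = 0 := by
  unfold restrict
  rw [map_zero]

theorem lam_restrict (Y : Set σ) (Z : Set {s // s ∉ Y}) (p : MvPolynomial σ ℂ) :
    ∀ β : σ →₀ ℕ, lam Y β (restrict (Subtype.val '' Z) p) = restrict Z (lam Y β p) := by
  classical
  induction p using MvPolynomial.induction_on with
  | C a =>
    intro β
    rw [restrict_C, lam_C]
    split_ifs
    · rw [restrict_C]
    · rw [restrict_zero]
  | add p q hp hq => intro β; rw [restrict_add, map_add, map_add, restrict_add, hp, hq]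
  | mul_X p s hp =>
    intro β
    rw [restrict_mul, restrict_X]
    by_cases hs : s ∈ Y
    · have h1 : s ∉ Subtype.val '' Z := by
        rintro ⟨s', -, rfl⟩
        exact s'.2 hs
      rw [if_neg h1, lam_mul_X_in Y hs, lam_mul_X_in Y hs]
      split_ifs
      · rw [restrict_zero]
      · exact hp _
    · rw [lam_mul_X_off Y hs, restrict_mul, restrict_X]
      by_cases hz : s ∈ Subtype.val '' Z
      · have h2 : (⟨s, hs⟩ : {s // s ∉ Y}) ∈ Z := by
          obtain ⟨s', h', h''⟩ := hz
          have : s' = ⟨s, hs⟩ := Subtype.ext h''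
          rwa [← this]
        rw [if_pos hz, if_pos h2, mul_zero, mul_zero, map_zero]
      · have h2 : (⟨s, hs⟩ : {s // s ∉ Y}) ∉ Z := fun h => hz ⟨_, h, rfl⟩
        rw [if_neg hz, if_neg h2, lam_mul_X_off Y hs, hp]

theorem lam_rename (Y : Set σ) (e : Equiv.Perm σ) (he : ∀ s ∈ Y, e s = s)
    (e' : Equiv.Perm {s // s ∉ Y}) (he' : ∀ s, (e' s : σ) = e s) (p : MvPolynomial σ ℂ) :
    ∀ β : σ →₀ ℕ, lam Y β (rename e p) = rename e' (lam Y β p) := by
  classical
  induction p using MvPolynomial.induction_on with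
  | C a =>
    intro β
    rw [rename_C, lam_C]
    split_ifs
    · rw [rename_C]
    · rw [map_zero]
  | add p q hp hq => intro β; simp only [map_add, hp, hq]
  | mul_X p s hp =>
    intro β
    rw [map_mul, rename_X]
    by_cases hs : s ∈ Y
    · rw [he s hs, lam_mul_X_in Y hs, lam_mul_X_in Y hs]
      split_ifs
      · rw [map_zero]
      · exact hp _
    · have h1 : e s ∉ Y := by
        have := (e' ⟨s, hs⟩).2
        rwa [he'] at this
      rw [lam_mul_X_off Y h1, lam_mul_X_off Y hs, map_mul, rename_X, hp]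
      congr 2
      exact Subtype.ext (he' ⟨s, hs⟩).symm

end Pool.Agent.Lib.MP_00289a_lc_h78
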