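import Pool.Agent.Lib.MP_00289a_lc_h78.Sparse1

open MvPolynomial Filter Topology

namespace Pool.Agent.Lib.MP_00289a_lc_h78

open Pool.Agent.Lib.MP_00289a_lc_h67

variable {σ : Type}

theorem mapDomain_subtypeDomain (Y : Set σ) (α : σ →₀ ℕ) :
    Finsupp.mapDomain Subtype.val (α.subtypeDomain (· ∉ Y)) = expOff Y α := by
  classical
  ext s
  rw [expOff_apply]
  by_cases hs : s ∈ Y
  · rw [if_neg (not_not.2 hs)]
    apply Finsupp.mapDomain_of_notMem_range
    rintro ⟨s', rfl⟩
    exact s'.2 hs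
  · rw [if_pos hs]
    have := Finsupp.mapDomain_apply Subtype.val_injective (α.subtypeDomain (· ∉ Y)) ⟨s, hs⟩
    exact this

theorem coeffOff_eq (Y : Set σ) (β : σ →₀ ℕ) (f : MvPolynomial σ ℂ) :
    coeffOff Y β f = rename Subtype.val (lam Y β f) := by
  classical
  unfold coeffOff
  conv_rhs => rw [f.as_sum]
  rw [map_sum, map_sum, Finset.sum_filter]
  refine Finset.sum_congr rfl fun α _ => ?_
  rw [lam_monomial]
  split_ifs
  · rw [rename_monomial, mapDomain_subtypeDomain]
  · rw [map_zero]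

theorem eq_sum_coeffOff (Y : Set σ) (f : MvPolynomial σ ℂ) :
    f = ∑ β ∈ expsIn Y f, monomial β 1 * coeffOff Y β f := by
  classical
  have h1 : ∀ β, monomial β 1 * coeffOff Y β f =
      ∑ α ∈ f.support with expIn Y α = β, monomial α (coeff α f) := by
    intro β
    unfold coeffOff
    rw [Finset.mul_sum]
    refine Finset.sum_congr rfl fun α hα => ?_
    rw [Finset.mem_filter] at hα
    rw [monomial_mul, one_mul, ← hα.2, expIn_add_expOff]
  simp only [h1]
  conv_lhs => rw [f.as_sum]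
  unfold expsIn
  exact (Finset.sum_fiberwise_of_maps_to (fun α hα => Finset.mem_image_of_mem _ hα) _).symm

theorem isHomogeneous_lam (Y : Set σ) (β : σ →₀ ℕ) {f : MvPolynomial σ ℂ} {d : ℕ}
    (hf : f.IsHomogeneous d) : (lam Y β f).IsHomogeneous (d - β.degree) := by
  classical
  conv => arg 1; rw [f.as_sum]
  rw [map_sum]
  refine IsHomogeneous.sum _ _ _ fun α hα => ?_
  rw [lam_monomial]
  split_ifs with h
  · apply isHomogeneous_monomial
    have h1 : α.degree = d := degree_of_coeff_ne hf (mem_support_iff.1 hα)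
    have h2 : (α.subtypeDomain (· ∉ Y)).degree = (expOff Y α).degree := by
      rw [← mapDomain_subtypeDomain, Finsupp.degree_mapDomain]
    have h3 : (expIn Y α).degree + (expOff Y α).degree = α.degree := by
      rw [← map_add, expIn_add_expOff]
    rw [h2]
    rw [h] at h3
    omega
  · exact isHomogeneous_zero _ _ _

theorem degree_le_of_mem_expsIn {Y : Set σ} {β : σ →₀ ℕ} {f : MvPolynomial σ ℂ} {d : ℕ}
    (hf : f.IsHomogeneous d) (h : β ∈ expsIn Y f) : β.degree ≤ d := by
  classical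
  unfold expsIn at h
  obtain ⟨α, hα, rfl⟩ := Finset.mem_image.1 h
  have h1 : α.degree = d := degree_of_coeff_ne hf (mem_support_iff.1 hα)
  have h3 : (expIn Y α).degree + (expOff Y α).degree = α.degree := by
    rw [← map_add, expIn_add_expOff]
  omega

variable [Fintype σ]

theorem rename_linForm (Y : Set σ) [Fintype {s // s ∉ Y}] (a : {s // s ∉ Y} → ℂ) :
    rename Subtype.val (linForm a) = linForm (ext0 Y a) := by
  classical
  unfold linForm
  rw [map_sum, ← Fintype.sum_subtype_add_sum_subtype (· ∉ Y)]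
  have h2 : ∑ s : {s // ¬ (s ∉ Y)}, ext0 Y a s • (X (s : σ) : MvPolynomial σ ℂ) = 0 := by
    apply Finset.sum_eq_zero
    intro s _
    rw [ext0_mem Y a (not_not.1 s.2), zero_smul]
  rw [h2, add_zero]
  have h3 : ∀ s : {s // s ∉ Y}, rename Subtype.val (a s • X s : MvPolynomial {s // s ∉ Y} ℂ) =
      ext0 Y a s • (X (s : σ) : MvPolynomial σ ℂ) := by
    intro s
    rw [map_smul, rename_X, ext0_off Y a s.2]
  simp only [h3]
  apply Finset.sum_congr _ (fun _ _ => rfl)
  ext s
  simp

theorem isSumOfPowers_rename (Y : Set σ) [Fintype {s // s ∉ Y}] {e M : ℕ}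
    {g : MvPolynomial {s // s ∉ Y} ℂ} (h : IsSumOfPowers e M g) :
    IsSumOfPowers e M (rename Subtype.val g) := by
  obtain ⟨a, rfl⟩ := h
  refine ⟨fun i => ext0 Y (a i), ?_⟩
  rw [map_sum]
  refine Finset.sum_congr rfl fun i _ => ?_
  rw [map_pow, rename_linForm]

/-! ### products of linear forms -/

/-- `p` is a product of `d` linear forms -/
def IsProd (d : ℕ) (p : MvPolynomial σ ℂ) : Prop :=
  ∃ a : Fin d → σ → ℂ, p = ∏ j, linForm (a j)

theorem isProd_one : IsProd 0 (1 : MvPolynomial σ ℂ) := ⟨fun _ _ => 0, by simp⟩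

theorem IsProd.mul {d d' : ℕ} {p q : MvPolynomial σ ℂ} (hp : IsProd d p) (hq : IsProd d' q) :
    IsProd (d + d') (p * q) := by
  obtain ⟨a, rfl⟩ := hp
  obtain ⟨b, rfl⟩ := hq
  refine ⟨Fin.append a b, ?_⟩
  rw [Fin.prod_univ_add]
  simp

theorem isProd_linForm (a : σ → ℂ) : IsProd 1 (linForm a) := ⟨fun _ => a, by simp⟩

theorem isProd_pow {d : ℕ} {p : MvPolynomial σ ℂ} (h : IsProd d p) (n : ℕ) :
    IsProd (n * d) (p ^ n) := by
  induction n with
  | zero => rw [zero_mul, pow_zero]; exact isProd_one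
  | succ n ih => rw [add_mul, one_mul, pow_succ]; exact ih.mul h

theorem linForm_single (s : σ) [DecidableEq σ] :
    linForm (Pi.single s 1 : σ → ℂ) = (X s : MvPolynomial σ ℂ) := by
  unfold linForm
  rw [Finset.sum_eq_single s]
  · rw [Pi.single_eq_same, one_smul]
  · intro i _ hi
    rw [Pi.single_eq_of_ne hi, zero_smul]
  · intro h
    exact absurd (Finset.mem_univ s) h

theorem isProd_monomial (β : σ →₀ ℕ) : IsProd β.degree (monomial β (1 : ℂ)) := by
  classical
  induction β using Finsupp.induction_linear with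
  | zero => rw [map_zero]; exact isProd_one
  | add β γ hβ hγ =>
    have h1 : (monomial (β + γ) (1 : ℂ)) = monomial β 1 * monomial γ 1 := by
      rw [monomial_mul, one_mul]
    rw [map_add, h1]
    exact hβ.mul hγ
  | single s n =>
    have h1 : (monomial (Finsupp.single s n) (1 : ℂ)) = X s ^ n := by
      rw [X_pow_eq_monomial]
    rw [h1, Finsupp.degree_single, ← linForm_single s]
    simpa using isProd_pow (isProd_linForm (Pi.single s 1)) n

theorem IsProd.smul {d : ℕ} (hd : d ≠ 0) {p : MvPolynomial σ ℂ} (h : IsProd d p) (c : ℂ) :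
    IsProd d (c • p) := by
  obtain ⟨a, rfl⟩ := h
  obtain ⟨d, rfl⟩ := Nat.exists_eq_succ_of_ne_zero hd
  refine ⟨Fin.cons (c • a 0) (fun j => a j.succ), ?_⟩
  rw [Fin.prod_univ_succ, Fin.prod_univ_succ]
  simp only [Fin.cons_zero, Fin.cons_succ]
  rw [linForm_smul, smul_mul_assoc]

theorem isSumOfProducts_sum {T : Type} (S : Finset T) {d : ℕ} {p : T → MvPolynomial σ ℂ}
    (h : ∀ t ∈ S, IsProd d (p t)) : IsSumOfProducts d S.card (∑ t ∈ S, p t) := by
  classical
  have h1 : ∀ t : S, ∃ a : Fin d → σ → ℂ, p t = ∏ j, linForm (a j) := fun t => h t.1 t.2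
  choose a ha using h1
  refine ⟨fun i => a (S.equivFin.symm i), ?_⟩
  rw [← Finset.sum_coe_sort S, ← S.equivFin.symm.sum_comp]
  exact Finset.sum_congr rfl fun i _ => ha _

theorem isSumOfProducts_mono {d r s : ℕ} (hd : d ≠ 0) {f : MvPolynomial σ ℂ}
    (h : IsSumOfProducts d r f) (hrs : r ≤ s) : IsSumOfProducts d s f := by
  obtain ⟨a, rfl⟩ := h
  obtain ⟨t, rfl⟩ := Nat.exists_eq_add_of_le hrs
  refine ⟨Fin.append a (fun _ _ => 0), ?_⟩
  rw [Fin.sum_univ_add]
  have h0 : ∏ _j : Fin d, linForm (0 : σ → ℂ) = 0 := by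
    have : linForm (0 : σ → ℂ) = 0 := by simp [linForm]
    rw [this, Finset.prod_const, Finset.card_univ, Fintype.card_fin, zero_pow hd]
  have h2 : ∀ i : Fin t, ∏ j, linForm (Fin.append a (fun (_ : Fin t) (_ : Fin d) => (0 : σ → ℂ))
      (Fin.natAdd r i) j) = 0 := by
    intro i
    rw [Fin.append_right]
    exact h0
  have h3 : ∀ i : Fin r, ∏ j, linForm (Fin.append a (fun (_ : Fin t) (_ : Fin d) => (0 : σ → ℂ))
      (Fin.castAdd t i) j) = ∏ j, linForm (a i j) := by
    intro i
    rw [Fin.append_left]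
  have h4 : (fun _ _ => 0 : Fin t → Fin d → σ → ℂ) = fun _ _ => 0 := rfl
  simp only [h3]
  rw [Finset.sum_eq_zero (fun i _ => h2 i), add_zero]

theorem isSumOfProducts_sum' {T : Type} (S : Finset T) {d M : ℕ}
    {p : T → MvPolynomial σ ℂ}
    (h : ∀ t ∈ S, IsSumOfProducts d M (p t)) : IsSumOfProducts d (S.card * M) (∑ t ∈ S, p t) := by
  classical
  have h1 : ∀ t : S, ∃ a : Fin M → Fin d → σ → ℂ, p t = ∑ i, ∏ j, linForm (a i j) :=
    fun t => h t.1 t.2
  choose a ha using h1
  have h2 := isSumOfProducts_sum (Finset.univ : Finset (S × Fin M))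
    (p := fun x => ∏ j, linForm (a x.1 x.2 j)) (d := d) (fun x _ => ⟨_, rfl⟩)
  have h3 : (Finset.univ : Finset (S × Fin M)).card = S.card * M := by
    rw [Finset.card_univ, Fintype.card_prod, Fintype.card_coe, Fintype.card_fin]
  rw [h3, Fintype.sum_prod_type] at h2
  rw [← Finset.sum_coe_sort S]
  simp only [ha]
  exact h2

theorem isSumOfProducts_monomial_mul {d M : ℕ} {β : σ →₀ ℕ} (hβ : β.degree ≤ d)
    {g : MvPolynomial σ ℂ} (h : IsSumOfPowers (d - β.degree) M g) :
    IsSumOfProducts d M (monomial β 1 * g) := by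
  obtain ⟨a, rfl⟩ := h
  rw [Finset.mul_sum]
  have h1 := isSumOfProducts_sum (Finset.univ : Finset (Fin M))
    (p := fun i => monomial β 1 * linForm (a i) ^ (d - β.degree)) (d := d) (fun i _ => by
      have h2 := (isProd_monomial β).mul (isProd_pow (isProd_linForm (a i)) (d - β.degree))
      have h3 : β.degree + (d - β.degree) * 1 = d := by omega
      rwa [h3] at h2)
  rwa [Finset.card_univ, Fintype.card_fin] at h1

end Pool.Agent.Lib.MP_00289a_lc_h78
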