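import Pool.Agent.Lib.MP_00289a_lc_h78.Sparse2

open MvPolynomial Filter Topology

namespace Pool.Agent.Lib.MP_00289a_lc_h78

open Pool.Agent.Lib.MP_00289a_lc_h67

variable {σ : Type} {G : ℕ} {N : Fin G → ℕ}

theorem off_iff {ρ : (∀ g, Equiv.Perm (Fin (N g))) →* Equiv.Perm σ} {Y : Set σ}
    (h : ∀ s ∈ Y, ∀ π, ρ π s = s) (π : ∀ g, Equiv.Perm (Fin (N g))) (s : σ) :
    ρ π s ∉ Y ↔ s ∉ Y := by
  rw [not_iff_not]
  constructor
  · intro hs
    have h1 := h _ hs π⁻¹
    rw [map_inv] at h1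
    have h2 : (ρ π)⁻¹ (ρ π s) = s := Equiv.symm_apply_apply _ _
    rw [h2] at h1
    rw [h1]
    exact hs
  · intro hs
    rw [h s hs π]
    exact hs

/-- The action outside `Y`. -/
def offAct (ρ : (∀ g, Equiv.Perm (Fin (N g))) →* Equiv.Perm σ) (Y : Set σ)
    (h : ∀ s ∈ Y, ∀ π, ρ π s = s) :
    (∀ g, Equiv.Perm (Fin (N g))) →* Equiv.Perm {s // s ∉ Y} where
  toFun π := (ρ π).subtypePerm (fun s => off_iff h π s)
  map_one' := by
    ext s
    simp
  map_mul' π π' := by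
    ext s
    simp

theorem offAct_apply {ρ : (∀ g, Equiv.Perm (Fin (N g))) →* Equiv.Perm σ} {Y : Set σ}
    (h : ∀ s ∈ Y, ∀ π, ρ π s = s) (π : ∀ g, Equiv.Perm (Fin (N g))) (s : {s // s ∉ Y}) :
    (offAct ρ Y h π s : σ) = ρ π s := rfl

theorem smallSupports_off {ρ : (∀ g, Equiv.Perm (Fin (N g))) →* Equiv.Perm σ} {Y : Set σ}
    {k t : ℕ} (h : SmallSupportsOff ρ Y k t) : SmallSupports (offAct ρ Y h.fixed) k t := by
  classical
  refine ⟨fun s => ?_, ?_⟩
  · obtain ⟨B, hB, hfix⟩ := h.supports s s.2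
    exact ⟨B, hB, fun π hπ => Subtype.ext (hfix π hπ)⟩
  · obtain ⟨T, hT, hrep⟩ := h.orbits
    refine ⟨T.subtype (· ∉ Y), (Finset.card_subtype _ _).trans_le
      ((Finset.card_filter_le _ _).trans hT), fun s => ?_⟩
    obtain ⟨s', hs', π, hπ⟩ := hrep s s.2
    have h1 : s' ∉ Y := by
      rw [← off_iff h.fixed π, hπ]
      exact s.2
    exact ⟨⟨s', h1⟩, Finset.mem_subtype.2 hs', π, Subtype.ext hπ⟩

theorem isInvariant_lam {ρ : (∀ g, Equiv.Perm (Fin (N g))) →* Equiv.Perm σ} {Y : Set σ}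
    (h : ∀ s ∈ Y, ∀ π, ρ π s = s) {f : MvPolynomial σ ℂ} (hf : IsInvariant ρ f) (β : σ →₀ ℕ) :
    IsInvariant (offAct ρ Y h) (lam Y β f) := by
  intro π
  rw [← lam_rename Y (ρ π) (fun s hs => h s hs π) _ (fun s => offAct_apply h π s), hf π]

variable [Fintype σ]

/-- The bound of the hand-in. -/
def bd (V G k t s d : ℕ) : ℕ :=
  (8 * k ^ 2 * V + 2) ^ ((2 * k * s - 1) * G) * (d + 1) ^ (t * (4 * k * (2 * k + 1) * s) ^ (2 * k * G))

theorem isSumOfPowers_lam {ρ : (∀ g, Equiv.Perm (Fin (N g))) →* Equiv.Perm σ} {Y : Set σ}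
    [Fintype {s // s ∉ Y}]
    {k t : ℕ} (h : SmallSupportsOff ρ Y k t) {f : MvPolynomial σ ℂ} (hf : IsInvariant ρ f)
    {d r s : ℕ} (hb : borderChowRank d f ≤ r) (hk : 1 ≤ k) (hs : 1 ≤ s)
    (hN : ∀ g, N g < 4 * k * (2 * k + 1) * s ∨ r * d.choose s < (N g / 2).choose s)
    (β : σ →₀ ℕ) (hβ : β.degree < d) :
    IsSumOfPowers (d - β.degree) (bd (Fintype.card σ) G k t s d) (lam Y β f) := by
  have hne : d - β.degree ≠ 0 := by omega
  have key := isSumOfPowers_small (smallSupports_off h) (isInvariant_lam h.fixed hf β) hne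
    (isHomogeneous_lam Y β (isHomogeneous_of_borderChow hb)) (R := fun s => r * d.choose s)
    (fun Z => by
      rw [← lam_restrict]
      exact derivBound_lam (derivBound_chow (borderChow_restrict _ hb)) Y β) hk hs (fun g => by
      rcases hN g with h1 | h1
      · exact Or.inl h1
      · exact Or.inr fun s' hs' hs'' => chow_mono h1 hs' (by omega))
  refine key.mono hne ?_
  unfold bd
  apply Nat.mul_le_mul
  · apply Nat.pow_le_pow_left
    have : Fintype.card {s // s ∉ Y} ≤ Fintype.card σ :=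
      Fintype.card_le_of_injective _ Subtype.val_injective
    have := Nat.mul_le_mul_left (8 * k ^ 2) this
    omega
  · exact Nat.pow_le_pow_left (by omega) _

theorem bd_pos (V G k t s d : ℕ) : 1 ≤ bd V G k t s d :=
  Nat.mul_pos (Nat.pow_pos (by omega)) (Nat.pow_pos (by omega))

/-- Bound for the Waring ranks of the coefficients. -/
theorem isSumOfPowers_coeffOff {ρ : (∀ g, Equiv.Perm (Fin (N g))) →* Equiv.Perm σ} {Y : Set σ}
    {k t : ℕ} (h : SmallSupportsOff ρ Y k t) {f : MvPolynomial σ ℂ} (hf : IsInvariant ρ f)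
    {d r s : ℕ} (hb : borderChowRank d f ≤ r) (hk : 1 ≤ k) (hs : 1 ≤ s)
    (hN : ∀ g, N g < 4 * k * (2 * k + 1) * s ∨ r * d.choose s < (N g / 2).choose s)
    (β : σ →₀ ℕ) (hβ : β.degree < d) :
    IsSumOfPowers (d - β.degree) (bd (Fintype.card σ) G k t s d) (coeffOff Y β f) := by
  classical
  rw [coeffOff_eq]
  exact isSumOfPowers_rename Y (isSumOfPowers_lam h hf hb hk hs hN β hβ)

/-- Bound for the Chow rank. -/
theorem isSumOfProducts_sparse {ρ : (∀ g, Equiv.Perm (Fin (N g))) →* Equiv.Perm σ} {Y : Set σ}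
    {k t : ℕ} (h : SmallSupportsOff ρ Y k t) {f : MvPolynomial σ ℂ} (hf : IsInvariant ρ f)
    {d r s : ℕ} (hd : d ≠ 0) (hb : borderChowRank d f ≤ r) (hk : 1 ≤ k) (hs : 1 ≤ s)
    (hN : ∀ g, N g < 4 * k * (2 * k + 1) * s ∨ r * d.choose s < (N g / 2).choose s) :
    IsSumOfProducts d ((expsIn Y f).card * bd (Fintype.card σ) G k t s d) f := by
  classical
  conv => arg 3; rw [eq_sum_coeffOff Y f]
  apply isSumOfProducts_sum'
  intro β hβ
  have hhom := isHomogeneous_of_borderChow hb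
  have h1 := degree_le_of_mem_expsIn hhom hβ
  rcases Nat.lt_or_ge β.degree d with h2 | h2
  · exact isSumOfProducts_monomial_mul h1 (isSumOfPowers_coeffOff h hf hb hk hs hN β h2)
  · have h3 : β.degree = d := le_antisymm h1 h2
    have h4 := isHomogeneous_lam Y β hhom
    rw [h3, Nat.sub_self] at h4
    have h5 : coeffOff Y β f = C (coeff 0 (lam Y β f)) := by
      rw [coeffOff_eq, ← rename_C Subtype.val]
      congr 1
      exact (totalDegree_eq_zero_iff_eq_C).1 (Nat.le_zero.1 h4.totalDegree_le)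
    rw [h5, mul_comm, ← smul_eq_C_mul]
    have h6 : IsProd d (coeff 0 (lam Y β f) • monomial β (1 : ℂ)) :=
      IsProd.smul hd (by rw [← h3]; exact isProd_monomial β) _
    obtain ⟨a, ha⟩ := h6
    refine isSumOfProducts_mono hd (r := 1) ⟨fun _ => a, ?_⟩ (bd_pos _ _ _ _ _ _)
    rw [ha]
    simp

end Pool.Agent.Lib.MP_00289a_lc_h78
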