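import Pool.Agent.Lib.MP_00289a_lc_h78.Sparse3

open MvPolynomial Filter Topology

namespace Pool.Agent.Lib.MP_00289a_lc_h78

open Pool.Agent.Lib.MP_00289a_lc_h67

theorem expsIn_card_pos_or {σ : Type} (Y : Set σ) (f : MvPolynomial σ ℂ) :
    f = 0 ∨ 1 ≤ (expsIn Y f).card := by
  classical
  by_cases h : f = 0
  · exact Or.inl h
  · right
    obtain ⟨α, hα⟩ := Finset.nonempty_iff_ne_empty.2 (fun h' => h (support_eq_empty.1 h'))
    apply Finset.card_pos.2
    unfold expsIn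
    exact ⟨_, Finset.mem_image_of_mem _ hα⟩

theorem vchow_of_bound (F : PFamily) (a b c s0 C0 K : ℕ) (u : ℕ → ℕ)
    (hu : ∀ᶠ n in atTop, u n ≤ n ^ K)
    (h : ∀ᶠ n in atTop, F.deg n ≠ 0 → IsSumOfProducts (F.deg n)
      (u n * ((c * Fintype.card (F.Var n) + 2) ^ a * (F.deg n + 1) ^ b)) (F.form n))
    (h0 : ∀ᶠ n in atTop, F.deg n = 0 →
      chowRank (F.deg n) (F.form n) ≤ ((C0 * n ^ s0 : ℕ) : ℕ∞)) : VChow F := by
  obtain ⟨s1, h1⟩ := F.bounded
  refine ⟨s0 + K + s1 * (a + b), C0 + (c * (s1 + 1) + 2) ^ a * (s1 + 2) ^ b, ?_⟩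
  filter_upwards [h, h0, hu, eventually_ge_atTop 1] with n hn hn0 hun hn1
  obtain ⟨hcard, hdeg⟩ := h1 n
  have hpow : ∀ a b : ℕ, a ≤ b → n ^ a ≤ n ^ b := fun a b hab => Nat.pow_le_pow_right hn1 hab
  by_cases hd : F.deg n = 0
  · refine (hn0 hd).trans ?_
    have : C0 * n ^ s0 ≤
        (C0 + (c * (s1 + 1) + 2) ^ a * (s1 + 2) ^ b) * n ^ (s0 + K + s1 * (a + b)) :=
      Nat.mul_le_mul (Nat.le_add_right _ _) (hpow _ _ (by omega))
    exact_mod_cast this
  · refine (chowRank_le (hn hd)).trans ?_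
    have hp : 1 ≤ n ^ s1 := Nat.one_le_pow _ _ hn1
    have h2 : c * Fintype.card (F.Var n) + 2 ≤ (c * (s1 + 1) + 2) * n ^ s1 := by
      have h3 : Fintype.card (F.Var n) ≤ (s1 + 1) * n ^ s1 := by nlinarith
      calc c * Fintype.card (F.Var n) + 2 ≤ c * ((s1 + 1) * n ^ s1) + 2 * n ^ s1 := by
            have := Nat.mul_le_mul_left c h3
            omega
        _ = _ := by ring
    have h3 : F.deg n + 1 ≤ (s1 + 2) * n ^ s1 := by nlinarith
    have hfin : u n * ((c * Fintype.card (F.Var n) + 2) ^ a * (F.deg n + 1) ^ b) ≤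
        (C0 + (c * (s1 + 1) + 2) ^ a * (s1 + 2) ^ b) * n ^ (s0 + K + s1 * (a + b)) := by
      calc u n * ((c * Fintype.card (F.Var n) + 2) ^ a * (F.deg n + 1) ^ b)
          ≤ n ^ K * (((c * (s1 + 1) + 2) * n ^ s1) ^ a * ((s1 + 2) * n ^ s1) ^ b) :=
            Nat.mul_le_mul hun
              (Nat.mul_le_mul (Nat.pow_le_pow_left h2 _) (Nat.pow_le_pow_left h3 _))
        _ = ((c * (s1 + 1) + 2) ^ a * (s1 + 2) ^ b) * n ^ (K + s1 * (a + b)) := by
            have e : n ^ (K + s1 * (a + b)) = n ^ K * (n ^ (s1 * a) * n ^ (s1 * b)) := by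
              rw [← pow_add, ← pow_add, ← mul_add]
            rw [mul_pow, mul_pow, ← pow_mul, ← pow_mul, e]; ring
        _ ≤ _ := Nat.mul_le_mul (Nat.le_add_left _ _) (hpow _ _ (by omega))
    exact_mod_cast hfin

theorem vchow_of_sparse (F : PFamily) {G k t : ℕ} (hk : 1 ≤ k) (N : ℕ → Fin G → ℕ)
    (ρ : ∀ n, (∀ g, Equiv.Perm (Fin (N n g))) →* Equiv.Perm (F.Var n))
    (Y : ∀ n, Set (F.Var n))
    (hρ : ∀ n, SmallSupportsOff (ρ n) (Y n) k t) (hf : ∀ n, IsInvariant (ρ n) (F.form n)) (K : ℕ)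
    (hN : ∀ᶠ n in atTop, ∀ g, N n g ≤ K ∨ (n ≤ N n g ^ K ∧ F.deg n ^ (K + 1) ≤ N n g ^ K))
    (hY : ∀ᶠ n in atTop, (expsIn (Y n) (F.form n)).card ≤ n ^ K)
    (hb : BorderVChow F) : VChow F := by
  obtain ⟨s0, C0, h0⟩ := hb
  set s := (K + 1) * (K * s0 + 1) with hs
  have hsK : K + 1 ≤ s := Nat.le_mul_of_pos_right _ (by omega)
  refine vchow_of_bound F ((2 * k * s - 1) * G) (t * (4 * k * (2 * k + 1) * s) ^ (2 * k * G))
    (8 * k ^ 2) s0 C0 K (fun n => (expsIn (Y n) (F.form n)).card) hY ?_ ?_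
  · filter_upwards [h0, hN, eventually_gt_atTop ((C0 * 4 ^ s * s.factorial + 4 * s + 1) ^ K)]
      with n hn0 hnN hnB hd
    refine isSumOfProducts_sparse (hρ n) (hf n) hd hn0 hk (by omega) (fun g => ?_)
    rcases hnN g with h | ⟨h, h'⟩
    · left
      calc N n g ≤ K := h
        _ < 1 * s := by omega
        _ ≤ 4 * k * (2 * k + 1) * s := by
            apply Nat.mul_le_mul_right
            exact Nat.mul_pos (by omega) (by omega)
    · right
      refine choose_large_chow hs h h' le_rfl ?_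
      by_contra hcon
      push Not at hcon
      have := Nat.pow_le_pow_left hcon K
      omega
  · filter_upwards [h0] with n hn0 hd
    rw [hd] at hn0 ⊢
    exact (chowRank_le_waringRank _ _).trans (waringRank_zero_le (borderWaringRank_zero_le hn0))

theorem smallSupports_of_off {σ : Type} {G : ℕ} {N : Fin G → ℕ}
    {ρ : (∀ g, Equiv.Perm (Fin (N g))) →* Equiv.Perm σ} {k t : ℕ}
    (h : SmallSupportsOff ρ ∅ k t) : SmallSupports ρ k t :=
  ⟨fun s => h.supports s (Set.notMem_empty s), by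
    obtain ⟨T, hT, hrep⟩ := h.orbits
    exact ⟨T, hT, fun s => hrep s (Set.notMem_empty s)⟩⟩

end Pool.Agent.Lib.MP_00289a_lc_h78
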