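import Pool.Agent.Lib.MP_00289a_lc_h78.ChowDefs

/-!
# Symmetric group actions with small supports, and a sparse part
-/

open MvPolynomial

namespace Pool.Agent.Lib.MP_00289a_lc_h78

/-- `ρ` is an action of the product of the symmetric groups of the sets `Fin (N g)`, `g < G`, on the
set `σ` (of variables), and `Y` a set of variables. `SmallSupportsOff ρ Y k t` says that the action
fixes all elements of `Y`, that each element `s` of `σ` outside `Y` has a set `B g` of at most `k`
elements in each `Fin (N g)` such that all permutations fixing these elements fix `s`, and that the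
action has at most `t` orbits outside `Y`. -/
structure SmallSupportsOff {σ : Type} {G : ℕ} {N : Fin G → ℕ}
    (ρ : (∀ g, Equiv.Perm (Fin (N g))) →* Equiv.Perm σ) (Y : Set σ) (k t : ℕ) : Prop where
  /-- the elements of `Y` are fixed -/
  fixed : ∀ s ∈ Y, ∀ π, ρ π s = s
  /-- supports -/
  supports : ∀ s ∉ Y, ∃ B : ∀ g, Finset (Fin (N g)), (∀ g, (B g).card ≤ k) ∧
    ∀ π, (∀ g, ∀ i ∈ B g, π g i = i) → ρ π s = s
  /-- at most `t` orbits -/
  orbits : ∃ T : Finset σ, T.card ≤ t ∧ ∀ s ∉ Y, ∃ s' ∈ T, ∃ π, ρ π s' = s

/-- The part of the exponent `α` in `Y`. -/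
noncomputable def expIn {σ : Type} (Y : Set σ) (α : σ →₀ ℕ) : σ →₀ ℕ := by
  classical
  exact α.filter (· ∈ Y)

/-- The part of the exponent `α` outside `Y`. -/
noncomputable def expOff {σ : Type} (Y : Set σ) (α : σ →₀ ℕ) : σ →₀ ℕ := by
  classical
  exact α.filter (· ∉ Y)

/-- The exponents in `Y` of the monomials of `f`. -/
noncomputable def expsIn {σ : Type} (Y : Set σ) (f : MvPolynomial σ ℂ) : Finset (σ →₀ ℕ) := by
  classical
  exact f.support.image (expIn Y)

/-- The coefficient of `y ^ β` in `f`, as a polynomial in the variables outside `Y`. -/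
noncomputable def coeffOff {σ : Type} (Y : Set σ) (β : σ →₀ ℕ) (f : MvPolynomial σ ℂ) :
    MvPolynomial σ ℂ := by
  classical
  exact ∑ α ∈ f.support with expIn Y α = β, monomial (expOff Y α) (coeff α f)

end Pool.Agent.Lib.MP_00289a_lc_h78
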