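import Pool.Agent.Lib.MP_00289a_lc_h78.Deriv

open MvPolynomial Filter Topology

namespace Pool.Agent.Lib.MP_00289a_lc_h78

open Pool.Agent.Lib.MP_00289a_lc_h67

/-- An action of the symmetric group of `Fin N` on `σ` with supports of at most `k` elements. -/
structure OneSupp (σ : Type) (N k : ℕ) where
  /-- the action -/
  act : Equiv.Perm (Fin N) →* Equiv.Perm σ
  /-- the supports -/
  supp : σ → Finset (Fin N)
  /-- the supports are small -/
  card_supp : ∀ s, (supp s).card ≤ k
  /-- the supports are equivariant -/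
  mem_supp : ∀ π s i, i ∈ supp (act π s) ↔ π⁻¹ i ∈ supp s
  /-- a permutation fixing the support fixes the element -/
  fixed : ∀ π s, (∀ i ∈ supp s, π i = i) → act π s = s

namespace OneSupp

variable {σ : Type} {N k : ℕ} (A : OneSupp σ N k)

theorem act_act (π π' : Equiv.Perm (Fin N)) (s : σ) : A.act π (A.act π' s) = A.act (π * π') s := by
  rw [map_mul]; rfl

theorem act_swap_swap (a b : Fin N) (s : σ) :
    A.act (Equiv.swap a b) (A.act (Equiv.swap a b) s) = s := by
  rw [act_act, Equiv.swap_mul_self, map_one]; rfl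

theorem mem_left {a b : Fin N} (s : σ) :
    a ∈ A.supp (A.act (Equiv.swap a b) s) ↔ b ∈ A.supp s := by
  rw [A.mem_supp, Equiv.swap_inv, Equiv.swap_apply_left]

theorem mem_right {a b : Fin N} (s : σ) :
    b ∈ A.supp (A.act (Equiv.swap a b) s) ↔ a ∈ A.supp s := by
  rw [A.mem_supp, Equiv.swap_inv, Equiv.swap_apply_right]

theorem mem_other {a b c : Fin N} (hca : c ≠ a) (hcb : c ≠ b) (s : σ) :
    c ∈ A.supp (A.act (Equiv.swap a b) s) ↔ c ∈ A.supp s := by
  rw [A.mem_supp, Equiv.swap_inv, Equiv.swap_apply_of_ne_of_ne hca hcb]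

/-- Merging the index `b` into the index `a`. -/
noncomputable def mrg (a b : Fin N) : (σ → ℂ) →ₗ[ℂ] (σ → ℂ) where
  toFun x s := if b ∈ A.supp s ∧ a ∉ A.supp s then 0 else
    if a ∈ A.supp s ∧ b ∉ A.supp s then x s + x (A.act (Equiv.swap a b) s) else x s
  map_add' x y := by
    funext s
    simp only [Pi.add_apply]
    split_ifs
    · rw [add_zero]
    · ring
    · rfl
  map_smul' c x := by
    funext s
    simp only [Pi.smul_apply, smul_eq_mul, RingHom.id_apply]
    split_ifs
    · rw [mul_zero]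
    · ring
    · rfl

theorem mrg_apply (a b : Fin N) (x : σ → ℂ) (s : σ) : A.mrg a b x s =
    if b ∈ A.supp s ∧ a ∉ A.supp s then 0 else
      if a ∈ A.supp s ∧ b ∉ A.supp s then x s + x (A.act (Equiv.swap a b) s) else x s := rfl

theorem mrg_apply_b {a b : Fin N} (x : σ → ℂ) {s : σ} (hb : b ∈ A.supp s) (ha : a ∉ A.supp s) :
    A.mrg a b x s = 0 := by
  rw [mrg_apply, if_pos ⟨hb, ha⟩]

theorem mrg_apply_a {a b : Fin N} (x : σ → ℂ) {s : σ} (ha : a ∈ A.supp s) (hb : b ∉ A.supp s) :
    A.mrg a b x s = x s + x (A.act (Equiv.swap a b) s) := by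
  rw [mrg_apply, if_neg (fun h => hb h.1), if_pos ⟨ha, hb⟩]

theorem mrg_apply_eq {a b : Fin N} (x : σ → ℂ) {s : σ} (h : a ∈ A.supp s ↔ b ∈ A.supp s) :
    A.mrg a b x s = x s := by
  rw [mrg_apply, if_neg (fun h' => h'.2 (h.2 h'.1)), if_neg (fun h' => h'.2 (h.1 h'.1))]

/-- The difference is antisymmetric. -/
theorem mrg_sub_anti (a b : Fin N) (x : σ → ℂ) (s : σ) :
    A.mrg a b x (A.act (Equiv.swap a b) s) - x (A.act (Equiv.swap a b) s) =
      - (A.mrg a b x s - x s) := by
  by_cases ha : a ∈ A.supp s <;> by_cases hb : b ∈ A.supp s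
  · rw [A.mrg_apply_eq x (s := A.act (Equiv.swap a b) s) (by rw [A.mem_left, A.mem_right]; tauto),
      A.mrg_apply_eq x (s := s) (by tauto)]
    ring
  · rw [A.mrg_apply_b x (s := A.act (Equiv.swap a b) s) (by rw [A.mem_right]; exact ha)
      (by rw [A.mem_left]; exact hb), A.mrg_apply_a x ha hb]
    ring
  · rw [A.mrg_apply_a x (s := A.act (Equiv.swap a b) s) (by rw [A.mem_left]; exact hb)
      (by rw [A.mem_right]; exact ha), A.mrg_apply_b x hb ha, A.act_swap_swap]
    ring
  · rw [A.mrg_apply_eq x (s := A.act (Equiv.swap a b) s) (by rw [A.mem_left, A.mem_right]; tauto),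
      A.mrg_apply_eq x (s := s) (by tauto)]
    ring

theorem act_swap_comm {a b c d : Fin N} (hac : a ≠ c) (had : a ≠ d) (hbc : b ≠ c) (hbd : b ≠ d)
    (s : σ) : A.act (Equiv.swap a b) (A.act (Equiv.swap c d) s) =
      A.act (Equiv.swap c d) (A.act (Equiv.swap a b) s) := by
  rw [act_act, act_act]
  congr 2
  ext i
  simp only [Equiv.Perm.mul_apply, Equiv.swap_apply_def]
  split_ifs <;> simp_all

/-- Merges of disjoint pairs commute. -/
theorem mrg_comm {a b c d : Fin N} (hac : a ≠ c) (had : a ≠ d) (hbc : b ≠ c) (hbd : b ≠ d)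
    (x : σ → ℂ) : A.mrg a b (A.mrg c d x) = A.mrg c d (A.mrg a b x) := by
  funext s
  have hc' := A.mem_other hac.symm hbc.symm s
  have hd' := A.mem_other had.symm hbd.symm s
  have ha' := A.mem_other hac had s
  have hb' := A.mem_other hbc hbd s
  have hcomm := A.act_swap_comm hac had hbc hbd s
  rw [mrg_apply, mrg_apply, mrg_apply, mrg_apply, mrg_apply, mrg_apply]
  simp only [ha', hb', hc', hd', hcomm]
  split_ifs <;> ring

end OneSupp

end Pool.Agent.Lib.MP_00289a_lc_h78
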