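import Pool.Agent.Lib.MP_00289a_lc_h78.Supp1

open MvPolynomial Filter Topology

namespace Pool.Agent.Lib.MP_00289a_lc_h78

open Pool.Agent.Lib.MP_00289a_lc_h67

variable {σ : Type} {N k M : ℕ}

/-- The transposition of the pair `j`. -/
def sw (P : Fin M × Bool ↪ Fin N) (j : Fin M) : Equiv.Perm (Fin N) :=
  Equiv.swap (P (j, false)) (P (j, true))

/-- flip the pairs in `ε` -/
def flipE (ε : Fin M → Bool) : Equiv.Perm (Fin M × Bool) where
  toFun p := (p.1, xor p.2 (ε p.1))
  invFun p := (p.1, xor p.2 (ε p.1))
  left_inv p := by simp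
  right_inv p := by simp

/-- flip the pairs in `ε` -/
noncomputable def flipP (P : Fin M × Bool ↪ Fin N) (ε : Fin M → Bool) : Equiv.Perm (Fin N) :=
  (flipE ε).viaEmbedding P

theorem flipP_apply (P : Fin M × Bool ↪ Fin N) (ε : Fin M → Bool) (j : Fin M) (b : Bool) :
    flipP P ε (P (j, b)) = P (j, xor b (ε j)) :=
  Equiv.Perm.viaEmbedding_apply _ _ _

theorem flipP_apply_of_notMem (P : Fin M × Bool ↪ Fin N) (ε : Fin M → Bool) {i : Fin N}
    (hi : i ∉ Set.range P) : flipP P ε i = i :=
  Equiv.Perm.viaEmbedding_apply_of_notMem _ _ _ hi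

theorem sw_apply (P : Fin M × Bool ↪ Fin N) (j j' : Fin M) (b : Bool) :
    sw P j (P (j', b)) = P (j', if j' = j then !b else b) := by
  unfold sw
  by_cases hj : j' = j
  · subst hj
    rw [if_pos rfl]
    cases b
    · rw [Equiv.swap_apply_left]; rfl
    · rw [Equiv.swap_apply_right]; rfl
  · rw [if_neg hj, Equiv.swap_apply_of_ne_of_ne]
    · intro h
      have := P.injective h
      simp only [Prod.mk.injEq] at this
      exact hj this.1
    · intro h
      have := P.injective h
      simp only [Prod.mk.injEq] at this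
      exact hj this.1

theorem sw_apply_of_notMem (P : Fin M × Bool ↪ Fin N) (j : Fin M) {i : Fin N}
    (hi : i ∉ Set.range P) : sw P j i = i := by
  unfold sw
  rw [Equiv.swap_apply_of_ne_of_ne]
  · rintro rfl; exact hi ⟨_, rfl⟩
  · rintro rfl; exact hi ⟨_, rfl⟩

theorem sw_sw (P : Fin M × Bool ↪ Fin N) (j : Fin M) : sw P j * sw P j = 1 :=
  Equiv.swap_mul_self _ _

theorem flipP_zero (P : Fin M × Bool ↪ Fin N) : flipP P (fun _ => false) = 1 := by
  ext i
  by_cases hi : i ∈ Set.range P
  · obtain ⟨⟨j, b⟩, rfl⟩ := hi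
    rw [flipP_apply]; simp
  · rw [flipP_apply_of_notMem P _ hi]; rfl

theorem flipP_update (P : Fin M × Bool ↪ Fin N) (ε : Fin M → Bool) (j : Fin M) :
    flipP P (Function.update ε j (!(ε j))) = flipP P ε * sw P j := by
  ext i
  congr 1
  rw [Equiv.Perm.mul_apply]
  by_cases hi : i ∈ Set.range P
  · obtain ⟨⟨j', b⟩, rfl⟩ := hi
    rw [flipP_apply, sw_apply, flipP_apply]
    by_cases hj : j' = j
    · subst hj
      rw [Function.update_self, if_pos rfl]
      congr 2
      cases b <;> cases ε j' <;> rfl
    · rw [Function.update_of_ne hj, if_neg hj]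
  · rw [flipP_apply_of_notMem P _ hi, sw_apply_of_notMem P _ hi, flipP_apply_of_notMem P _ hi]

theorem flipP_update' (P : Fin M × Bool ↪ Fin N) (ε : Fin M → Bool) (j : Fin M) :
    flipP P (Function.update ε j (!(ε j))) = sw P j * flipP P ε := by
  ext i
  congr 1
  rw [Equiv.Perm.mul_apply]
  by_cases hi : i ∈ Set.range P
  · obtain ⟨⟨j', b⟩, rfl⟩ := hi
    rw [flipP_apply, flipP_apply, sw_apply]
    by_cases hj : j' = j
    · subst hj
      rw [Function.update_self, if_pos rfl]
      congr 2
      cases b <;> cases ε j' <;> rfl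
    · rw [Function.update_of_ne hj, if_neg hj]
  · rw [flipP_apply_of_notMem P _ hi, flipP_apply_of_notMem P _ hi, sw_apply_of_notMem P _ hi]

/-- the characters -/
def chi (χ : Finset (Fin M)) (ε : Fin M → Bool) : ℂ := ∏ j ∈ χ, if ε j then -1 else 1

theorem chi_update (χ : Finset (Fin M)) (ε : Fin M → Bool) (j : Fin M) :
    chi χ (Function.update ε j (!(ε j))) = (if j ∈ χ then -1 else 1) * chi χ ε := by
  classical
  unfold chi
  split_ifs with hj
  · rw [← Finset.mul_prod_erase _ _ hj, ← Finset.mul_prod_erase _ (fun j => if ε j then (-1 : ℂ)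
      else 1) hj]
    have h2 : ∏ i ∈ χ.erase j, (if Function.update ε j (!(ε j)) i then (-1 : ℂ) else 1) =
        ∏ i ∈ χ.erase j, (if ε i then (-1 : ℂ) else 1) := by
      refine Finset.prod_congr rfl fun i hi => ?_
      rw [Function.update_of_ne (Finset.ne_of_mem_erase hi)]
    rw [h2, Function.update_self]
    cases ε j <;> simp
  · rw [one_mul]
    refine Finset.prod_congr rfl fun i hi => ?_
    rw [Function.update_of_ne (by rintro rfl; exact hj hi)]

theorem sum_chi (ε : Fin M → Bool) : ∑ χ : Finset (Fin M), chi χ ε =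
    if ε = (fun _ => false) then (2 : ℂ) ^ M else 0 := by
  classical
  have h1 := Finset.prod_one_add (s := (Finset.univ : Finset (Fin M)))
    (f := fun j => if ε j then (-1 : ℂ) else 1)
  rw [Finset.powerset_univ] at h1
  unfold chi
  rw [← h1]
  split_ifs with h
  · subst h
    simp only [Bool.false_eq_true, if_false]
    rw [Finset.prod_const, Finset.card_univ, Fintype.card_fin]
    norm_num
  · have : ∃ j, ε j = true := by
      by_contra hcon
      push Not at hcon
      apply h
      funext j
      simpa using hcon j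
    obtain ⟨j, hj⟩ := this
    apply Finset.prod_eq_zero (Finset.mem_univ j)
    rw [hj]
    norm_num

namespace OneSupp

variable (A : OneSupp σ N k) (P : Fin M × Bool ↪ Fin N)

/-- The component of the character `χ`. -/
noncomputable def comp (χ : Finset (Fin M)) (x : σ → ℂ) : σ → ℂ := fun s =>
  (2 : ℂ)⁻¹ ^ M * ∑ ε : Fin M → Bool, chi χ ε * x (A.act (flipP P ε) s)

theorem sum_comp (x : σ → ℂ) : ∑ χ, A.comp P χ x = x := by
  classical
  funext s
  rw [Finset.sum_apply]
  unfold comp
  rw [← Finset.mul_sum, Finset.sum_comm]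
  simp only [← Finset.sum_mul, sum_chi]
  rw [Finset.sum_eq_single (fun _ => false)]
  · rw [if_pos rfl, flipP_zero, map_one, ← mul_assoc, ← mul_pow]
    simp
  · intro ε _ hε
    rw [if_neg hε, zero_mul]
  · intro h; exact absurd (Finset.mem_univ _) h

/-- flipping one pair in the sum -/
theorem sum_update (j : Fin M) (h : (Fin M → Bool) → ℂ) :
    ∑ ε : Fin M → Bool, h (Function.update ε j (!(ε j))) = ∑ ε : Fin M → Bool, h ε := by
  classical
  let τ : (Fin M → Bool) ≃ (Fin M → Bool) :=
    { toFun := fun g => Function.update g j (!(g j))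
      invFun := fun g => Function.update g j (!(g j))
      left_inv := fun g => by
        funext i
        by_cases hi : i = j
        · subst hi; simp
        · simp [Function.update_of_ne hi]
      right_inv := fun g => by
        funext i
        by_cases hi : i = j
        · subst hi; simp
        · simp [Function.update_of_ne hi] }
  exact τ.sum_comp h

theorem comp_sw (χ : Finset (Fin M)) (x : σ → ℂ) (j : Fin M) (s : σ) :
    A.comp P χ x (A.act (sw P j) s) = (if j ∈ χ then -1 else 1) * A.comp P χ x s := by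
  unfold comp
  rw [← sum_update j (fun ε => chi χ ε * x (A.act (flipP P ε) (A.act (sw P j) s)))]
  rw [mul_left_comm, Finset.mul_sum (Finset.univ) _ (if j ∈ χ then (-1 : ℂ) else 1)]
  congr 1
  refine Finset.sum_congr rfl fun ε _ => ?_
  rw [chi_update, A.act_act, flipP_update, mul_assoc (flipP P ε), sw_sw, mul_one, mul_assoc]

theorem comp_anti {χ : Finset (Fin M)} {j : Fin M} (hj : j ∉ χ) (z : σ → ℂ)
    (hz : ∀ s, z (A.act (sw P j) s) = - z s) : A.comp P χ z = 0 := by
  funext s
  unfold comp
  have h1 := sum_update j (fun ε => chi χ ε * z (A.act (flipP P ε) s))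
  have h2 : ∑ ε : Fin M → Bool, chi χ (Function.update ε j (!(ε j))) *
      z (A.act (flipP P (Function.update ε j (!(ε j)))) s) =
      - ∑ ε : Fin M → Bool, chi χ ε * z (A.act (flipP P ε) s) := by
    rw [← Finset.sum_neg_distrib]
    refine Finset.sum_congr rfl fun ε _ => ?_
    rw [chi_update, if_neg hj, one_mul, flipP_update', ← A.act_act, hz]
    ring
  rw [h2] at h1
  have h3 : ∑ ε : Fin M → Bool, chi χ ε * z (A.act (flipP P ε) s) = 0 := by
    linear_combination (-1 / 2 : ℂ) * h1
  rw [h3, mul_zero]
  rfl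

theorem comp_sub (χ : Finset (Fin M)) (x y : σ → ℂ) :
    A.comp P χ (x - y) = A.comp P χ x - A.comp P χ y := by
  funext s
  unfold comp
  simp only [Pi.sub_apply, mul_sub, Finset.sum_sub_distrib]

/-- Components of large characters vanish. -/
theorem comp_large {χ : Finset (Fin M)} (hχ : k < χ.card) (x : σ → ℂ) : A.comp P χ x = 0 := by
  classical
  funext s
  have hex : ∃ j ∈ χ, ∀ b, P (j, b) ∉ A.supp s := by
    by_contra hcon
    push Not at hcon
    choose! b hb using hcon
    have h1 : χ.card ≤ (A.supp s).card := by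
      refine Finset.card_le_card_of_injOn (fun j => P (j, b j)) (fun j hj => hb j hj) ?_
      intro j _ j' _ h
      have := P.injective h
      simp only [Prod.mk.injEq] at this
      exact this.1
    have := A.card_supp s
    omega
  obtain ⟨j, hj, hb⟩ := hex
  have h1 := A.comp_sw P χ x j s
  rw [if_pos hj, A.fixed] at h1
  · rw [Pi.zero_apply]
    linear_combination (1 / 2 : ℂ) * h1
  · intro i hi
    unfold sw
    rw [Equiv.swap_apply_of_ne_of_ne]
    · rintro rfl; exact hb false hi
    · rintro rfl; exact hb true hi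

end OneSupp

end Pool.Agent.Lib.MP_00289a_lc_h78
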