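import Pool.Agent.Lib.MP_00289a_lc_h78.Supp2

open MvPolynomial Filter Topology

namespace Pool.Agent.Lib.MP_00289a_lc_h78

open Pool.Agent.Lib.MP_00289a_lc_h67

variable {σ : Type} {N k M : ℕ}

/-- No family of more than `R s` derivatives of order `s` of `f` is linearly independent. -/
def DerivBound (f : MvPolynomial σ ℂ) (R : ℕ → ℕ) : Prop :=
  ∀ (U : Type) [Fintype U] (s : ℕ) (w : U → List (σ → ℂ)), (∀ u, (w u).length = s) →
    R s < Fintype.card U → ¬ LinearIndependent ℂ (fun u => dirs (w u) f)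

theorem rename_dir (π : Equiv.Perm σ) (w : σ → ℂ) (p : MvPolynomial σ ℂ) :
    rename π (dir w p) = dir (w ∘ π.symm) (rename π p) := by
  induction p using MvPolynomial.induction_on with
  | C a => rw [dir_C, map_zero, rename_C, dir_C]
  | add p q hp hq => simp only [map_add, hp, hq]
  | mul_X p s hp =>
    rw [Derivation.leibniz, dir_X, smul_eq_mul, smul_eq_mul, map_add, map_mul, map_mul, hp, map_mul,
      rename_X, rename_C, Derivation.leibniz, dir_X, smul_eq_mul, smul_eq_mul, Function.comp_apply,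
      Equiv.symm_apply_apply]

theorem rename_dirs (π : Equiv.Perm σ) (L : List (σ → ℂ)) : ∀ p : MvPolynomial σ ℂ,
    rename π (dirs L p) = dirs (L.map fun w => w ∘ π.symm) (rename π p) := by
  induction L with
  | nil => intro p; rfl
  | cons w L ih =>
    intro p
    rw [dirs_cons, List.map_cons, dirs_cons, ih, rename_dir]

theorem dirs_map_smul {α : Type} (L : List α) (c : α → ℂ) (v : α → σ → ℂ) :
    ∀ p : MvPolynomial σ ℂ,
      dirs (L.map fun a => c a • v a) p = (L.map c).prod • dirs (L.map v) p := by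
  induction L with
  | nil => intro p; simp [dirs_nil]
  | cons a L ih =>
    intro p
    rw [List.map_cons, List.map_cons, List.map_cons, dirs_cons, dirs_cons, dir_smul, map_smul, ih,
      List.prod_cons, mul_smul]

/-- The pairs on which an odd number of the sets in `Z` are supported. -/
noncomputable def oddSet (Z : Finset (Finset (Fin M))) : Finset (Fin M) := by
  classical
  exact Finset.univ.filter fun j => ∏ χ ∈ Z, (if j ∈ χ then (-1 : ℂ) else 1) = -1

theorem mem_oddSet (Z : Finset (Finset (Fin M))) (j : Fin M) :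
    j ∈ oddSet Z ↔ ∏ χ ∈ Z, (if j ∈ χ then (-1 : ℂ) else 1) = -1 := by
  unfold oddSet
  simp

theorem prod_oddSet (Z : Finset (Finset (Fin M))) (j : Fin M) :
    ∏ χ ∈ Z, (if j ∈ χ then (-1 : ℂ) else 1) = if j ∈ oddSet Z then -1 else 1 := by
  classical
  have h : ∏ χ ∈ Z, (if j ∈ χ then (-1 : ℂ) else 1) = 1 ∨
      ∏ χ ∈ Z, (if j ∈ χ then (-1 : ℂ) else 1) = -1 := by
    induction Z using Finset.induction_on with
    | empty => left; simp
    | insert χ Z hχ ih =>
      rw [Finset.prod_insert hχ]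
      split_ifs <;> rcases ih with h | h <;> rw [h] <;> simp
  by_cases hj : j ∈ oddSet Z
  · rw [if_pos hj]
    exact (mem_oddSet Z j).1 hj
  · rw [if_neg hj]
    exact h.resolve_right fun h' => hj ((mem_oddSet Z j).2 h')

theorem sum_two_pow_injective : Function.Injective
    (fun B : Finset (Fin M) => ∑ j : Fin M, (2 : ℂ) ^ (j : ℕ) * (if j ∈ B then -1 else 1)) := by
  classical
  have key : ∀ B : Finset (Fin M), ∑ j : Fin M, (2 : ℂ) ^ (j : ℕ) * (if j ∈ B then -1 else 1) =
      (∑ j : Fin M, (2 : ℂ) ^ (j : ℕ)) - 2 * ((∑ i ∈ B.map Fin.valEmbedding, 2 ^ i : ℕ) : ℂ) := by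
    intro B
    rw [Finset.sum_map]
    push_cast
    have h1 : ∑ j ∈ B, (2 : ℂ) ^ ((Fin.valEmbedding j : ℕ)) =
        ∑ j : Fin M, if j ∈ B then (2 : ℂ) ^ (j : ℕ) else 0 := by
      rw [← Finset.sum_filter]
      congr 1
      ext j; simp
    rw [h1, Finset.mul_sum, ← Finset.sum_sub_distrib]
    refine Finset.sum_congr rfl fun j _ => ?_
    split_ifs <;> ring
  intro B B' h
  simp only [key] at h
  have h1 : ((∑ i ∈ B.map Fin.valEmbedding, 2 ^ i : ℕ) : ℂ) =
      ((∑ i ∈ B'.map Fin.valEmbedding, 2 ^ i : ℕ) : ℂ) := by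
    linear_combination (-1 / 2 : ℂ) * h
  have h2 : ∑ i ∈ B.map Fin.valEmbedding, 2 ^ i = ∑ i ∈ B'.map Fin.valEmbedding, 2 ^ i := by
    exact_mod_cast h1
  exact Finset.map_injective _ (Finset.geomSum_injective le_rfl h2)

/-- Invariance of a polynomial. -/
def OneSupp.Inv (A : OneSupp σ N k) (f : MvPolynomial σ ℂ) : Prop :=
  ∀ π, rename (A.act π) f = f

/-- **Derivatives in directions of given characters.** -/
theorem dirs_eq_zero_of_chars (A : OneSupp σ N k) (P : Fin M × Bool ↪ Fin N)
    {f : MvPolynomial σ ℂ} (hinv : A.Inv f) {R : ℕ → ℕ} (hR : DerivBound f R)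
    (Z : Finset (Finset (Fin M))) (v : Finset (Fin M) → σ → ℂ)
    (hv : ∀ χ j s, v χ (A.act (sw P j) s) = (if j ∈ χ then -1 else 1) * v χ s)
    (hcard : R Z.card < M.choose (oddSet Z).card) : dirs (Z.toList.map v) f = 0 := by
  classical
  by_contra hne
  set u := dirs (Z.toList.map v) f with hu
  let U := {B : Finset (Fin M) // B.card = (oddSet Z).card}
  have hcardU : Fintype.card U = M.choose (oddSet Z).card := by
    rw [Fintype.card_finset_len, Fintype.card_fin]
  have hex : ∀ B : U, ∃ ρ : Equiv.Perm (Fin M), (oddSet Z).map ρ.toEmbedding = B.1 := fun B =>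
    Equiv.Perm.exists_map_finset_eq _ _ B.2.symm
  choose ρ hρ using hex
  let ρ' : U → Equiv.Perm (Fin N) := fun B =>
    Equiv.Perm.viaEmbedding ((ρ B).prodCongr (Equiv.refl Bool)) P
  have hρ' : ∀ B j b, ρ' B (P (j, b)) = P (ρ B j, b) := fun B j b =>
    Equiv.Perm.viaEmbedding_apply _ _ _
  have hconj : ∀ B j, sw P (ρ B j) * ρ' B = ρ' B * sw P j := by
    intro B j
    have := Equiv.mul_swap_eq_swap_mul (ρ' B) (P (j, false)) (P (j, true))
    rw [hρ', hρ'] at this
    exact this.symm
  have hren : ∀ (π π' : Equiv.Perm (Fin N)) (p : MvPolynomial σ ℂ),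
      rename (A.act π) (rename (A.act π') p) = rename (A.act (π * π')) p := by
    intro π π' p
    rw [rename_rename, map_mul]
    rfl
  have hT0 : ∀ j, rename (A.act (sw P j)) u = (if j ∈ oddSet Z then (-1 : ℂ) else 1) • u := by
    intro j
    rw [hu, rename_dirs, hinv, List.map_map]
    have h1 : ((fun w : σ → ℂ => w ∘ (A.act (sw P j)).symm) ∘ v) =
        fun χ => (if j ∈ χ then (-1 : ℂ) else 1) • v χ := by
      funext χ s
      have h2 : (A.act (sw P j)).symm = A.act (sw P j) := by
        have h3 : A.act (sw P j) * A.act (sw P j) = 1 := by rw [← map_mul, sw_sw, map_one]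
        exact (mul_eq_one_iff_inv_eq.1 h3)
      simp only [Function.comp_apply, h2, hv, Pi.smul_apply, smul_eq_mul]
    rw [h1, dirs_map_smul]
    congr 1
    rw [← prod_oddSet]
    exact Finset.prod_map_toList Z _
  let uB : U → MvPolynomial σ ℂ := fun B => rename (A.act (ρ' B)) u
  have huB : ∀ B, uB B = dirs (Z.toList.map fun χ => v χ ∘ (A.act (ρ' B)).symm) f := by
    intro B
    simp only [uB]
    rw [hu, rename_dirs, hinv, List.map_map]
    rfl
  have heig : ∀ (B : U) j, rename (A.act (sw P j)) (uB B) =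
      (if j ∈ B.1 then (-1 : ℂ) else 1) • uB B := by
    intro B j
    have h1 : j = ρ B ((ρ B).symm j) := by simp
    simp only [uB]
    rw [hren]
    nth_rewrite 1 [h1]
    rw [hconj, ← hren, hT0, map_smul]
    congr 1
    have h2 : (ρ B).symm j ∈ oddSet Z ↔ j ∈ B.1 := by
      rw [← hρ B, Finset.mem_map_equiv]
    simp only [h2]
  let T : Module.End ℂ (MvPolynomial σ ℂ) :=
    ∑ j : Fin M, (2 : ℂ) ^ (j : ℕ) • (rename (A.act (sw P j)) : MvPolynomial σ ℂ →ₐ[ℂ] _).toLinearMap
  have hlin : LinearIndependent ℂ uB := by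
    refine Module.End.eigenvectors_linearIndependent' T
      (fun B : U => ∑ j : Fin M, (2 : ℂ) ^ (j : ℕ) * (if j ∈ B.1 then -1 else 1)) ?_ uB ?_
    · intro B B' h
      exact Subtype.ext (sum_two_pow_injective h)
    · intro B
      refine ⟨?_, ?_⟩
      · rw [Module.End.mem_eigenspace_iff]
        simp only [T, LinearMap.coe_sum, Finset.sum_apply, LinearMap.smul_apply,
          AlgHom.toLinearMap_apply, heig, Finset.sum_smul, mul_smul]
      · simp only [uB]
        intro h
        apply hne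
        apply rename_injective _ (A.act (ρ' B)).injective
        rw [h, map_zero]
  refine hR U Z.card (fun B => Z.toList.map fun χ => v χ ∘ (A.act (ρ' B)).symm) (fun B => by simp)
    (by rw [hcardU]; exact hcard) ?_
  simp only [← huB]
  exact hlin

/-! ### Differences over finite sets -/

/-- Differences of `f` at `x` in the directions `v i`, `i ∈ Z`. -/
noncomputable def dd {ι : Type} (Z : Finset ι) (v : ι → σ → ℂ) (f : MvPolynomial σ ℂ) (x : σ → ℂ) :
    ℂ := ∑ Y ∈ Z.powerset, (-1) ^ Y.card * eval (x + ∑ i ∈ Y, v i) f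

theorem dd_insert {ι : Type} [DecidableEq ι] {Z : Finset ι} {i : ι} (hi : i ∉ Z) (v : ι → σ → ℂ)
    (f : MvPolynomial σ ℂ) (x : σ → ℂ) : dd (insert i Z) v f x = dd Z v f x - dd Z v f (x + v i) := by
  unfold dd
  rw [Finset.sum_powerset_insert hi, sub_eq_add_neg, ← Finset.sum_neg_distrib]
  congr 1
  refine Finset.sum_congr rfl fun Y hY => ?_
  have hiY : i ∉ Y := fun h => hi (Finset.mem_powerset.1 hY h)
  rw [Finset.card_insert_of_notMem hiY, Finset.sum_insert hiY, add_assoc]
  ring

theorem dd_congr {ι : Type} {Z : Finset ι} {v v' : ι → σ → ℂ} (h : ∀ i ∈ Z, v i = v' i)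
    (f : MvPolynomial σ ℂ) (x : σ → ℂ) : dd Z v f x = dd Z v' f x := by
  unfold dd
  refine Finset.sum_congr rfl fun Y hY => ?_
  rw [Finset.sum_congr rfl fun i hi => h i (Finset.mem_powerset.1 hY hi)]

theorem eval_add_sum {ι : Type} (X : Finset ι) (v : ι → σ → ℂ) (f : MvPolynomial σ ℂ) :
    ∀ x : σ → ℂ, eval (x + ∑ i ∈ X, v i) f = ∑ Z ∈ X.powerset, (-1) ^ Z.card * dd Z v f x := by
  classical
  induction X using Finset.induction_on with
  | empty =>
    intro x
    simp [dd]
  | insert i X hi ih =>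
    intro x
    rw [Finset.sum_insert hi, ← add_assoc, ih, Finset.sum_powerset_insert hi,
      ← Finset.sum_add_distrib]
    refine Finset.sum_congr rfl fun Z hZ => ?_
    have hiZ : i ∉ Z := fun h => hi (Finset.mem_powerset.1 hZ h)
    rw [Finset.card_insert_of_notMem hiZ, dd_insert hiZ]
    ring

theorem dd_toFinset {ι : Type} [DecidableEq ι] (v : ι → σ → ℂ) (f : MvPolynomial σ ℂ)
    (L : List ι) : L.Nodup → ∀ x : σ → ℂ, dd L.toFinset v f x = eval x (diffs (L.map v) f) := by
  induction L with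
  | nil => intro _ x; simp [dd, diffs]
  | cons i L ih =>
    intro hL x
    rw [List.nodup_cons] at hL
    rw [List.toFinset_cons, dd_insert (by simpa using hL.1), ih hL.2, ih hL.2, List.map_cons]
    simp only [diffs, map_sub, eval_tra]

theorem choose_mono_range {M s a : ℕ} (h1 : s ≤ a) (h2 : a + s ≤ M) : M.choose s ≤ M.choose a := by
  have key : ∀ b, s ≤ b → 2 * b ≤ M → M.choose s ≤ M.choose b := by
    intro b hb
    induction b, hb using Nat.le_induction with
    | base => intro _; exact le_rfl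
    | succ b hb ih =>
      intro h
      exact (ih (by omega)).trans (Nat.choose_le_succ_of_lt_half_left (by omega))
  by_cases h : 2 * a ≤ M
  · exact key a h1 h
  · rw [← Nat.choose_symm (show a ≤ M by omega)]
    exact key (M - a) (by omega) (by omega)

/-- The differences over a covering family vanish. -/
theorem dd_eq_zero_of_cover (A : OneSupp σ N k) (P : Fin M × Bool ↪ Fin N)
    {f : MvPolynomial σ ℂ} (hinv : A.Inv f) {R : ℕ → ℕ} (hR : DerivBound f R) {m : ℕ}
    (hm0 : 0 < m) (hM : (k + 1) * m ≤ M) (hRm : ∀ s, m ≤ k * s → s ≤ m → R s < M.choose s)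
    (v : Finset (Fin M) → σ → ℂ)
    (hv : ∀ χ j s, v χ (A.act (sw P j) s) = (if j ∈ χ then -1 else 1) * v χ s)
    (hlarge : ∀ χ, k < χ.card → v χ = 0) (c : Fin m ↪ Fin M) (Z : Finset (Finset (Fin M))) :
    (∀ j, ∃ χ ∈ Z, c j ∈ χ) → ∀ x, dd Z v f x = 0 := by
  classical
  induction Z using Finset.strongInduction with
  | H Z ih =>
    intro hcov x
    by_cases h1 : ∃ χ ∈ Z, ∀ j, ∃ χ' ∈ Z.erase χ, c j ∈ χ'
    · obtain ⟨χ, hχ, hc⟩ := h1
      rw [← Finset.insert_erase hχ, dd_insert (Finset.notMem_erase _ _),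
        ih _ (Finset.erase_ssubset hχ) hc, ih _ (Finset.erase_ssubset hχ) hc, sub_zero]
    by_cases h2 : ∃ χ ∈ Z, v χ = 0
    · obtain ⟨χ, hχ, hc⟩ := h2
      rw [← Finset.insert_erase hχ, dd_insert (Finset.notMem_erase _ _), hc, add_zero, sub_self]
    push Not at h1 h2
    have hsmall : ∀ χ ∈ Z, χ.card ≤ k := by
      intro χ hχ
      by_contra hcon
      exact h2 χ hχ (hlarge χ (by omega))
    have : Nonempty (Fin m) := ⟨⟨0, hm0⟩⟩
    choose! pr hpr using h1
    have hpr' : ∀ χ ∈ Z, ∀ χ' ∈ Z, c (pr χ) ∈ χ' → χ' = χ := by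
      intro χ hχ χ' hχ' h
      by_contra hne
      exact hpr χ hχ χ' (Finset.mem_erase.2 ⟨hne, hχ'⟩) h
    have hprm : ∀ χ ∈ Z, c (pr χ) ∈ χ := by
      intro χ hχ
      obtain ⟨χ', hχ', h⟩ := hcov (pr χ)
      have := hpr' χ hχ χ' hχ' h
      rwa [this] at h
    have hinj : Set.InjOn (fun χ => pr χ) (Z : Set (Finset (Fin M))) := by
      intro χ hχ χ' hχ' h
      have h3 := hprm χ' hχ'
      have h4 : pr χ = pr χ' := h
      rw [← h4] at h3
      exact (hpr' χ hχ χ' hχ' h3).symm
    have hs1 : Z.card ≤ m := by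
      have := Finset.card_le_card_of_injOn (s := Z) (t := (Finset.univ : Finset (Fin m)))
        (fun χ => pr χ) (fun _ _ => Finset.mem_univ _) hinj
      simpa using this
    have hs2 : m ≤ k * Z.card := by
      have h3 : (Finset.univ : Finset (Fin m)) ⊆
          Z.biUnion fun χ => Finset.univ.filter fun j => c j ∈ χ := by
        intro j _
        obtain ⟨χ, hχ, h⟩ := hcov j
        exact Finset.mem_biUnion.2 ⟨χ, hχ, Finset.mem_filter.2 ⟨Finset.mem_univ _, h⟩⟩
      have h4 := (Finset.card_le_card h3).trans Finset.card_biUnion_le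
      have h5 : ∑ χ ∈ Z, (Finset.univ.filter fun j => c j ∈ χ).card ≤ ∑ χ ∈ Z, k := by
        refine Finset.sum_le_sum fun χ hχ => ?_
        refine le_trans ?_ (hsmall χ hχ)
        exact Finset.card_le_card_of_injOn (fun j => c j) (fun j hj => by simpa using hj)
          (c.injective.injOn)
      rw [Finset.sum_const, smul_eq_mul, mul_comm] at h5
      have h6 := h4.trans h5
      simpa using h6
    have ho1 : Z.card ≤ (oddSet Z).card := by
      refine Finset.card_le_card_of_injOn (fun χ => c (pr χ)) (fun χ hχ => ?_) ?_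
      · rw [Finset.mem_coe, mem_oddSet]
        rw [Finset.prod_eq_single χ]
        · rw [if_pos (hprm χ hχ)]
        · intro χ' hχ' hne
          rw [if_neg]
          intro h
          exact hne (hpr' χ hχ χ' hχ' h)
        · intro h; exact absurd hχ h
      · intro χ hχ χ' hχ' h
        exact hinj hχ hχ' (c.injective h)
    have ho2 : (oddSet Z).card ≤ k * Z.card := by
      have h3 : oddSet Z ⊆ Z.biUnion fun χ => χ := by
        intro j hj
        by_contra hcon
        rw [mem_oddSet] at hj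
        rw [Finset.prod_eq_one] at hj
        · norm_num at hj
        · intro χ hχ
          rw [if_neg]
          intro h
          exact hcon (Finset.mem_biUnion.2 ⟨χ, hχ, h⟩)
      have h4 := (Finset.card_le_card h3).trans Finset.card_biUnion_le
      have h5 : ∑ χ ∈ Z, χ.card ≤ ∑ χ ∈ Z, k := Finset.sum_le_sum hsmall
      rw [Finset.sum_const, smul_eq_mul, mul_comm] at h5
      exact h4.trans h5
    have hbd : R Z.card < M.choose (oddSet Z).card := by
      refine (hRm _ hs2 hs1).trans_le (choose_mono_range ho1 ?_)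
      have h3 : k * Z.card ≤ k * m := Nat.mul_le_mul_left _ hs1
      calc (oddSet Z).card + Z.card ≤ k * m + m := by omega
        _ = (k + 1) * m := by ring
        _ ≤ M := hM
    have h3 := dirs_eq_zero_of_chars A P hinv hR Z v hv hbd
    have h4 := diffs_eq_zero _ _ h3
    have h5 := dd_toFinset v f Z.toList Z.nodup_toList x
    rw [Finset.toList_toFinset, h4, map_zero] at h5
    exact h5

end Pool.Agent.Lib.MP_00289a_lc_h78
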