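import Pool.Agent.Lib.MP_00289a_lc_h78.Supp3

open MvPolynomial Filter Topology

namespace Pool.Agent.Lib.MP_00289a_lc_h78

open Pool.Agent.Lib.MP_00289a_lc_h67

variable {σ : Type} {N k M : ℕ}

namespace OneSupp

variable (A : OneSupp σ N k)

/-- Iterated merging differences of `f`. -/
noncomputable def Dif (f : MvPolynomial σ ℂ) : List (Fin N × Fin N) → (σ → ℂ) → ℂ
  | [], x => eval x f
  | p :: D, x => Dif f D x - Dif f D (A.mrg p.1 p.2 x)

/-- Merging some of the pairs. -/
noncomputable def mg : {m : ℕ} → (Fin m → Fin N × Fin N) → (Fin m → Bool) → (σ → ℂ) → (σ → ℂ)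
  | 0, _, _, x => x
  | _ + 1, p, g, x => mg (fun i => p i.succ) (fun i => g i.succ)
      (if g 0 then A.mrg (p 0).1 (p 0).2 x else x)

theorem mg_succ {m : ℕ} (p : Fin (m + 1) → Fin N × Fin N) (g : Fin (m + 1) → Bool) (x : σ → ℂ) :
    A.mg p g x = A.mg (fun i => p i.succ) (fun i => g i.succ)
      (if g 0 then A.mrg (p 0).1 (p 0).2 x else x) := rfl

theorem Dif_ofFn (f : MvPolynomial σ ℂ) {m : ℕ} (p : Fin m → Fin N × Fin N) :
    ∀ x : σ → ℂ, A.Dif f (List.ofFn p) x = ∑ g : Fin m → Bool, sgn g * eval (A.mg p g x) f := by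
  induction m with
  | zero =>
    intro x
    simp [Dif, sgn, mg]
  | succ m ih =>
    intro x
    rw [List.ofFn_succ]
    simp only [Dif, ih]
    rw [← (Fin.consEquiv fun _ : Fin (m + 1) => Bool).sum_comp, Fintype.sum_prod_type]
    simp only [Fintype.sum_bool]
    have hs : ∀ (b : Bool) (g : Fin m → Bool),
        sgn (Fin.cons b g : Fin (m + 1) → Bool) = (if b then -1 else 1) * sgn g := by
      intro b g
      simp only [sgn, Fin.prod_univ_succ, Fin.cons_zero, Fin.cons_succ]
    have hp : ∀ (b : Bool) (g : Fin m → Bool),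
        A.mg p (Fin.cons b g : Fin (m + 1) → Bool) x =
          A.mg (fun i => p i.succ) g (if b then A.mrg (p 0).1 (p 0).2 x else x) := by
      intro b g
      rw [mg_succ]
      simp only [Fin.cons_zero, Fin.cons_succ]
    rw [sub_eq_add_neg, add_comm, ← Finset.sum_neg_distrib]
    congr 1
    · refine Finset.sum_congr rfl fun g _ => ?_
      refine Eq.trans ?_ (congrArg₂ (fun a b => a * eval b f) (hs true g) (hp true g)).symm
      simp
    · refine Finset.sum_congr rfl fun g _ => ?_
      refine Eq.trans ?_ (congrArg₂ (fun a b => a * eval b f) (hs false g) (hp false g)).symm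
      simp

/-- Disjoint pairs -/
def PDisj (p q : Fin N × Fin N) : Prop := p.1 ≠ q.1 ∧ p.1 ≠ q.2 ∧ p.2 ≠ q.1 ∧ p.2 ≠ q.2

theorem mg_mrg {m : ℕ} (p : Fin m → Fin N × Fin N) (g : Fin m → Bool) (q : Fin N × Fin N)
    (hq : ∀ i, PDisj q (p i)) : ∀ x : σ → ℂ,
      A.mg p g (A.mrg q.1 q.2 x) = A.mrg q.1 q.2 (A.mg p g x) := by
  induction m with
  | zero => intro x; rfl
  | succ m ih =>
    intro x
    rw [mg_succ, mg_succ]
    split_ifs
    · obtain ⟨h1, h2, h3, h4⟩ := hq 0
      rw [← A.mrg_comm h1 h2 h3 h4, ih _ _ (fun i => hq i.succ)]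
    · rw [ih _ _ (fun i => hq i.succ)]

theorem mg_update {m : ℕ} (p : Fin m → Fin N × Fin N) (hp : ∀ i j, i ≠ j → PDisj (p i) (p j))
    (g : Fin m → Bool) (j : Fin m) : ∀ x : σ → ℂ,
      A.mg p (Function.update g j true) x =
        A.mrg (p j).1 (p j).2 (A.mg p (Function.update g j false) x) := by
  induction m with
  | zero => exact Fin.elim0 j
  | succ m ih =>
    intro x
    rw [mg_succ, mg_succ]
    induction j using Fin.cases with
    | zero =>
      have h1 : ∀ b, (fun i : Fin m => Function.update g 0 b i.succ) = fun i => g i.succ := by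
        intro b
        funext i
        rw [Function.update_of_ne (Fin.succ_ne_zero i)]
      rw [h1, h1, Function.update_self, Function.update_self, if_pos rfl]
      simp only [Bool.false_eq_true, if_false]
      exact A.mg_mrg _ _ (p 0) (fun i => hp 0 i.succ (Fin.succ_ne_zero i).symm) x
    | succ j =>
      have h1 : ∀ b, (fun i : Fin m => Function.update g j.succ b i.succ) =
          Function.update (fun i : Fin m => g i.succ) j b := by
        intro b
        funext i
        by_cases hi : i = j
        · subst hi; simp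
        · rw [Function.update_of_ne (fun h => hi (Fin.succ_injective _ h)),
            Function.update_of_ne hi]
      have h2 : ∀ b, Function.update g j.succ b 0 = g 0 := fun b => by
        rw [Function.update_of_ne (Fin.succ_ne_zero j).symm]
      rw [h1, h1, h2, h2]
      exact ih (fun i => p i.succ) (fun i i' h => hp _ _ (fun h' => h (Fin.succ_injective _ h'))) _ j _

/-- The component of a character is not changed by merging a pair outside of the character. -/
theorem comp_mrg (P : Fin M × Bool ↪ Fin N) {χ : Finset (Fin M)} {j : Fin M} (hj : j ∉ χ)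
    (x : σ → ℂ) : A.comp P χ (A.mrg (P (j, false)) (P (j, true)) x) = A.comp P χ x := by
  have h1 := A.comp_anti P hj (A.mrg (P (j, false)) (P (j, true)) x - x) (fun s =>
    A.mrg_sub_anti (P (j, false)) (P (j, true)) x s)
  rw [comp_sub, sub_eq_zero] at h1
  exact h1

theorem dd_comp_eq_zero (P : Fin M × Bool ↪ Fin N) {f : MvPolynomial σ ℂ} (hinv : A.Inv f)
    {R : ℕ → ℕ} (hR : DerivBound f R)
    {m : ℕ} (hm0 : 0 < m) (hM : (k + 1) * m ≤ M) (hRm : ∀ s, m ≤ k * s → s ≤ m → R s < M.choose s)
    (c : Fin m ↪ Fin M) (Z : Finset (Finset (Fin M))) (hcov : ∀ j, ∃ χ ∈ Z, c j ∈ χ) (y : σ → ℂ) :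
    dd Z (fun χ => A.comp P χ y) f 0 = 0 :=
  dd_eq_zero_of_cover A P hinv hR hm0 hM hRm (fun χ => A.comp P χ y)
    (fun χ j s => A.comp_sw P χ y j s) (fun _ hχ => A.comp_large P hχ y) c Z hcov 0

/-- **The `m`-fold merging differences of disjoint pairs vanish.** -/
theorem Dif_eq_zero {f : MvPolynomial σ ℂ} (hinv : A.Inv f) {R : ℕ → ℕ} (hR : DerivBound f R)
    {m : ℕ} (hm0 : 0 < m) (hM : (k + 1) * m ≤ M) (hRm : ∀ s, m ≤ k * s → s ≤ m → R s < M.choose s)
    (P : Fin M × Bool ↪ Fin N) (c : Fin m ↪ Fin M) (x : σ → ℂ) :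
    A.Dif f (List.ofFn fun j => (P (c j, false), P (c j, true))) x = 0 := by
  classical
  set p : Fin m → Fin N × Fin N := fun j => (P (c j, false), P (c j, true)) with hp
  have hdisj : ∀ i j, i ≠ j → PDisj (p i) (p j) := by
    intro i j hij
    have h1 : ∀ b b', P (c i, b) ≠ P (c j, b') := by
      intro b b' h
      have := P.injective h
      simp only [Prod.mk.injEq] at this
      exact hij (c.injective this.1)
    exact ⟨h1 _ _, h1 _ _, h1 _ _, h1 _ _⟩
  rw [Dif_ofFn]
  have h1 : ∀ g : Fin m → Bool, eval (A.mg p g x) f =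
      ∑ Z ∈ (Finset.univ : Finset (Finset (Fin M))).powerset, (-1) ^ Z.card *
        dd Z (fun χ => A.comp P χ (A.mg p g x)) f 0 := by
    intro g
    rw [← eval_add_sum, A.sum_comp P, zero_add]
  simp only [h1, Finset.mul_sum]
  rw [Finset.sum_comm]
  apply Finset.sum_eq_zero
  intro Z _
  by_cases hcov : ∀ j, ∃ χ ∈ Z, c j ∈ χ
  · apply Finset.sum_eq_zero
    intro g _
    rw [A.dd_comp_eq_zero P hinv hR hm0 hM hRm c Z hcov, mul_zero, mul_zero]
  · push Not at hcov
    obtain ⟨j, hj⟩ := hcov
    refine sum_sgn_eq_zero j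
      (fun g => (-1) ^ Z.card * dd Z (fun χ => A.comp P χ (A.mg p g x)) f 0) ?_
    intro g
    have key : ∀ χ ∈ Z, A.comp P χ (A.mg p (Function.update g j (!(g j))) x) =
        A.comp P χ (A.mg p g x) := by
      intro χ hχ
      have h2 : A.comp P χ (A.mg p (Function.update g j true) x) =
          A.comp P χ (A.mg p (Function.update g j false) x) := by
        rw [A.mg_update p hdisj]
        exact A.comp_mrg P (hj χ hχ) _
      cases hg : g j
      · have h3 : Function.update g j false = g := by rw [← hg, Function.update_eq_self]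
        rw [h3] at h2
        exact h2
      · have h3 : Function.update g j true = g := by rw [← hg, Function.update_eq_self]
        rw [h3] at h2
        exact h2.symm
    exact congrArg (fun c => (-1) ^ Z.card * c)
      (dd_congr (Z := Z) (v := fun χ => A.comp P χ (A.mg p (Function.update g j (!(g j))) x))
        (v' := fun χ => A.comp P χ (A.mg p g x)) key f 0)

end OneSupp

end Pool.Agent.Lib.MP_00289a_lc_h78
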