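import Pool.Agent.Lib.MP_00289a_lc_h78.Supp4

open MvPolynomial Filter Topology

namespace Pool.Agent.Lib.MP_00289a_lc_h78

open Pool.Agent.Lib.MP_00289a_lc_h67

variable {σ : Type} {N k : ℕ}

namespace OneSupp

variable (A : OneSupp σ N k)

/-- The form `Dif_eq_zero` for lists of pairs. -/
theorem Dif_eq_zero_list {f : MvPolynomial σ ℂ} (hinv : A.Inv f) {R : ℕ → ℕ} (hR : DerivBound f R)
    {m : ℕ} (hm0 : 0 < m) (hM : (k + 1) * m ≤ N / 2)
    (hRm : ∀ s, m ≤ k * s → s ≤ m → R s < (N / 2).choose s)
    (D : List (Fin N × Fin N)) (hlen : D.length = m) (hD : D.Pairwise PDisj)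
    (hD' : ∀ p ∈ D, p.1 ≠ p.2) (x : σ → ℂ) : A.Dif f D x = 0 := by
  classical
  subst hlen
  have hle : D.length ≤ N / 2 := by
    have : 1 * D.length ≤ (k + 1) * D.length := Nat.mul_le_mul_right _ (by omega)
    omega
  let c : Fin D.length ↪ Fin (N / 2) := Fin.castLEEmb hle
  let P₀ : Fin (N / 2) × Bool ↪ Fin N :=
    ⟨fun p => ⟨2 * p.1 + (if p.2 then 1 else 0), by have := p.1.2; split_ifs <;> omega⟩, by
      rintro ⟨j, b⟩ ⟨j', b'⟩ h
      have h' : 2 * (j : ℕ) + (if b then 1 else 0) = 2 * (j' : ℕ) + (if b' then 1 else 0) :=
        congrArg Fin.val h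
      have hb' : b = b' := by
        cases b <;> cases b' <;> simp_all <;> omega
      subst hb'
      have : j = j' := Fin.ext (by split_ifs at h' <;> omega)
      rw [this]⟩
  have hpair := List.pairwise_iff_get.1 hD
  have hdis : ∀ i j : Fin D.length, i ≠ j → PDisj (D.get i) (D.get j) := by
    intro i j hij
    rcases lt_or_gt_of_ne hij with h | h
    · exact hpair i j h
    · obtain ⟨h1, h2, h3, h4⟩ := hpair j i h
      exact ⟨h1.symm, h3.symm, h2.symm, h4.symm⟩
  obtain ⟨π, hπ⟩ := Equiv.Perm.exists_extending_pair
    (fun p : Fin D.length × Bool => P₀ (c p.1, p.2))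
    (fun p : Fin D.length × Bool => if p.2 then (D.get p.1).2 else (D.get p.1).1)
    (by
      rintro ⟨j, b⟩ ⟨j', b'⟩ h
      have := P₀.injective h
      simp only [Prod.mk.injEq] at this
      rw [c.injective this.1, this.2])
    (by
      rintro ⟨j, b⟩ ⟨j', b'⟩ h
      by_cases hj : j = j'
      · subst hj
        have h0 := hD' (D.get j) (List.get_mem _ _)
        cases b <;> cases b'
        · rfl
        · exact absurd h h0
        · exact absurd (Eq.symm h) h0
        · rfl
      · exfalso
        obtain ⟨h1, h2, h3, h4⟩ := hdis j j' hj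
        cases b <;> cases b' <;> simp_all)
  have h0 := A.Dif_eq_zero hinv hR hm0 hM hRm (P₀.trans π.toEmbedding) c x
  have h1 : (List.ofFn fun j => ((P₀.trans π.toEmbedding) (c j, false),
      (P₀.trans π.toEmbedding) (c j, true))) = D := by
    conv_rhs => rw [← List.ofFn_get D]
    congr 1
    funext j
    have h2 := hπ (j, false)
    have h3 := hπ (j, true)
    simp only [Bool.false_eq_true, if_false, if_true] at h2 h3
    apply Prod.ext
    · exact h2
    · exact h3
  rw [h1] at h0
  exact h0

/-- merging preserves the isolation of other indices -/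
theorem mrg_isolated {a b i : Fin N} (hia : i ≠ a) (hib : i ≠ b) {y : σ → ℂ}
    (hy : ∀ s, i ∈ A.supp s → y s = 0) {s : σ} (hs : i ∈ A.supp s) : A.mrg a b y s = 0 := by
  rw [mrg_apply]
  have h1 := hy s hs
  have h2 := hy (A.act (Equiv.swap a b) s) ((A.mem_other hia hib s).2 hs)
  rw [h1, h2]
  split_ifs <;> simp

/-- The successive merges of `c` into the elements of a list. -/
noncomputable def mrgL (c : Fin N) : List (Fin N) → (σ → ℂ) →ₗ[ℂ] (σ → ℂ)
  | [] => LinearMap.id
  | a :: as => mrgL c as ∘ₗ A.mrg a c

theorem mrgL_isolated {c i : Fin N} (hic : i ≠ c) (as : List (Fin N)) (has : i ∉ as) :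
    ∀ {y : σ → ℂ}, (∀ s, i ∈ A.supp s → y s = 0) → ∀ {s : σ}, i ∈ A.supp s →
      A.mrgL c as y s = 0 := by
  induction as with
  | nil => intro y hy s hs; exact hy s hs
  | cons a as ih =>
    intro y hy s hs
    rw [List.mem_cons, not_or] at has
    exact ih has.2 (fun s' hs' => A.mrg_isolated has.1 hic hy hs') hs

theorem mrgL_mem {c : Fin N} (as : List (Fin N)) : ∀ {y : σ → ℂ} {s : σ}, c ∈ A.supp s →
    A.mrgL c as y s ≠ 0 → (∀ a ∈ as, a ∈ A.supp s) ∧ y s ≠ 0 := by
  induction as with
  | nil => intro y s _ h; exact ⟨fun a ha => absurd ha (List.not_mem_nil), h⟩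
  | cons a as ih =>
    intro y s hc h
    obtain ⟨h1, h2⟩ := ih (y := A.mrg a c y) hc h
    have ha : a ∈ A.supp s := by
      by_contra hcon
      exact h2 (A.mrg_apply_b y hc hcon)
    rw [A.mrg_apply_eq y (by tauto)] at h2
    refine ⟨?_, h2⟩
    intro a' ha'
    rcases List.mem_cons.1 ha' with rfl | h3
    · exact ha
    · exact h1 a' h3

/-- After merging `c` into `k` other indices, `c` is isolated. -/
theorem mrgL_c {c : Fin N} {as : List (Fin N)} (hlen : as.length = k) (hnd : as.Nodup)
    (hc : c ∉ as) (y : σ → ℂ) {s : σ} (hs : c ∈ A.supp s) : A.mrgL c as y s = 0 := by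
  classical
  by_contra hne
  obtain ⟨h1, -⟩ := A.mrgL_mem as hs hne
  have h2 : (c :: as).toFinset ⊆ A.supp s := by
    intro i hi
    rw [List.mem_toFinset, List.mem_cons] at hi
    rcases hi with rfl | hi
    · exact hs
    · exact h1 i hi
  have h3 := Finset.card_le_card h2
  rw [List.toFinset_card_of_nodup (List.nodup_cons.2 ⟨hc, hnd⟩), List.length_cons, hlen] at h3
  have := A.card_supp s
  omega

/-- The index is used in the list of pairs or in the list of indices. -/
def Used (D : List (Fin N × Fin N)) (l : List (Fin N)) (i : Fin N) : Prop :=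
  i ∈ l ∨ ∃ p ∈ D, i = p.1 ∨ i = p.2

/-- leaves -/
theorem leafD {f : MvPolynomial σ ℂ} {d C : ℕ} (hd : d ≠ 0) (B : Finset (Fin N))
    (hleaf : ∀ T : (σ → ℂ) →ₗ[ℂ] (σ → ℂ), (∀ x s i, i ∈ A.supp s → i ∉ B → T x s = 0) →
      HasW d C (fun x => eval (T x) f))
    (D : List (Fin N × Fin N)) (hD : ∀ p ∈ D, p.1 ∈ B ∧ p.2 ∈ B) :
    ∀ T : (σ → ℂ) →ₗ[ℂ] (σ → ℂ), (∀ x s i, i ∈ A.supp s → i ∉ B → T x s = 0) →
      HasW d (2 ^ D.length * C) (fun x => A.Dif f D (T x)) := by
  induction D with
  | nil =>
    intro T hT
    simpa [Dif] using hleaf T hT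
  | cons p D ih =>
    intro T hT
    have hD' := fun q hq => hD q (List.mem_cons_of_mem _ hq)
    have hp := hD p List.mem_cons_self
    have h1 := ih hD' T hT
    have h2 := ih hD' (A.mrg p.1 p.2 ∘ₗ T) (by
      intro x s i hi hiB
      have hi1 : i ≠ p.1 := by rintro rfl; exact hiB hp.1
      have hi2 : i ≠ p.2 := by rintro rfl; exact hiB hp.2
      exact A.mrg_isolated hi1 hi2 (fun s' hs' => hT x s' i hs' hiB) hi)
    have h3 := h1.sub hd h2
    have h4 : 2 ^ D.length * C + 2 ^ D.length * C = 2 ^ (p :: D).length * C := by
      rw [List.length_cons, pow_succ]; ring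
    rw [h4] at h3
    exact h3

/-- **The recursion.** -/
theorem rec_bound {f : MvPolynomial σ ℂ} {d C m L : ℕ} (hd : d ≠ 0) (hL : 2 * (m - 1) + k ≤ L)
    (hzero : ∀ D : List (Fin N × Fin N), D.length = m → D.Pairwise PDisj →
      (∀ p ∈ D, p.1 ≠ p.2) → ∀ x, A.Dif f D x = 0)
    (hleaf : ∀ B : Finset (Fin N), B.card ≤ L → ∀ T : (σ → ℂ) →ₗ[ℂ] (σ → ℂ),
      (∀ x s i, i ∈ A.supp s → i ∉ B → T x s = 0) → HasW d C (fun x => eval (T x) f)) (n : ℕ) :
    ∀ (j : ℕ) (D : List (Fin N × Fin N)) (l : List (Fin N)) (T : (σ → ℂ) →ₗ[ℂ] (σ → ℂ)),
      l.length = n → D.length + j = m → D.Pairwise PDisj → (∀ p ∈ D, p.1 ≠ p.2) → l.Nodup →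
      (∀ p ∈ D, p.1 ∉ l ∧ p.2 ∉ l) → (∀ x s i, i ∈ A.supp s → ¬ Used D l i → T x s = 0) →
      HasW d (if j = 0 then 0 else 2 ^ (m - 1) * C * (k * n + 1) ^ (j - 1))
        (fun x => A.Dif f D (T x)) := by
  classical
  induction n using Nat.strong_induction_on with
  | _ n ih =>
    intro j D l T hn hj hD hD' hl hDl hT
    rcases Nat.eq_zero_or_pos j with hj0 | hj0
    · subst hj0
      rw [if_pos rfl]
      have h0 : (fun x => A.Dif f D (T x)) = fun _ => 0 := by
        funext x
        exact hzero D (by omega) hD hD' _
      rw [h0]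
      exact hasW_zero
    · rw [if_neg (by omega)]
      by_cases hlk : l.length ≤ k
      · -- a leaf
        set B : Finset (Fin N) := l.toFinset ∪ (D.flatMap fun p => [p.1, p.2]).toFinset with hB
        have hmem : ∀ i, i ∈ B ↔ Used D l i := by
          intro i
          simp only [hB, Finset.mem_union, List.mem_toFinset, List.mem_flatMap, Used]
          simp
        have hcard : B.card ≤ L := by
          have h1 : B.card ≤ l.length + (D.flatMap fun p => [p.1, p.2]).length :=
            (Finset.card_union_le _ _).trans
              (Nat.add_le_add (List.toFinset_card_le _) (List.toFinset_card_le _))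
          have h2 : (D.flatMap fun p => [p.1, p.2]).length = D.length * 2 := by
            rw [List.length_flatMap]
            simp
          omega
        have h1 := A.leafD hd B (hleaf B hcard) D (fun p hp =>
          ⟨(hmem _).2 (Or.inr ⟨p, hp, Or.inl rfl⟩), (hmem _).2 (Or.inr ⟨p, hp, Or.inr rfl⟩)⟩) T
          (fun x s i hi hiB => hT x s i hi (fun h => hiB ((hmem i).2 h)))
        refine h1.mono hd ?_
        have h2 : 2 ^ D.length ≤ 2 ^ (m - 1) := Nat.pow_le_pow_right (by norm_num) (by omega)
        calc 2 ^ D.length * C ≤ 2 ^ (m - 1) * C := Nat.mul_le_mul_right _ h2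
          _ ≤ 2 ^ (m - 1) * C * (k * n + 1) ^ (j - 1) := Nat.le_mul_of_pos_right _ (by positivity)
      · match l, hn, hl, hDl, hT, hlk with
        | [], hn, hl, hDl, hT, hlk => simp at hlk
        | c :: l', hn, hl, hDl, hT, hlk =>
          rw [List.nodup_cons] at hl
          simp only [List.length_cons] at hn hlk
          set B1 : ℕ := if j - 1 = 0 then 0 else 2 ^ (m - 1) * C * (k * (n - 2) + 1) ^ (j - 1 - 1)
            with hB1
          -- the inner recursion
          have inner : ∀ (as : List (Fin N)), (∀ a ∈ as, a ∈ l') → ∀ (B0 : ℕ)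
              (T' : (σ → ℂ) →ₗ[ℂ] (σ → ℂ)),
              (∀ x s i, i ∈ A.supp s → ¬ Used D (c :: l') i → T' x s = 0) →
              HasW d B0 (fun x => A.Dif f D (A.mrgL c as (T' x))) →
              HasW d (B0 + as.length * B1) (fun x => A.Dif f D (T' x)) := by
            intro as
            induction as with
            | nil =>
              intro _ B0 T' _ h
              simpa [mrgL] using h
            | cons a as iha =>
              intro has B0 T' hT' h
              have hal : a ∈ l' := has a List.mem_cons_self
              have hac : a ≠ c := by rintro rfl; exact hl.1 hal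
              have h1 := iha (fun a' ha' => has a' (List.mem_cons_of_mem _ ha')) B0
                (A.mrg a c ∘ₗ T') (by
                  intro x s i hi hu
                  have hia : i ≠ a := by
                    rintro rfl; exact hu (Or.inl (List.mem_cons_of_mem _ hal))
                  have hic : i ≠ c := by
                    rintro rfl; exact hu (Or.inl List.mem_cons_self)
                  exact A.mrg_isolated hia hic (fun s' hs' => hT' x s' i hs' hu) hi) h
              have hlen2 : (l'.erase a).length = n - 2 := by
                rw [List.length_erase_of_mem hal]; omega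
              have h2 := ih (n - 2) (by have := List.length_pos_of_mem hal; omega) (j - 1)
                ((a, c) :: D) (l'.erase a) T' hlen2
                (by rw [List.length_cons]; omega)
                (by
                  rw [List.pairwise_cons]
                  refine ⟨fun q hq => ?_, hD⟩
                  obtain ⟨h3, h4⟩ := hDl q hq
                  refine ⟨?_, ?_, ?_, ?_⟩
                  · rintro rfl; exact h3 (List.mem_cons_of_mem _ hal)
                  · rintro rfl; exact h4 (List.mem_cons_of_mem _ hal)
                  · rintro rfl; exact h3 List.mem_cons_self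
                  · rintro rfl; exact h4 List.mem_cons_self)
                (by
                  intro p hp
                  rcases List.mem_cons.1 hp with rfl | hp
                  · exact hac
                  · exact hD' p hp)
                (hl.2.erase a)
                (by
                  intro p hp
                  rcases List.mem_cons.1 hp with rfl | hp
                  · refine ⟨?_, ?_⟩
                    · exact fun h3 => (List.Nodup.mem_erase_iff hl.2).1 h3 |>.1 rfl
                    · exact fun h3 => hl.1 (List.mem_of_mem_erase h3)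
                  · obtain ⟨h3, h4⟩ := hDl p hp
                    exact ⟨fun h5 => h3 (List.mem_cons_of_mem _ (List.mem_of_mem_erase h5)),
                      fun h5 => h4 (List.mem_cons_of_mem _ (List.mem_of_mem_erase h5))⟩)
                (by
                  intro x s i hi hu
                  apply hT' x s i hi
                  rintro (h3 | ⟨p, hp, h3⟩)
                  · apply hu
                    rcases List.mem_cons.1 h3 with rfl | h4
                    · exact Or.inr ⟨(a, i), List.mem_cons_self, Or.inr rfl⟩
                    · by_cases hia : i = a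
                      · subst hia
                        exact Or.inr ⟨(i, c), List.mem_cons_self, Or.inl rfl⟩
                      · exact Or.inl ((List.mem_erase_of_ne hia).2 h4)
                  · exact hu (Or.inr ⟨p, List.mem_cons_of_mem _ hp, h3⟩))
              have h3 := h1.add h2
              have h4 : (fun x => A.Dif f D ((A.mrg a c ∘ₗ T') x) + A.Dif f ((a, c) :: D) (T' x)) =
                  fun x => A.Dif f D (T' x) := by
                funext x
                simp only [Dif, LinearMap.comp_apply]
                ring
              rw [h4] at h3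
              refine h3.mono hd ?_
              rw [List.length_cons, ← hB1]
              ring_nf
              exact le_rfl
          have hk : k ≤ l'.length := by omega
          have h1 := ih (n - 1) (by omega) j D l' (A.mrgL c (l'.take k) ∘ₗ T) (by omega) hj hD hD'
            hl.2 (fun p hp => ⟨fun h => (hDl p hp).1 (List.mem_cons_of_mem _ h),
              fun h => (hDl p hp).2 (List.mem_cons_of_mem _ h)⟩) (by
              intro x s i hi hu
              have hcas : c ∉ l'.take k := fun h => hl.1 (List.mem_of_mem_take h)
              by_cases hic : i = c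
              · subst hic
                exact A.mrgL_c (by rw [List.length_take]; omega) (hl.2.sublist (List.take_sublist _ _))
                  hcas _ hi
              · refine A.mrgL_isolated hic _ ?_ (fun s' hs' => hT x s' i hs' ?_) hi
                · exact fun h => hu (Or.inl (List.mem_of_mem_take h))
                · rintro (h2 | h2)
                  · rcases List.mem_cons.1 h2 with h3 | h3
                    · exact hic h3
                    · exact hu (Or.inl h3)
                  · exact hu (Or.inr h2))
          have h2 := inner (l'.take k) (fun a ha => List.mem_of_mem_take ha) _ T hT h1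
          refine h2.mono hd ?_
          rw [if_neg (by omega), List.length_take, min_eq_left hk, hB1]
          obtain ⟨n', rfl⟩ : ∃ n', n = n' + 1 := ⟨n - 1, by omega⟩
          rcases Nat.lt_or_ge j 2 with hj2 | hj2
          · have : j = 1 := by omega
            subst this
            simp
          · rw [if_neg (by omega)]
            obtain ⟨j', rfl⟩ : ∃ j', j = j' + 2 := ⟨j - 2, by omega⟩
            have e1 : j' + 2 - 1 = j' + 1 := by omega
            have e2 : j' + 2 - 1 - 1 = j' := by omega
            have e3 : n' + 1 - 1 = n' := by omega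
            rw [e2, e1, e3]
            have h5 : (k * (n' + 1 - 2) + 1) ^ j' ≤ (k * n' + 1) ^ j' := by
              apply Nat.pow_le_pow_left
              have : k * (n' + 1 - 2) ≤ k * n' := Nat.mul_le_mul_left _ (by omega)
              omega
            have h6 : (k * n' + 1) ^ j' ≤ (k * (n' + 1) + 1) ^ j' := by
              apply Nat.pow_le_pow_left
              have : k * n' ≤ k * (n' + 1) := Nat.mul_le_mul_left _ (by omega)
              omega
            calc 2 ^ (m - 1) * C * (k * n' + 1) ^ (j' + 1) +
                  k * (2 ^ (m - 1) * C * (k * (n' + 1 - 2) + 1) ^ j')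
                ≤ 2 ^ (m - 1) * C * (k * n' + 1) ^ (j' + 1) +
                  k * (2 ^ (m - 1) * C * (k * n' + 1) ^ j') :=
                  Nat.add_le_add_left (Nat.mul_le_mul_left _ (Nat.mul_le_mul_left _ h5)) _
              _ = 2 ^ (m - 1) * C * ((k * (n' + 1) + 1) * (k * n' + 1) ^ j') := by ring
              _ ≤ 2 ^ (m - 1) * C * ((k * (n' + 1) + 1) * (k * (n' + 1) + 1) ^ j') :=
                  Nat.mul_le_mul_left _ (Nat.mul_le_mul_left _ h6)
              _ = 2 ^ (m - 1) * C * (k * (n' + 1) + 1) ^ (j' + 1) := by ring

end OneSupp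

end Pool.Agent.Lib.MP_00289a_lc_h78
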