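import Pool.Agent.Lib.MP_00289a_lc_h78.Supp5
import Pool.Agent.Lib.MP_00289a_lc_h78.ChowRank

open MvPolynomial Filter Topology

namespace Pool.Agent.Lib.MP_00289a_lc_h78

open Pool.Agent.Lib.MP_00289a_lc_h67

variable {σ : Type} {N k : ℕ}

/-- A linearly independent finite family has dual functionals. -/
theorem exists_dual {E U : Type} [AddCommGroup E] [Module ℂ E] [Fintype U] [DecidableEq U]
    {p : U → E} (h : LinearIndependent ℂ p) :
    ∃ φ : E →ₗ[ℂ] (U → ℂ), ∀ u, φ (p u) = Pi.single u 1 := by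
  have h1 := linearIndependent_iff_injective_fintypeLinearCombination.1 h
  obtain ⟨φ, hφ⟩ := LinearMap.exists_leftInverse_of_injective (Fintype.linearCombination ℂ p)
    (LinearMap.ker_eq_bot.2 h1)
  refine ⟨φ, fun u => ?_⟩
  have h2 := LinearMap.congr_fun hφ (Pi.single u 1)
  rw [LinearMap.comp_apply, Fintype.linearCombination_apply_single, one_smul] at h2
  exact h2

theorem dirs_prod_eq_list [Fintype σ] {d m : ℕ} (a : Fin d → σ → ℂ) (ws : List (σ → ℂ))
    (hws : ws.length = m) :
    ∃ c : Fac d m → ℂ, dirs ws (∏ i, linForm (a i)) =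
      ∑ J : Fac d m, c J • ∏ i ∈ J.1, linForm (a i) := by
  subst hws
  have h := dirs_prod_eq a ws.get
  rw [List.ofFn_get] at h
  exact h

theorem dirs_pow_eq [Fintype σ] (a : σ → ℂ) (ws : List (σ → ℂ)) : ∀ d : ℕ,
    ∃ c : ℂ, dirs ws (linForm a ^ d) = c • linForm a ^ (d - ws.length) := by
  induction ws with
  | nil => intro d; exact ⟨1, by simp [dirs_nil]⟩
  | cons w ws ih =>
    intro d
    obtain ⟨c, hc⟩ := ih (d - 1)
    refine ⟨(d : ℂ) * ((∑ s, a s * w s) * c), ?_⟩
    have h1 : dir w (linForm a ^ d) = (d : ℂ) • (∑ s, a s * w s) • linForm a ^ (d - 1) := by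
      rw [Derivation.leibniz_pow, dir_linForm, smul_eq_mul, mul_comm, ← smul_eq_C_mul,
        ← Nat.cast_smul_eq_nsmul ℂ]
    rw [dirs_cons, h1, map_smul, map_smul, hc, List.length_cons, smul_smul, smul_smul]
    rw [show d - 1 - ws.length = d - (ws.length + 1) by omega, mul_assoc]

theorem derivBound_chow [Fintype σ] {f : MvPolynomial σ ℂ} {d r : ℕ}
    (hb : borderChowRank d f ≤ r) : DerivBound f (fun s => r * d.choose s) := by
  classical
  intro U _ s w hw hcard hlin
  obtain ⟨φ, hφ⟩ := exists_dual hlin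
  let Mm : MvPolynomial σ ℂ →ₗ[ℂ] Matrix U U ℂ :=
    { toFun := fun p => Matrix.of fun u v => φ (dirs (w u) p) v
      map_add' := fun p p' => by
        ext u v
        simp
      map_smul' := fun a p => by
        ext u v
        simp }
  have hM : ∀ a : Fin d → σ → ℂ, ∃ (P : Matrix U (Fac d s) ℂ) (Q : Matrix (Fac d s) U ℂ),
      Mm (∏ j, linForm (a j)) = P * Q := by
    intro a
    choose P hP using fun u => dirs_prod_eq_list a (w u) (hw u)
    refine ⟨Matrix.of P, Matrix.of fun T v => φ (∏ i ∈ T.1, linForm (a i)) v, ?_⟩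
    ext u v
    simp only [Mm, LinearMap.coe_mk, AddHom.coe_mk, Matrix.of_apply, Matrix.mul_apply]
    rw [hP u, map_sum, Finset.sum_apply]
    simp only [map_smul, Pi.smul_apply, smul_eq_mul]
  have hdet := det_eq_zero_of_borderChow (K := Fac d s) hb Mm hM (by rw [card_fac]; exact hcard)
  have h1 : Mm f = 1 := by
    ext u v
    simp only [Mm, LinearMap.coe_mk, AddHom.coe_mk, Matrix.of_apply, hφ, Matrix.one_apply,
      Pi.single_apply, eq_comm]
  rw [h1, Matrix.det_one] at hdet
  exact one_ne_zero hdet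

theorem derivBound_waring [Fintype σ] {f : MvPolynomial σ ℂ} {d r : ℕ}
    (hb : borderWaringRank d f ≤ r) : DerivBound f (fun _ => r) := by
  classical
  intro U _ s w hw hcard hlin
  obtain ⟨φ, hφ⟩ := exists_dual hlin
  let Mm : MvPolynomial σ ℂ →ₗ[ℂ] Matrix U U ℂ :=
    { toFun := fun p => Matrix.of fun u v => φ (dirs (w u) p) v
      map_add' := fun p p' => by
        ext u v
        simp
      map_smul' := fun a p => by
        ext u v
        simp }
  have hM : ∀ a : σ → ℂ, ∃ (P : Matrix U Unit ℂ) (Q : Matrix Unit U ℂ),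
      Mm (linForm a ^ d) = P * Q := by
    intro a
    choose P hP using fun u => dirs_pow_eq a (w u) d
    refine ⟨Matrix.of fun u _ => P u, Matrix.of fun _ v => φ (linForm a ^ (d - s)) v, ?_⟩
    ext u v
    simp only [Mm, LinearMap.coe_mk, AddHom.coe_mk, Matrix.of_apply, Matrix.mul_apply]
    rw [hP u, hw u, map_smul, Pi.smul_apply, smul_eq_mul]
    simp
  have hdet := det_eq_zero_of_border (K := Unit) hb Mm hM (by simpa using hcard)
  have h1 : Mm f = 1 := by
    ext u v
    simp only [Mm, LinearMap.coe_mk, AddHom.coe_mk, Matrix.of_apply, hφ, Matrix.one_apply,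
      Pi.single_apply, eq_comm]
  rw [h1, Matrix.det_one] at hdet
  exact one_ne_zero hdet

namespace OneSupp

variable (A : OneSupp σ N k)

/-- the variables with a support not contained in the first `L` indices -/
def high (L : ℕ) : Set σ := {s | ∃ i ∈ A.supp s, L ≤ (i : ℕ)}

/-- **Reduction of one symmetric group.** -/
theorem one_group_supp [Fintype σ] {f : MvPolynomial σ ℂ} {d C m L : ℕ} (hd : d ≠ 0)
    (hinv : A.Inv f) {R : ℕ → ℕ} (hR : DerivBound f R)
    (hm0 : 0 < m) (hM : (k + 1) * m ≤ N / 2)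
    (hRm : ∀ s, m ≤ k * s → s ≤ m → R s < (N / 2).choose s) (hL : 2 * (m - 1) + k ≤ L)
    (hC : IsSumOfPowers d C (restrict (A.high L) f)) :
    IsSumOfPowers d (2 ^ (m - 1) * C * (k * (k * Fintype.card σ) + 1) ^ (m - 1)) f := by
  classical
  have heval : ∀ (π : Equiv.Perm (Fin N)) (x : σ → ℂ), eval (x ∘ A.act π) f = eval x f := by
    intro π x
    rw [← eval_rename, hinv]
  have hleaf : ∀ B : Finset (Fin N), B.card ≤ L → ∀ T : (σ → ℂ) →ₗ[ℂ] (σ → ℂ),
      (∀ x s i, i ∈ A.supp s → i ∉ B → T x s = 0) → HasW d C (fun x => eval (T x) f) := by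
    intro B hB T hT
    have hBN : B.card ≤ N := by simpa using Finset.card_le_univ B
    have hcard : B.card = (Finset.univ.filter fun i : Fin N => (i : ℕ) < B.card).card := by
      rw [Fin.card_filter_val_lt]
      omega
    obtain ⟨π, hπ⟩ := Equiv.Perm.exists_map_finset_eq B _ hcard
    have hπ' : ∀ i ∈ B, (π i : ℕ) < L := by
      intro i hi
      have h1 : π i ∈ Finset.univ.filter fun i : Fin N => (i : ℕ) < B.card := by
        rw [← hπ]
        exact Finset.mem_map_of_mem _ hi
      rw [Finset.mem_filter] at h1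
      omega
    let S : (σ → ℂ) →ₗ[ℂ] (σ → ℂ) := LinearMap.funLeft ℂ ℂ (A.act π⁻¹)
    obtain ⟨φ, hφ⟩ := hasW_iff.1 hC
    refine ⟨fun i => φ i ∘ₗ S ∘ₗ T, fun x => ?_⟩
    have h1 : eval (S (T x)) (restrict (A.high L) f) = eval (S (T x)) f := by
      apply eval_restrict
      · rintro s ⟨i, hi, hiL⟩
        change T x (A.act π⁻¹ s) = 0
        refine hT x _ (π⁻¹ i) ((A.mem_supp π⁻¹ s (π⁻¹ i)).2 ?_) (fun h => ?_)
        · rw [inv_inv]
          simpa using hi
        · have := hπ' _ h
          simp at this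
          omega
      · intro s _
        rfl
    have h2 := hφ (S (T x))
    simp only [h1] at h2
    have h3 : eval (S (T x)) f = eval (T x) f := heval π⁻¹ (T x)
    change eval (T x) f = _
    rw [← h3, h2]
    rfl
  let I : Finset (Fin N) := Finset.univ.biUnion fun s : σ => A.supp s
  have hI : I.card ≤ k * Fintype.card σ := by
    refine Finset.card_biUnion_le.trans ?_
    refine (Finset.sum_le_sum fun s _ => A.card_supp s).trans ?_
    rw [Finset.sum_const, Finset.card_univ, smul_eq_mul, mul_comm]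
  have hrec := A.rec_bound (f := f) (d := d) (C := C) (m := m) (L := L) hd hL
    (fun D hlen hD hD' x => A.Dif_eq_zero_list hinv hR hm0 hM hRm D hlen hD hD' x) hleaf I.card m []
    I.toList LinearMap.id (by simp) (by simp) List.Pairwise.nil (by simp)
    I.nodup_toList (by simp) (by
      intro x s i hi hu
      exact absurd (Or.inl (Finset.mem_toList.2
        (Finset.mem_biUnion.2 ⟨s, Finset.mem_univ _, hi⟩))) hu)
  rw [if_neg (by omega)] at hrec
  refine (hasW_iff.2 hrec).mono hd ?_
  apply Nat.mul_le_mul_left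
  apply Nat.pow_le_pow_left
  have := Nat.mul_le_mul_left k hI
  omega

end OneSupp

end Pool.Agent.Lib.MP_00289a_lc_h78
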