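import Pool.Agent.Lib.MP_00289a_lc_h78.Supp6
import Pool.Agent.Lib.MP_00289a_lc_h67.Symmetric

open MvPolynomial Filter Topology

namespace Pool.Agent.Lib.MP_00289a_lc_h78

open Pool.Agent.Lib.MP_00289a_lc_h67

/-- An action of the product of the symmetric groups of `Fin (N g)`, `g < G`, on `σ` with
equivariant supports of at most `k` elements in each `Fin (N g)` and with representatives
`rep j`, `j < t`, of the orbits. -/
structure SuppAction (σ : Type) {G : ℕ} (N : Fin G → ℕ) (k t : ℕ) where
  /-- the action -/
  act : (∀ g, Equiv.Perm (Fin (N g))) →* Equiv.Perm σ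
  /-- the supports -/
  supp : σ → ∀ g, Finset (Fin (N g))
  /-- the supports are small -/
  card_supp : ∀ s g, (supp s g).card ≤ k
  /-- the supports are equivariant -/
  supp_act : ∀ π s g, supp (act π s) g = (supp s g).map (π g).toEmbedding
  /-- permutations fixing the supports fix the element -/
  fixed : ∀ π s, (∀ g, ∀ i ∈ supp s g, π g i = i) → act π s = s
  /-- representatives of the orbits -/
  rep : Fin t → σ
  /-- every element is in the orbit of a representative -/
  exists_rep : ∀ s, ∃ j π, act π (rep j) = s

namespace SuppAction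

variable {σ : Type} {G : ℕ} {N : Fin G → ℕ} {k t : ℕ} (A : SuppAction σ N k t)

/-- the action of one factor -/
noncomputable def one (g : Fin G) : OneSupp σ (N g) k where
  act := A.act.comp (MonoidHom.mulSingle (fun g => Equiv.Perm (Fin (N g))) g)
  supp s := A.supp s g
  card_supp s := A.card_supp s g
  mem_supp π s i := by
    change i ∈ A.supp (A.act (Pi.mulSingle g π) s) g ↔ _
    rw [A.supp_act, Finset.mem_map_equiv, Pi.mulSingle_eq_same]
    rfl
  fixed π s h := by
    change A.act (Pi.mulSingle g π) s = s
    apply A.fixed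
    intro g' i hi
    by_cases hg : g' = g
    · subst hg
      rw [Pi.mulSingle_eq_same]
      exact h i hi
    · rw [Pi.mulSingle_eq_of_ne hg]
      rfl

/-- the variables having a support that is not contained in the first `L` indices for some of the
groups in `S` -/
def highS (L : ℕ) (S : Finset (Fin G)) : Set σ := {s | ∃ g ∈ S, s ∈ (A.one g).high L}

theorem highS_insert (L : ℕ) (g : Fin G) (S : Finset (Fin G)) :
    A.highS L (insert g S) = A.highS L S ∪ (A.one g).high L := by
  ext s
  simp only [highS, Finset.mem_insert, Set.mem_ofPred_eq, Set.mem_union]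
  constructor
  · rintro ⟨g', rfl | h, h'⟩
    · exact Or.inr h'
    · exact Or.inl ⟨g', h, h'⟩
  · rintro (⟨g', h, h'⟩ | h)
    · exact ⟨g', Or.inr h, h'⟩
    · exact ⟨g, Or.inl rfl, h⟩

theorem rename_restrict {π : Equiv.Perm σ} {Z : Set σ} (hZ : ∀ s, π s ∈ Z ↔ s ∈ Z)
    {f : MvPolynomial σ ℂ} (hf : rename π f = f) : rename π (restrict Z f) = restrict Z f := by
  classical
  apply MvPolynomial.funext
  intro x
  rw [eval_rename]
  rw [eval_restrict Z f (x ∘ π) (fun s => if s ∈ Z then 0 else x (π s)) (fun s hs => if_pos hs)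
      (fun s hs => if_neg hs),
    eval_restrict Z f x (fun s => if s ∈ Z then 0 else x s) (fun s hs => if_pos hs)
      (fun s hs => if_neg hs)]
  conv_rhs => rw [← hf]
  rw [eval_rename]
  congr 2
  funext s
  simp only [Function.comp_apply, hZ]

theorem inv_restrict {f : MvPolynomial σ ℂ} (hf : ∀ π, rename (A.act π) f = f) {L : ℕ}
    {g : Fin G} {S : Finset (Fin G)} (hg : g ∉ S) :
    (A.one g).Inv (restrict (A.highS L S) f) := by
  intro π
  apply rename_restrict _ (hf _)
  intro s
  have key : ∀ g' ∈ S, A.supp ((A.one g).act π s) g' = A.supp s g' := by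
    intro g' hg'
    have hne : g' ≠ g := by rintro rfl; exact hg hg'
    change A.supp (A.act (Pi.mulSingle g π) s) g' = A.supp s g'
    rw [A.supp_act, Pi.mulSingle_eq_of_ne hne]
    ext i
    rw [Finset.mem_map_equiv]
    rfl
  constructor
  · rintro ⟨g', hg', i, hi, hL⟩
    refine ⟨g', hg', i, ?_, hL⟩
    change i ∈ A.supp ((A.one g).act π s) g' at hi
    rw [key g' hg'] at hi
    exact hi
  · rintro ⟨g', hg', i, hi, hL⟩
    refine ⟨g', hg', i, ?_, hL⟩
    change i ∈ A.supp ((A.one g).act π s) g'
    rw [key g' hg']
    exact hi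

/-- The number of low variables. -/
theorem card_low [Fintype σ] {L : ℕ} (hL : 0 < L) (T : Finset σ)
    (hT : ∀ s ∈ T, s ∉ A.highS L Finset.univ) : T.card ≤ t * (L ^ k) ^ G := by
  classical
  choose jj ππ hrep using A.exists_rep
  have hlow : ∀ s ∈ T, ∀ g, ∀ i ∈ A.supp s g, (i : ℕ) < L := by
    intro s hs g i hi
    by_contra hcon
    exact hT s hs ⟨g, Finset.mem_univ _, i, hi, by omega⟩
  let Θ : σ → Fin t × (Fin G → Fin k → Fin L) := fun s =>
    (jj s, fun g l => ⟨(match (A.supp (A.rep (jj s)) g).toList[(l : ℕ)]? with
      | some i => ((ππ s g i : Fin (N g)) : ℕ)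
      | none => 0) % L, Nat.mod_lt _ hL⟩)
  have hinj : Set.InjOn Θ (T : Set σ) := by
    intro s hs s' hs' h
    simp only [Θ, Prod.mk.injEq] at h
    obtain ⟨hj, hc⟩ := h
    have hagree : ∀ g, ∀ i ∈ A.supp (A.rep (jj s)) g, ππ s g i = ππ s' g i := by
      intro g i hi
      have hi' := Finset.mem_toList.2 hi
      obtain ⟨l, hl, hli⟩ := List.getElem_of_mem hi'
      have hlk : l < k := by
        have h1 := A.card_supp (A.rep (jj s)) g
        rw [Finset.length_toList] at hl
        omega
      have h2 := congrFun (congrFun hc g) ⟨l, hlk⟩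
      rw [← hj] at h2
      simp only [List.getElem?_eq_getElem hl, hli, Fin.mk.injEq] at h2
      have h3 : (ππ s g i : ℕ) < L := by
        apply hlow s hs g
        conv_lhs => rw [← hrep s]
        rw [A.supp_act]
        exact Finset.mem_map_of_mem _ hi
      have h4 : (ππ s' g i : ℕ) < L := by
        apply hlow s' hs' g
        conv_lhs => rw [← hrep s']
        rw [A.supp_act, ← hj]
        exact Finset.mem_map_of_mem _ hi
      rw [Nat.mod_eq_of_lt h3, Nat.mod_eq_of_lt h4] at h2
      exact Fin.ext h2
    have hfix : A.act ((ππ s')⁻¹ * ππ s) (A.rep (jj s)) = A.rep (jj s) := by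
      apply A.fixed
      intro g i hi
      change (ππ s' g)⁻¹ (ππ s g i) = i
      rw [hagree g i hi]
      exact Equiv.symm_apply_apply _ _
    rw [← hrep s, ← hrep s', ← hj]
    rw [map_mul] at hfix
    have h5 := congrArg (A.act (ππ s')) hfix
    rw [← h5, map_inv]
    simp
  have h1 := Finset.card_le_card_of_injOn (t := Finset.univ) Θ (fun _ _ => Finset.mem_univ _) hinj
  refine h1.trans (le_of_eq ?_)
  rw [Finset.card_univ]
  simp

/-- **Explicit bound.** -/
theorem isSumOfPowers_supp [Fintype σ] {f : MvPolynomial σ ℂ}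
    (hf : ∀ π, rename (A.act π) f = f) {d m L : ℕ} (hd : d ≠ 0) (hhom : f.IsHomogeneous d)
    {R : ℕ → ℕ} (hR : ∀ Z, DerivBound (restrict Z f) R) (hm0 : 0 < m) (hL0 : 0 < L)
    (hL : 2 * (m - 1) + k ≤ L)
    (hg : ∀ g, N g ≤ L ∨ ((k + 1) * m ≤ N g / 2 ∧
      ∀ s, m ≤ k * s → s ≤ m → R s < (N g / 2).choose s)) :
    IsSumOfPowers d (((2 * (k * (k * Fintype.card σ) + 1)) ^ (m - 1)) ^ G *
      (d + 1) ^ (t * (L ^ k) ^ G)) f := by
  classical
  set M := k * Fintype.card σ with hMdef
  set c := (d + 1) ^ (t * (L ^ k) ^ G) with hc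
  have hrhom : ∀ Z : Set σ, (restrict Z f).IsHomogeneous d := by
    intro Z α hα
    rw [coeff_restrict] at hα
    by_cases h : ∀ s ∈ Z, α s = 0
    · rw [if_pos h] at hα
      exact hhom hα
    · rw [if_neg h] at hα
      exact absurd rfl hα
  -- the fully restricted form
  have hbase : IsSumOfPowers d c (restrict (A.highS L Finset.univ) f) := by
    have h1 := isSumOfPowers_box hd
      (fun s => if s ∈ A.highS L Finset.univ then 1 else d + 1)
      (restrict (A.highS L Finset.univ) f) (hrhom _) (by
        intro α hα s
        have h2 := mem_support_iff.1 hα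
        rw [coeff_restrict] at h2
        have h3 : ∀ s ∈ A.highS L Finset.univ, α s = 0 := by
          by_contra hcon
          rw [if_neg hcon] at h2
          exact h2 rfl
        split_ifs with hs
        · rw [h3 s hs]; norm_num
        · have h4 := degree_of_coeff_ne (hrhom _) (mem_support_iff.1 hα)
          have h5 := Finsupp.le_degree s α
          omega)
    refine h1.mono hd ?_
    rw [Finset.prod_ite, Finset.prod_const_one, one_mul, Finset.prod_const, hc]
    apply Nat.pow_le_pow_right (by omega)
    exact A.card_low hL0 _ (fun s hs => (Finset.mem_filter.1 hs).2)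
  -- add the groups one after the other
  have hstep : ∀ T : Finset (Fin G), IsSumOfPowers d (((2 * (k * M + 1)) ^ (m - 1)) ^ T.card * c)
      (restrict (A.highS L (Finset.univ \ T)) f) := by
    intro T
    induction T using Finset.induction_on with
    | empty => simpa using hbase
    | insert g T hgT ih =>
      have hset : Finset.univ \ T = insert g (Finset.univ \ insert g T) := by
        ext g'
        simp only [Finset.mem_sdiff, Finset.mem_univ, true_and, Finset.mem_insert]
        by_cases h : g' = g
        · subst h; simp [hgT]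
        · simp [h]
      rw [hset, highS_insert, ← restrict_restrict] at ih
      have hinv := A.inv_restrict hf (L := L) (g := g) (S := Finset.univ \ insert g T) (by simp)
      rw [Finset.card_insert_of_notMem hgT]
      rcases hg g with hlt | ⟨h1, h2⟩
      · have hempty : (A.one g).high L = ∅ := by
          ext s
          simp only [OneSupp.high, Set.mem_ofPred_eq, Set.mem_empty_iff_false, iff_false]
          rintro ⟨i, -, hi⟩
          have := i.2
          omega
        rw [restrict_empty _ _ hempty] at ih
        refine ih.mono hd ?_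
        apply Nat.mul_le_mul_right
        apply Nat.pow_le_pow_right (by positivity) (by omega)
      · have h3 := (A.one g).one_group_supp hd hinv (hR _) hm0 h1 h2 hL ih
        refine h3.mono hd ?_
        rw [← hMdef]
        apply le_of_eq
        rw [pow_succ ((2 * (k * M + 1)) ^ (m - 1)), mul_pow 2 (k * M + 1)]; ring
  have hfin := hstep Finset.univ
  rw [Finset.sdiff_self] at hfin
  have hempty : A.highS L (∅ : Finset (Fin G)) = ∅ := by
    ext s; simp [highS]
  rw [restrict_empty _ _ hempty] at hfin
  simpa using hfin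

end SuppAction

end Pool.Agent.Lib.MP_00289a_lc_h78
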