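import Pool.Agent.Lib.MP_00289a_lc_h78.ChowDefs

/-!
# Actions of products of symmetric groups with small supports
-/

open MvPolynomial

namespace Pool.Agent.Lib.MP_00289a_lc_h78

/-- `ρ` is an action of the product of the symmetric groups of the sets `Fin (N g)`, `g < G`, on the
set `σ` (of variables). `SmallSupports ρ k t` says that each element `s` of `σ` has a set `B g` of at
most `k` elements in each `Fin (N g)` such that all permutations fixing these elements fix `s`, and
that the action has at most `t` orbits. -/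
structure SmallSupports {σ : Type} {G : ℕ} {N : Fin G → ℕ}
    (ρ : (∀ g, Equiv.Perm (Fin (N g))) →* Equiv.Perm σ) (k t : ℕ) : Prop where
  /-- supports -/
  supports : ∀ s, ∃ B : ∀ g, Finset (Fin (N g)), (∀ g, (B g).card ≤ k) ∧
    ∀ π, (∀ g, ∀ i ∈ B g, π g i = i) → ρ π s = s
  /-- at most `t` orbits -/
  orbits : ∃ T : Finset σ, T.card ≤ t ∧ ∀ s, ∃ s' ∈ T, ∃ π, ρ π s' = s

/-- `f` is invariant under the action `ρ` on its variables. -/
def IsInvariant {σ : Type} {G : ℕ} {N : Fin G → ℕ}
    (ρ : (∀ g, Equiv.Perm (Fin (N g))) →* Equiv.Perm σ) (f : MvPolynomial σ ℂ) : Prop :=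
  ∀ π, rename (ρ π) f = f

end Pool.Agent.Lib.MP_00289a_lc_h78
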