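import Pool.Agent.Lib.MP_00289a_lc_h78.Supp7
import Pool.Agent.Lib.MP_00289a_lc_h78.SuppDefs

open MvPolynomial Filter Topology

namespace Pool.Agent.Lib.MP_00289a_lc_h78

open Pool.Agent.Lib.MP_00289a_lc_h67

section single

variable {σ : Type} {N : ℕ} (a : Equiv.Perm (Fin N) →* Equiv.Perm σ)

/-- the permutations fixing `B` fix `s` -/
def Fixes (s : σ) (B : Finset (Fin N)) : Prop := ∀ π, (∀ i ∈ B, π i = i) → a π s = s

variable {a}

theorem Fixes.swap {s : σ} {B : Finset (Fin N)} (h : Fixes a s B) {x y : Fin N} (hx : x ∉ B)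
    (hy : y ∉ B) : a (Equiv.swap x y) s = s := by
  apply h
  intro i hi
  apply Equiv.swap_apply_of_ne_of_ne
  · rintro rfl; exact hx hi
  · rintro rfl; exact hy hi

theorem apply_mul_fix {s : σ} {π π' : Equiv.Perm (Fin N)} (h : a π s = s) (h' : a π' s = s) :
    a (π * π') s = s := by
  rw [map_mul, Equiv.Perm.mul_apply, h', h]

theorem fixes_of_swaps {s : σ} {F : Finset (Fin N)}
    (h : ∀ x y, x ∉ F → y ∉ F → a (Equiv.swap x y) s = s) (n : ℕ) :
    ∀ π : Equiv.Perm (Fin N), π.support.card = n → (∀ i ∈ F, π i = i) → a π s = s := by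
  induction n using Nat.strong_induction_on with
  | _ n ih =>
    intro π hn hπ
    by_cases h1 : π = 1
    · subst h1
      rw [map_one]; rfl
    · obtain ⟨x, hx⟩ : ∃ x, π x ≠ x := by
        by_contra hcon
        push Not at hcon
        exact h1 (Equiv.ext hcon)
      have hxF : x ∉ F := fun hF => hx (hπ x hF)
      have hpxF : π x ∉ F := fun hF => hx (π.injective (hπ _ hF))
      have h2 := ih _ (by rw [← hn]; exact Equiv.Perm.card_support_swap_mul hx)
        (Equiv.swap x (π x) * π) rfl (by
          intro i hi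
          rw [Equiv.Perm.mul_apply, hπ i hi, Equiv.swap_apply_of_ne_of_ne]
          · rintro rfl; exact hxF hi
          · rintro rfl; exact hpxF hi)
      have h3 := apply_mul_fix (h x (π x) hxF hpxF) h2
      rwa [Equiv.swap_mul_self_mul] at h3

theorem Fixes.inter {s : σ} {B B' : Finset (Fin N)} (h : Fixes a s B) (h' : Fixes a s B')
    (hc : (B ∪ B').card < N) : Fixes a s (B ∩ B') := by
  classical
  obtain ⟨c, hc⟩ : ∃ c, c ∉ B ∪ B' := by
    by_contra hcon
    push Not at hcon
    have h1 : B ∪ B' = Finset.univ := Finset.eq_univ_iff_forall.2 hcon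
    rw [h1, Finset.card_univ, Fintype.card_fin] at hc
    omega
  rw [Finset.mem_union, not_or] at hc
  obtain ⟨hcB, hcB'⟩ := hc
  -- swaps
  have key : ∀ x y, x ∉ B → y ∉ B' → a (Equiv.swap x y) s = s := by
    intro x y hx hy
    by_cases hxy : x = y
    · subst hxy
      rw [Equiv.swap_self]
      have : a (Equiv.refl _) = 1 := map_one a
      rw [this]; rfl
    by_cases hcx : c = x
    · subst hcx
      exact h'.swap hcB' hy
    by_cases hcy : c = y
    · subst hcy
      exact h.swap hx hcB
    have h1 := h.swap hx hcB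
    have h2 := h'.swap hcB' hy
    have h3 : Equiv.swap x c * Equiv.swap c y * Equiv.swap x c = Equiv.swap x y := by
      ext i
      simp only [Equiv.Perm.mul_apply, Equiv.swap_apply_def]
      split_ifs <;> simp_all
    rw [← h3]
    exact apply_mul_fix (apply_mul_fix h1 h2) h1
  intro π hπ
  refine fixes_of_swaps (F := B ∩ B') ?_ _ π rfl hπ
  intro x y hx hy
  rw [Finset.mem_inter, not_and_or] at hx hy
  rcases hx with hx | hx <;> rcases hy with hy | hy
  · exact h.swap hx hy
  · exact key x y hx hy
  · rw [Equiv.swap_comm]; exact key y x hy hx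
  · exact h'.swap hx hy

variable (a)

/-- the canonical support -/
noncomputable def csupp (k : ℕ) (s : σ) : Finset (Fin N) := by
  classical
  exact if 2 * k < N then
    Finset.univ.filter fun i => ∀ B : Finset (Fin N), B.card ≤ k → Fixes a s B → i ∈ B
  else Finset.univ

variable {a}

theorem csupp_small {k : ℕ} (hN : 2 * k < N) {s : σ} (h : ∃ B, B.card ≤ k ∧ Fixes a s B) :
    (csupp a k s).card ≤ k ∧ Fixes a s (csupp a k s) := by
  classical
  obtain ⟨B₀, hB₀, hmin⟩ := Finset.exists_min_image
    (Finset.univ.filter fun B : Finset (Fin N) => B.card ≤ k ∧ Fixes a s B) Finset.card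
    (by
      obtain ⟨B, hB⟩ := h
      exact ⟨B, Finset.mem_filter.2 ⟨Finset.mem_univ _, hB⟩⟩)
  rw [Finset.mem_filter] at hB₀
  obtain ⟨-, hk, hfix⟩ := hB₀
  have h1 : ∀ B : Finset (Fin N), B.card ≤ k → Fixes a s B → B₀ ⊆ B := by
    intro B hB hBf
    have h2 : (B₀ ∪ B).card < N := by
      have := Finset.card_union_le B₀ B
      omega
    have h3 := hfix.inter hBf h2
    have h4 := hmin (B₀ ∩ B) (Finset.mem_filter.2 ⟨Finset.mem_univ _,
      (Finset.card_le_card Finset.inter_subset_left).trans hk, h3⟩)
    have h5 := Finset.eq_of_subset_of_card_le Finset.inter_subset_left h4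
    rw [← h5]
    exact Finset.inter_subset_right
  have h2 : csupp a k s = B₀ := by
    unfold csupp
    rw [if_pos hN]
    ext i
    rw [Finset.mem_filter]
    constructor
    · rintro ⟨-, h3⟩
      exact h3 B₀ hk hfix
    · intro h3
      exact ⟨Finset.mem_univ _, fun B hB hBf => h1 B hB hBf h3⟩
  rw [h2]
  exact ⟨hk, hfix⟩

theorem csupp_card {k : ℕ} {s : σ} (h : ∃ B, B.card ≤ k ∧ Fixes a s B) :
    (csupp a k s).card ≤ 2 * k := by
  classical
  by_cases hN : 2 * k < N
  · have := (csupp_small hN h).1
    omega
  · unfold csupp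
    rw [if_neg hN, Finset.card_univ, Fintype.card_fin]
    omega

theorem csupp_fixes {k : ℕ} {s : σ} (h : ∃ B, B.card ≤ k ∧ Fixes a s B) :
    Fixes a s (csupp a k s) := by
  classical
  by_cases hN : 2 * k < N
  · exact (csupp_small hN h).2
  · intro π hπ
    have : π = 1 := by
      ext i
      rw [hπ i (by unfold csupp; rw [if_neg hN]; exact Finset.mem_univ _)]
      rfl
    rw [this, map_one]; rfl

/-- equivariance: `b` and `c` play the roles of the action of a permutation `π` -/
theorem csupp_equiv {k : ℕ} {s : σ} {b : Equiv.Perm σ} {π : Equiv.Perm (Fin N)}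
    (hb : ∀ τ, a τ * b = b * a (π⁻¹ * τ * π)) :
    csupp a k (b s) = (csupp a k s).map π.toEmbedding := by
  classical
  have hfix : ∀ B : Finset (Fin N), Fixes a (b s) (B.map π.toEmbedding) ↔ Fixes a s B := by
    intro B
    constructor
    · intro h τ hτ
      have h1 := h (π * τ * π⁻¹) (by
        intro i hi
        obtain ⟨i', hi', rfl⟩ := Finset.mem_map.1 hi
        simp [hτ i' hi'])
      have h2 := hb (π * τ * π⁻¹)
      have h3 : π⁻¹ * (π * τ * π⁻¹) * π = τ := by group
      rw [h3] at h2
      have h4 := DFunLike.congr_fun h2 s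
      rw [Equiv.Perm.mul_apply, Equiv.Perm.mul_apply, h1] at h4
      exact (b.injective h4).symm
    · intro h τ hτ
      have h1 := h (π⁻¹ * τ * π) (by
        intro i hi
        have := hτ (π i) (Finset.mem_map_of_mem _ hi)
        simp [this])
      have h4 := DFunLike.congr_fun (hb τ) s
      rw [Equiv.Perm.mul_apply, Equiv.Perm.mul_apply, h1] at h4
      exact h4
  unfold csupp
  split_ifs with hN
  · ext i
    rw [Finset.mem_map_equiv, Finset.mem_filter, Finset.mem_filter]
    simp only [Finset.mem_univ, true_and]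
    constructor
    · intro h B hB hBf
      have h1 := h (B.map π.toEmbedding) (by rwa [Finset.card_map]) ((hfix B).2 hBf)
      rwa [Finset.mem_map_equiv] at h1
    · intro h B hB hBf
      have h0 : (B.map π.symm.toEmbedding).map π.toEmbedding = B := by
        ext i
        simp [Finset.mem_map_equiv]
      have h1 := h (B.map π.symm.toEmbedding) (by rwa [Finset.card_map])
        ((hfix _).1 (by rwa [h0]))
      rw [Finset.mem_map_equiv] at h1
      simpa using h1
  · ext i
    simp

end single

variable {σ : Type} {G : ℕ} {N : Fin G → ℕ}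

/-- The equivariant supports of an action with small supports. -/
theorem SmallSupports.exists_suppAction {ρ : (∀ g, Equiv.Perm (Fin (N g))) →* Equiv.Perm σ}
    {k t : ℕ} (h : SmallSupports ρ k t) :
    ∃ t' ≤ t, ∃ A : SuppAction σ N (2 * k) t', A.act = ρ := by
  classical
  let a : ∀ g, Equiv.Perm (Fin (N g)) →* Equiv.Perm σ := fun g =>
    ρ.comp (MonoidHom.mulSingle (fun g => Equiv.Perm (Fin (N g))) g)
  have ha : ∀ s g, ∃ B : Finset (Fin (N g)), B.card ≤ k ∧ Fixes (a g) s B := by
    intro s g
    obtain ⟨B, hB, hfix⟩ := h.supports s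
    refine ⟨B g, hB g, fun π hπ => ?_⟩
    apply hfix
    intro g' i hi
    by_cases hg : g' = g
    · subst hg
      change (Pi.mulSingle g' π : ∀ g, Equiv.Perm (Fin (N g))) g' i = i
      rw [Pi.mulSingle_eq_same]
      exact hπ i hi
    · change (Pi.mulSingle g π : ∀ g, Equiv.Perm (Fin (N g))) g' i = i
      rw [Pi.mulSingle_eq_of_ne hg]
      rfl
  obtain ⟨T, hT, hrep'⟩ := h.orbits
  let rep : Fin T.card → σ := fun j => (T.equivFin.symm j : σ)
  have hrep : ∀ s, ∃ j π, ρ π (rep j) = s := by
    intro s
    obtain ⟨s', hs', π, hπ⟩ := hrep' s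
    refine ⟨T.equivFin ⟨s', hs'⟩, π, ?_⟩
    simpa [rep] using hπ
  refine ⟨T.card, hT, {
    act := ρ
    supp := fun s g => csupp (a g) k s
    card_supp := fun s g => csupp_card (ha s g)
    supp_act := ?_
    fixed := ?_
    rep := rep
    exists_rep := hrep }, rfl⟩
  · intro π s g
    apply csupp_equiv
    intro τ
    change ρ (Pi.mulSingle g τ) * ρ π = ρ π * ρ (Pi.mulSingle g ((π g)⁻¹ * τ * π g))
    rw [← map_mul, ← map_mul]
    congr 1
    funext g'
    by_cases hg : g' = g
    · subst hg
      simp only [Pi.mul_apply, Pi.mulSingle_eq_same]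
      group
    · simp only [Pi.mul_apply, Pi.mulSingle_eq_of_ne hg]
      group
  · intro π s hπ
    have key : ∀ T : Finset (Fin G), ∀ π : ∀ g, Equiv.Perm (Fin (N g)),
        (∀ g ∉ T, π g = 1) → (∀ g, ∀ i ∈ csupp (a g) k s, π g i = i) → ρ π s = s := by
      intro T
      induction T using Finset.induction_on with
      | empty =>
        intro π h1 _
        have : π = 1 := funext fun g => h1 g (Finset.notMem_empty _)
        rw [this, map_one]; rfl
      | insert g T hg ih =>
        intro π h1 h2
        have h3 : π = Pi.mulSingle g (π g) * Function.update π g 1 := by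
          funext g'
          by_cases hg' : g' = g
          · subst hg'
            simp
          · simp [Pi.mulSingle_eq_of_ne hg', Function.update_of_ne hg']
        have h4 := ih (Function.update π g 1) (by
          intro g' hg'
          by_cases hgg : g' = g
          · subst hgg; simp
          · rw [Function.update_of_ne hgg]
            apply h1
            rw [Finset.mem_insert, not_or]
            exact ⟨hgg, hg'⟩) (by
          intro g' i hi
          by_cases hgg : g' = g
          · subst hgg; simp
          · rw [Function.update_of_ne hgg]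
            exact h2 g' i hi)
        have h5 := csupp_fixes (ha s g) (π g) (h2 g)
        rw [h3, map_mul, Equiv.Perm.mul_apply, h4]
        exact h5
    exact key Finset.univ π (fun g hg => absurd (Finset.mem_univ g) hg) hπ

end Pool.Agent.Lib.MP_00289a_lc_h78
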