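import Pool.Agent.Lib.MP_00289a_lc_h78.ChowMain

/-!
# MP_00289a_lc: on symmetric families of small degree VChow equals its border class

The definitions are in `Pool.Agent.Lib.MP_00289a_lc_h67.Defs`,
`Pool.Agent.Lib.MP_00289a_lc_h67.BlockDefs` and `Pool.Agent.Lib.MP_00289a_lc_h78.ChowDefs`.
-/

namespace Pool.Agent.Lib.MP_00289a_lc_h78.SymmetricChow

open Filter Pool.Agent.Lib.MP_00289a_lc_h67 Pool.Agent.Lib.MP_00289a_lc_h78

/-- (1) Let `f` be a form of degree `d ≥ 1` of border Chow rank at most `r` whose variables are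
divided into `G` groups, the group `g` consisting of `N g` blocks of `q` variables, and suppose that
`f` is invariant under permutations of the blocks inside each group. If every group has fewer than
`2 * m` blocks or satisfies `r * d.choose m < (N g / 2).choose m` then even the Waring rank of `f`
is at most `(2 * (M + 1)) ^ ((m - 1) * G) * (d + 1) ^ (q * G * (2 * m - 1))`, where `M` bounds the
`N g`.

(2) Hence a p-family whose forms have this symmetry, with the same `G` and `q ≥ 1` for all `n` and
with groups that have either at most `K` blocks or at least `n ^ (1 / K)` and at least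
`deg ^ (1 + 1 / K)` blocks, is in the border class of VChow if and only if it is in VChow, and if
and only if it is in VWaring. -/
theorem result :
    (∀ (σ : Type) [Fintype σ] (G q : ℕ) (N : Fin G → ℕ)
      (e : σ ≃ Σ g : Fin G, Fin (N g) × Fin q) (f : MvPolynomial σ ℂ), BlockSymmetric e f →
      ∀ d m r M : ℕ, 1 ≤ d → 1 ≤ m → borderChowRank d f ≤ r →
        (∀ g, N g < 2 * m ∨ r * d.choose m < (N g / 2).choose m) → (∀ g, N g ≤ M) →
        waringRank d f ≤
          (((2 * (M + 1)) ^ ((m - 1) * G) * (d + 1) ^ (q * G * (2 * m - 1)) : ℕ) : ℕ∞)) ∧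
    ∀ (F : PFamily) (G q : ℕ) (_ : 1 ≤ q) (N : ℕ → Fin G → ℕ)
      (e : ∀ n, F.Var n ≃ Σ g : Fin G, Fin (N n g) × Fin q),
      (∀ n, BlockSymmetric (e n) (F.form n)) →
      ∀ K : ℕ, (∀ᶠ n in atTop, ∀ g,
          N n g ≤ K ∨ (n ≤ N n g ^ K ∧ F.deg n ^ (K + 1) ≤ N n g ^ K)) →
        (BorderVChow F ↔ VChow F) ∧ (VChow F ↔ VWaring F) := by
  refine ⟨?_, ?_⟩
  · intro σ _ G q N e f hf d m r M hd hm1 hb hm hM
    have := isSumOfPowers_of_blockSymmetric_chow hf (by omega) hb hm1 hm hM
    rw [← pow_mul] at this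
    exact waringRank_le this
  · intro F G q hq N e hsym K hN
    have h := vwaring_of_blockSymmetric_chow F hq N e hsym K hN
    exact ⟨⟨fun h' => vchow_of_vwaring F (h h'), border_of_vchow F⟩,
      ⟨fun h' => h (border_of_vchow F h'), vchow_of_vwaring F⟩⟩

end Pool.Agent.Lib.MP_00289a_lc_h78.SymmetricChow
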